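import Pool.Agent.Lib.MP_aa40d3_nt.GC.Rk
import Pool.Agent.Lib.MP_aa40d3_nt.GR.Loop

/-! The loop around all singular points. -/

open Polynomial Matrix Set Filter Topology
open scoped Matrix.Norms.Operator

namespace Pool.Agent.GR.GC

variable {n N : ℕ}

/-- The coefficients agree (`coef_apply` on both sides, `ContinuousMap.ext`). -/
theorem T_scale {t : Fin n → ℂ} (A : Fin n → Mat N) {a c s : ℂ} (hs : s ≠ 0)
    (h : ∀ i, t i ∉ segment ℝ a c) : T (fun i => s * t i) A (s * a) (s * c) = T t A a c := by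
  have h' : ∀ i, s * t i ∉ segment ℝ (s * a) (s * c) := fun i ⟨p, q, hp, hq, hpq, e⟩ =>
    h i ⟨p, q, hp, hq, hpq, mul_left_cancel₀ hs (by
      rw [← e]
      simp only [Complex.real_smul]
      ring)⟩
  unfold T
  congr 1
  refine ContinuousMap.ext fun u => ?_
  rw [coef_apply A h', coef_apply A h, sys, sys, Finset.smul_sum, Finset.smul_sum]
  refine Finset.sum_congr rfl fun i _ => ?_
  rw [smul_smul, smul_smul, loop_lin, loop_lin]
  congr 1
  rw [show s * a + (u : ℝ) * (s * c - s * a) - s * t i = s * (a + (u : ℝ) * (c - a) - t i) by ring,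
    ← mul_sub, mul_inv, mul_mul_mul_comm, mul_inv_cancel₀ hs, one_mul]

theorem infa_side (t : Fin n → ℂ) (A : Fin n → Mat N) {a c : ℂ} (h : LoopSd a c) :
    Tendsto (fun s : ℝ => T (fun i => (s : ℂ) * t i) A a c) (𝓝[>] 0)
      (𝓝 (T ![0] ![∑ i, A i] a c)) := by
  have h0 : (0 : ℂ) ∉ segment ℝ a c := by
    have := h.not_mem (c := 1) (x := 0) fun y hy _ e => by
      rw [one_mul] at e
      rw [← e, norm_zero] at hy
      exact absurd hy (by norm_num)
    rwa [one_mul, one_mul] at this
  have h1 : DifferentiableAt ℂ (fun s : ℂ => T (fun i => s * t i) A a c) 0 :=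
    differentiableAt_T (t := fun s i => s * t i) (A := fun _ => A) (a := fun _ => a)
      (b := fun _ => c) (fun i => by fun_prop) (fun i => differentiableAt_const _)
      (differentiableAt_const _) (differentiableAt_const _) fun i => by rwa [zero_mul]
  have h2 : T (fun i => 0 * t i) A a c = T ![0] ![∑ i, A i] a c := by
    unfold T
    congr 1
    refine ContinuousMap.ext fun u => ?_
    rw [coef_apply A fun i => by rwa [zero_mul],
      coef_apply _ fun i => by rwa [Subsingleton.elim i 0], holo_sys_one, sys,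
      Finset.smul_sum (r := (lin a c u - 0)⁻¹)]
    simp only [zero_mul]
  rw [← h2]
  exact (h1.continuousAt.tendsto.comp (Complex.continuous_ofReal.tendsto' 0 0 rfl)).mono_left
    nhdsWithin_le_nhds

/-- `differentiableAt_T` in `s` at zero on the four sides (`loop_sides`, `LoopSd.not_mem`,
`loop_sq`); for `s = 0` the coefficient is that of `![0], ![∑ i, A i]` (`coef_apply`);
`sqLoop_euler`. -/
theorem inf_lim (t : Fin n → ℂ) (A : Fin n → Mat N) :
    Tendsto (fun s : ℝ => sqLoop (fun i => (s : ℂ) * t i) A 0 1) (𝓝[>] 0)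
      (𝓝 (NormedSpace.exp ((2 * Real.pi * Complex.I : ℂ) • ∑ i, A i))) := by
  obtain ⟨h1, h2, h3, h4⟩ := loop_sides
  have h0 : NormedSpace.exp ((2 * Real.pi * Complex.I : ℂ) • ∑ i, A i) =
      sqLoop ![0] ![∑ i, A i] 0 1 := (sqLoop_euler _ 0 one_ne_zero).symm
  rw [h0]
  simp only [loop_sq, one_mul]
  exact (((infa_side t A h4).mul (infa_side t A h3)).mul (infa_side t A h2)).mul (infa_side t A h1)

end Pool.Agent.GR.GC
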