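import Pool.Agent.Lib.MP_aa40d3_nt.GR.Loop
import Pool.Agent.Lib.MP_aa40d3_nt.GC.InfA

/-! The loop around all singular points. -/

open Polynomial Matrix Set Filter Topology
open scoped Matrix.Norms.Operator

namespace Pool.Agent.GR.GC

variable {n N : ℕ}

theorem inf_scale (t : Fin n → ℂ) (A : Fin n → Mat N) {s : ℝ} (hs : 0 < s)
    (h : ∀ i, ‖t i‖ < s⁻¹) :
    sqLoop (fun i => (s : ℂ) * t i) A 0 1 = sqLoop t A 0 ((s⁻¹ : ℝ) : ℂ) := by
  have hs' : (s : ℂ) ≠ 0 := Complex.ofReal_ne_zero.2 hs.ne'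
  have key : ∀ {ya yb : ℂ}, LoopSd ya yb → T (fun i => (s : ℂ) * t i) A (1 * ya) (1 * yb) =
      T t A (((s⁻¹ : ℝ) : ℂ) * ya) (((s⁻¹ : ℝ) : ℂ) * yb) := by
    intro ya yb hy
    have e : ∀ y : ℂ, 1 * y = (s : ℂ) * (((s⁻¹ : ℝ) : ℂ) * y) := fun y => by
      rw [Complex.ofReal_inv, mul_inv_cancel_left₀ hs', one_mul]
    rw [e ya, e yb]
    refine T_scale A hs' fun i => hy.not_mem fun y h1 _ e1 => ?_
    have h2 := h i
    rw [e1, norm_mul, Complex.norm_real, Real.norm_of_nonneg (inv_pos.2 hs).le] at h2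
    exact absurd h2 (not_lt.2 (le_mul_of_one_le_right (inv_pos.2 hs).le h1))
  obtain ⟨h0, h1, h2, h3⟩ := loop_sides
  rw [loop_sq, loop_sq, key h0, key h1, key h2, key h3]

/-- `prod_vt` with `σ = H` and `Vp_inv_mul` show that the product is conjugate to the boundary of
the box; for `H' ≥ H` the boundary of the box of half side `H'` is conjugate to it (`RL_nest`), it
is `sqLoop t A 0 H'` (`RL_TT`), and `T_scale` with `s = H'⁻¹`. -/
theorem inf_conj {t : Fin n → ℂ} (hre : Function.Injective fun i => (t i).re) (A : Fin n → Mat N)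
    {H : ℝ} (hH : 0 < H) (hb : InBox (pp t) H) {L : List (Fin n)}
    (hL : LowerL (fun i => (t i).re) L) (hall : ∀ a, a ∈ L) :
    ∀ᶠ s : ℝ in 𝓝[>] 0, ∃ u : (Mat N)ˣ, sqLoop (fun i => (s : ℂ) * t i) A 0 1 =
      u.val * ((L.map (vt (TT t A) (pp t) H)).prod).val * (u⁻¹).val := by
  have hT := rectT_TT t A
  have e1 := prod_vt hT hb hH.le hre hL (σ := H) (fun a _ => (abs_lt.1 (hb a).1).2)
    fun a ha => absurd (hall a) ha
  rw [Vp_inv_mul hT hb hH.le fun j => (abs_lt.1 (hb j).1).1.ne'] at e1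
  have h2 : 0 < (2 * H)⁻¹ := by positivity
  filter_upwards [Ioo_mem_nhdsGT h2] with s hs
  have h3 : 2 * H < s⁻¹ := (lt_inv_comm₀ hs.1 (by positivity)).1 hs.2
  have e2 := RL_nest hT (x1 := -s⁻¹) (x2 := s⁻¹) (y1 := -s⁻¹) (y2 := s⁻¹) (x1' := -H) (x2' := H)
    (y1' := -H) (y2' := H) (by linarith) (by linarith) (by linarith) (by linarith) (by linarith)
    (by linarith) fun i _ => ⟨abs_lt.1 (hb i).1, abs_lt.1 (hb i).2⟩
  have e3 := RL_TT t A 0 s⁻¹
  rw [Complex.zero_re, Complex.zero_im, zero_sub, zero_add, e2] at e3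
  have h4 : ∀ i, ‖t i‖ < s⁻¹ := fun i => by
    have h5 := Complex.norm_le_abs_re_add_abs_im (t i)
    have h6 : |(t i).re| < H := (hb i).1
    have h7 : |(t i).im| < H := (hb i).2
    linarith
  refine ⟨(TT t A (-H, -s⁻¹) (-H, -H) * TT t A (-s⁻¹, -s⁻¹) (-H, -s⁻¹))⁻¹ *
    TT t A (-H, -H) (-H, -H), ?_⟩
  rw [inf_scale t A hs.1 h4, ← e3, e1, ← Units.val_mul, ← Units.val_mul]
  congr 1
  group

theorem rank_inf {t : Fin n → ℂ} (hre : Function.Injective fun i => (t i).re) (A : Fin n → Mat N)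
    {H : ℝ} (hH : 0 < H) (hb : InBox (pp t) H) {L : List (Fin n)}
    (hL : LowerL (fun i => (t i).re) L) (hall : ∀ a, a ∈ L)
    (hg : IsOfFinOrder (L.map (vt (TT t A) (pp t) H)).prod) {r : ℕ} (h : Small r (∑ i, A i)) :
    (((L.map (vt (TT t A) (pp t) H)).prod).val - 1).rank ≤ r :=
  (rank_lim hg (inf_lim t A) (inf_conj hre A hH hb hL hall)).trans_le h

end Pool.Agent.GR.GC
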