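import Pool.Agent.Lib.MP_aa40d3_nt.GC.RkA

/-! The rank of the local monodromy minus one. -/

open Polynomial Matrix Set Filter Topology
open scoped Matrix.Norms.Operator

namespace Pool.Agent.GR.GC

variable {n N : ℕ}

/-- As in `isRefl_vt` and `comm_exp`: `vt_eq_RL`, `RL_TT`; `sqLoop_tendsto`, `rank_lim`. -/
theorem rank_vt [NeZero N] {t : Fin n → ℂ} (hre : Function.Injective fun i => (t i).re)
    (A : Fin n → Mat N) {H : ℝ} (hb : InBox (pp t) H) (i : Fin n)
    (hg : IsOfFinOrder (vt (TT t A) (pp t) H i)) {r : ℕ} (h : Small r (A i)) :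
    ((vt (TT t A) (pp t) H i).val - 1).rank ≤ r := by
  have hti : Function.Injective t := fun i j hij => hre (by simp only [hij])
  obtain ⟨ε, hε, hval⟩ := exists_validAt hre i
  have him : |(t i).im| < H := (hb i).2
  refine (rank_lim hg (sqLoop_tendsto hti A i) ?_).trans_le h
  filter_upwards [Ioo_mem_nhdsGT (lt_min hε (sub_pos.2 him))] with ρ hρ
  have hρ0 := hρ.1
  have hρ1 := hρ.2.trans_le (min_le_left _ _)
  have hρ2 := hρ.2.trans_le (min_le_right _ _)
  have hv : ValidAt (fun j => (pp t j).1) i ((t i).re - ρ) ((t i).re + ρ) :=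
    hval _ _ (by linarith) (by linarith) (by linarith) (by linarith)
  have l1 := le_abs_self (t i).im
  have l2 := neg_abs_le (t i).im
  have hvt := vt_eq_RL (rectT_TT t A) hb hv (y1 := (t i).im - ρ) (y2 := (t i).im + ρ)
    (by linarith) (by show _ < (t i).im; linarith) (by show (t i).im < _; linarith) (by linarith)
  refine ⟨Ybot (TT t A) H ((t i).re - ρ, (t i).im - ρ), ?_⟩
  rw [hvt, ← Units.val_mul, ← Units.val_mul, ← mul_assoc, ← mul_assoc, mul_inv_cancel, one_mul,
    mul_inv_cancel_right, RL_TT]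

end Pool.Agent.GR.GC
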