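import Pool.Agent.Lib.MP_aa40d3_nt.GC.FibC

/-! The fibres of a stable algebra. -/

open Polynomial Matrix Set Filter Topology
open scoped Matrix.Norms.Operator

namespace Pool.Agent.GR.GC

variable {n N : ℕ} {t : Fin n → ℂ} {A : Fin n → Mat N}
  {W : Subalgebra ℂ[X] (Matrix (Fin N) (Fin N) ℂ[X])}

/-- As `MP.fact_rank`: `≤` by `Submodule.finrank_mono` and `fact_rank`, or directly with
`factb_down`; `≥` by `factb_up` for lifts of a basis. -/
theorem fib_rank [NeZero N] {U : Set ℂ} (hU : U.Infinite) {x₀ : ℂ} {Y : ℂ → Mat N}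
    (hY : ∀ x ∈ U, (Y x).det ≠ 0)
    (h : ∀ Φ ∈ W, Φ ∈ primW U Y (Subalgebra.toSubmodule (fib W x₀))) :
    Module.finrank ℂ (fib W x₀) = Module.finrank ℂ[X] W := by
  refine le_antisymm ?_ ?_
  · let b := Module.finBasis ℂ (Subalgebra.toSubmodule (fib W x₀))
    choose Φ hΦ e using fun i => mem_fib.1 (b i).2
    have h1 : LinearIndependent ℂ fun i => (Φ i).map (eval x₀) := by
      rw [_root_.funext e]
      exact b.linearIndependent.map' (Subalgebra.toSubmodule (fib W x₀)).subtype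
        (Submodule.ker_subtype _)
    have h2 : LinearIndependent ℂ[X] fun i => (⟨Φ i, hΦ i⟩ : Subalgebra.toSubmodule W) :=
      LinearIndependent.of_comp (Subalgebra.toSubmodule W).subtype (MP.factb_up h1)
    have h3 := h2.fintype_card_le_finrank
    rw [Fintype.card_fin] at h3
    exact h3
  · have e := MP.fact_rank (x₀ := x₀) hU hY (Z := Subalgebra.toSubmodule (fib W x₀))
      fun z₀ hz₀ => by
        obtain ⟨Φ, hΦ, e⟩ := mem_fib.1 hz₀
        exact ⟨Φ, h Φ hΦ, 1, one_ne_zero, by rw [one_smul, e]⟩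
    have h4 : Subalgebra.toSubmodule W ≤ primW U Y (Subalgebra.toSubmodule (fib W x₀)) :=
      fun Φ hΦ => h Φ hΦ
    exact (Submodule.finrank_mono h4).trans e.le

end Pool.Agent.GR.GC
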