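import Pool.Agent.Lib.MP_aa40d3_nt.GC.Stmt
import Pool.Agent.Lib.MP_aa40d3_nt.GR.Aff

/-! Modules of rows. -/

open Polynomial Matrix

namespace Pool.Agent.GR.GC

variable {n N : ℕ}

/-- Stable under the connection on rows. -/
def RowSt (t : Fin n → ℂ) (A : Fin n → Matrix (Fin N) (Fin N) ℂ)
    (L : Submodule ℂ[X] (Fin N → ℂ[X])) : Prop :=
  ∀ l ∈ L, (dl t • fun a => derivative (l a)) + l ᵥ* pm t A ∈ L

/-- Zero or of full rank. -/
def Triv (L : Submodule ℂ[X] (Fin N → ℂ[X])) : Prop :=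
  L = ⊥ ∨ ∀ v, ∃ q : ℂ[X], q ≠ 0 ∧ q • v ∈ L

/-- The first coordinate is cyclic. -/
def Cyc [NeZero N] (t : Fin n → ℂ) (A : Fin n → Matrix (Fin N) (Fin N) ℂ) : Prop :=
  ∀ L, RowSt t A L → Pi.single 0 1 ∈ L → Triv L

/-- Irreducible together with `W`. -/
def IrrW (t : Fin n → ℂ) (A : Fin n → Matrix (Fin N) (Fin N) ℂ)
    (W : Subalgebra ℂ[X] (Matrix (Fin N) (Fin N) ℂ[X])) : Prop :=
  ∀ L, RowSt t A L → (∀ l ∈ L, ∀ Φ ∈ W, l ᵥ* Φ ∈ L) → Triv L

/-- As `Cover`, and the system is irreducible together with the algebra. -/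
def CoverI (d b : ℕ) (t : Fin n → ℂ) (A : Fin n → Matrix (Fin N) (Fin N) ℂ) : Prop :=
  ∃ W : Subalgebra ℂ[X] (Matrix (Fin N) (Fin N) ℂ[X]), IrrW t A W ∧
    (∀ Φ ∈ W, dl t • Φ.map derivative - (pm t A * Φ - Φ * pm t A) ∈ W) ∧
      (∀ Φ ∈ W, ∀ Ψ ∈ W, Φ * Ψ = Ψ * Φ) ∧ Module.finrank ℂ[X] W = d ∧
        ∃ M : Finset (Fin n), b ≤ M.card ∧ ∀ i ∈ M, RamAt t A W i

theorem Cover.coverI {d b : ℕ} {t : Fin n → ℂ} {A : Fin n → Matrix (Fin N) (Fin N) ℂ}
    (h : Cover d b t A) (hi : Irred t A) : CoverI d b t A :=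
  h.imp fun _ h1 => ⟨fun L h2 _ => hi L h2, h1⟩

theorem row_aff {t t' : Fin n → ℂ} {c b : ℂ} (hc : c ≠ 0) (ht : ∀ i, t i = c * t' i + b)
    {A : Fin n → Matrix (Fin N) (Fin N) ℂ} {L : Submodule ℂ[X] (Fin N → ℂ[X])}
    (hL : RowSt t A L) : ∃ L', RowSt t' A L' ∧ (Triv L' → Triv L) ∧
      (∀ l, (fun a => (l a).comp (C c * X + C b)) ∈ L' ↔ l ∈ L) ∧
      ∀ v : Fin N → ℂ[X], ∃ u : Fin N → ℂ[X], (fun a => (u a).comp (C c * X + C b)) = v := by
  have : Invertible c := invertibleOfNonzero hc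
  let ψ := algEquivCMulXAddC c b
  have hφ : ∀ q : ℂ[X], q.comp (C c * X + C b) = ψ q := fun q => by
    rw [algEquivCMulXAddC_apply, comp_eq_aeval]
  let L' : Submodule ℂ[X] (Fin N → ℂ[X]) :=
    { carrier := {l | (fun a => ψ.symm (l a)) ∈ L}
      add_mem' := fun {u v} hu hv => by
        simp only [Set.mem_ofPred_eq, Pi.add_apply, map_add]
        exact L.add_mem hu hv
      zero_mem' := by
        simp only [Set.mem_ofPred_eq, Pi.zero_apply, map_zero]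
        exact L.zero_mem
      smul_mem' := fun q u hu => by
        simp only [Set.mem_ofPred_eq, Pi.smul_apply, smul_eq_mul, map_mul]
        exact L.smul_mem (ψ.symm q) hu }
  have hm : ∀ l : Fin N → ℂ[X], (fun a => ψ (l a)) ∈ L' ↔ l ∈ L := fun l => by
    change (fun a => ψ.symm (ψ (l a))) ∈ L ↔ _
    simp only [AlgEquiv.symm_apply_apply]
  have hs : ∀ v : Fin N → ℂ[X], ∃ u : Fin N → ℂ[X], (fun a => ψ (u a)) = v := fun v =>
    ⟨fun a => ψ.symm (v a), funext fun a => ψ.apply_symm_apply _⟩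
  refine ⟨L', fun v hv => ?_, fun h => h.imp (fun h0 => ?_) fun h0 v => ?_,
    fun l => by simpa only [hφ] using hm l, by simpa only [hφ] using hs⟩
  · obtain ⟨l, rfl⟩ := hs v
    have h1 := L'.smul_mem (C (c ^ n)⁻¹ * C c) ((hm _).2 (hL l ((hm l).1 hv)))
    convert h1 using 1
    funext a
    have h5 : derivative (C c * X + C b : ℂ[X]) = C c := by simp
    have h6 : (C (c ^ n)⁻¹ * C c ^ n : ℂ[X]) = 1 := by
      rw [← C_pow, ← C_mul, inv_mul_cancel₀ (pow_ne_zero n hc), C_1]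
    simp only [Pi.smul_apply, Pi.add_apply, smul_eq_mul, Matrix.vecMul, dotProduct, ← hφ]
    rw [add_comp, mul_comp, Polynomial.sum_comp, aff_dl ht, derivative_comp, h5, mul_add,
      Finset.mul_sum]
    congr 1
    · linear_combination (-(dl t' * ((derivative (l a)).comp (C c * X + C b) * C c))) * h6
    · refine Finset.sum_congr rfl fun x _ => ?_
      rw [mul_comp]
      linear_combination (-((l x).comp (C c * X + C b) * pm t' A x a)) * h6 -
        C (c ^ n)⁻¹ * (l x).comp (C c * X + C b) * aff_pm ht A x a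
  · refine (Submodule.eq_bot_iff _).2 fun l hl => funext fun a => ψ.injective ?_
    have h1 := (hm l).2 hl
    rw [h0, Submodule.mem_bot] at h1
    rw [congrFun h1 a, Pi.zero_apply, map_zero]
  · obtain ⟨q, hq, h1⟩ := h0 fun a => ψ (v a)
    refine ⟨ψ.symm q, (map_ne_zero_iff _ ψ.symm.injective).2 hq, (hm _).1 ?_⟩
    simp only [Pi.smul_apply, smul_eq_mul, map_mul, AlgEquiv.apply_symm_apply]
    exact h1

theorem Cyc.aff [NeZero N] {t t' : Fin n → ℂ} {c b : ℂ} (hc : c ≠ 0)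
    (ht : ∀ i, t i = c * t' i + b) {A : Fin n → Matrix (Fin N) (Fin N) ℂ} (h : Cyc t' A) :
    Cyc t A := by
  intro L hL h1
  obtain ⟨L', k1, k2, k3, -⟩ := row_aff hc ht hL
  refine k2 (h L' k1 ?_)
  convert (k3 _).2 h1 using 1
  funext a
  by_cases ha : a = 0 <;> simp [Pi.single_apply, ha]

end Pool.Agent.GR.GC
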