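import Pool.Agent.Lib.MP_aa40d3_nt.GC.LinkB

/-! States and moves on lists. -/

namespace Pool.Agent.GR.GC

variable {G : Type} [Group G] {n : ℕ} {L0 : List (Fin n)} {g : Fin n → G}

omit [Group G] in
theorem link_split {L : List (Fin n)} {h : Fin n → G} {A B : List G} {x y : G}
    (e : A ++ x :: y :: B = L.map h) : ∃ L₁ L₂ a c, L = L₁ ++ a :: c :: L₂ ∧ L₁.map h = A ∧
      h a = x ∧ h c = y ∧ L₂.map h = B := by
  obtain ⟨L₁, R, rfl, e1, e2⟩ := List.map_eq_append_iff.1 e.symm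
  obtain ⟨a, R', rfl, e3, e4⟩ := List.map_eq_cons_iff.1 e2
  obtain ⟨c, L₂, rfl, e5, e6⟩ := List.map_eq_cons_iff.1 e4
  exact ⟨L₁, L₂, a, c, rfl, e1, e3, e5, e6⟩

theorem link_nodup {L₁ L₂ : List (Fin n)} {a c : Fin n} (h : (L₁ ++ a :: c :: L₂).Nodup) :
    a ≠ c ∧ (∀ e ∈ L₁, e ≠ a ∧ e ≠ c) ∧ ∀ e ∈ L₂, e ≠ a ∧ e ≠ c := by
  rw [List.nodup_append, List.nodup_cons, List.nodup_cons] at h
  obtain ⟨-, ⟨h1, h2, -⟩, h3⟩ := h
  refine ⟨fun e => h1 (by simp [e]), fun e he => ⟨h3 e he a (by simp), h3 e he c (by simp)⟩,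
    fun e he => ⟨?_, ?_⟩⟩
  · rintro rfl
    exact h1 (List.mem_cons_of_mem _ he)
  · rintro rfl
    exact h2 he

theorem link_st (h0 : L0.Nodup) (hf : ∀ x, IsLoop Finset.univ L0 g x → IsOfFinOrder x)
    {l : List G} (hl : Hur (L0.map g) l) :
    ∃ L h, St Finset.univ L0 g L h ∧ l = L.map h := by
  induction hl with
  | refl => exact ⟨L0, g, St.init, rfl⟩
  | left _ ih =>
    obtain ⟨L, h, hs, e⟩ := ih
    obtain ⟨L₁, L₂, a, c, rfl, rfl, rfl, rfl, rfl⟩ := link_split e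
    obtain ⟨n1, n2, n3⟩ := link_nodup (dbl_nodup h0 hs)
    obtain ⟨h', hs', e1, e2⟩ := st_left h0 hs
    refine ⟨_, h', hs', ?_⟩
    rw [List.map_append, List.map_cons, List.map_cons, e1, e2 c n1.symm,
      List.map_congr_left fun e he => e2 e (n2 e he).1,
      List.map_congr_left fun e he => e2 e (n3 e he).1]
  | right _ ih =>
    obtain ⟨L, h, hs, e⟩ := ih
    obtain ⟨L₁, L₂, a, c, rfl, rfl, rfl, rfl, rfl⟩ := link_split e
    obtain ⟨n1, n2, n3⟩ := link_nodup (dbl_nodup h0 hs)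
    obtain ⟨h', hs', e1, e2⟩ := st_right h0 hf hs
    refine ⟨_, h', hs', ?_⟩
    rw [List.map_append, List.map_cons, List.map_cons, e1, e2 a n1,
      List.map_congr_left fun e he => e2 e (n2 e he).2,
      List.map_congr_left fun e he => e2 e (n3 e he).2]

/-- Induction on `Hur`: every equivalent list is `L.map h` for a state `(L, h)`
(`List.map_eq_append_iff`, `List.map_eq_cons_iff`, `st_left`, `st_right`, `dbl_nodup`). -/
theorem finL_of_fin (h0 : L0.Nodup) (hf : ∀ x, IsLoop Finset.univ L0 g x → IsOfFinOrder x) :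
    FinL (L0.map g) := by
  intro A B hl
  obtain ⟨L, h, hs, e⟩ := link_st h0 hf hl
  obtain ⟨l, R, rfl, rfl, rfl⟩ := List.map_eq_append_iff.1 e.symm
  exact hf _ ⟨l, R, h, hs, fun a _ => Finset.mem_univ a, rfl⟩

end Pool.Agent.GR.GC
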