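import Pool.Agent.Lib.MP_aa40d3_nt.GC.FibB

/-! The fibres of a stable algebra. -/

open Polynomial Matrix Set Filter Topology
open scoped Matrix.Norms.Operator

namespace Pool.Agent.GR.GC

variable {n N : ℕ} {t : Fin n → ℂ} {A : Fin n → Mat N}
  {W : Subalgebra ℂ[X] (Matrix (Fin N) (Fin N) ℂ[X])}

/-- The unit `u` carries the fibre at `a` to the fibre at `c`. -/
def fibcCar (W : Subalgebra ℂ[X] (Matrix (Fin N) (Fin N) ℂ[X])) (u : (Mat N)ˣ) (a c : ℂ) : Prop :=
  ∀ z, z ∈ fib W a ↔ u.val * z * (u⁻¹).val ∈ fib W c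

theorem fibc_one (a : ℂ) : fibcCar W 1 a a := fun z => by
  rw [inv_one, Units.val_one, one_mul, mul_one]

theorem fibc_mul {u v : (Mat N)ˣ} {a b c : ℂ} (hv : fibcCar W v b c) (hu : fibcCar W u a b) :
    fibcCar W (v * u) a c := fun z => by
  rw [hu z, hv, _root_.mul_inv_rev, Units.val_mul, Units.val_mul]
  simp only [mul_assoc]

theorem fibc_inv {u : (Mat N)ˣ} {a c : ℂ} (hu : fibcCar W u a c) : fibcCar W u⁻¹ c a :=
  fun z => by
  rw [hu, inv_inv, ← mul_assoc, ← mul_assoc, Units.mul_inv, one_mul, mul_assoc, Units.mul_inv,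
    mul_one]

theorem fibc_TU [NeZero N]
    (hW : ∀ Φ ∈ W, dl t • Φ.map derivative - (pm t A * Φ - Φ * pm t A) ∈ W) {a c : ℂ}
    (h : ∀ i, t i ∉ segment ℝ a c) : fibcCar W (TU t A a c) a c := by
  intro z
  constructor
  · intro hz
    obtain ⟨z', hz', e⟩ := fib_T hW (a := c) (c := a)
      (fun i hi => h i (segment_symm ℝ c a ▸ hi)) z hz
    have h1 : T t A c a * T t A a c = 1 := by
      rw [T_tri A (convex_segment a c) h (left_mem_segment ℝ a c) (right_mem_segment ℝ a c)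
        (left_mem_segment ℝ a c), T_self]
    have h2 : ((TU t A a c)⁻¹).val = T t A c a := Units.inv_eq_of_mul_eq_one_left h1
    rw [mul_assoc, h2, e, ← h2, ← mul_assoc, Units.mul_inv, one_mul]
    exact hz'
  · intro hz
    obtain ⟨z', hz', e⟩ := fib_T hW h _ hz
    rw [← val_TU, mul_assoc, Units.inv_mul, mul_one, Units.mul_right_inj] at e
    rw [e]
    exact hz'

theorem fibc_seg_im {a c w : ℂ} {y : ℝ} (ha : a.im = y) (hc : c.im = y) (hw : w.im ≠ y) :
    w ∉ segment ℝ a c := by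
  rintro ⟨p, q, -, -, hpq, rfl⟩
  apply hw
  rw [Complex.add_im, Complex.smul_im, Complex.smul_im, ha, hc, smul_eq_mul, smul_eq_mul,
    ← add_mul, hpq, one_mul]

theorem fibc_seg_re {a c w : ℂ} {y : ℝ} (ha : a.re = y) (hc : c.re = y) (hw : w.re ≠ y) :
    w ∉ segment ℝ a c := by
  rintro ⟨p, q, -, -, hpq, rfl⟩
  apply hw
  rw [Complex.add_re, Complex.smul_re, Complex.smul_re, ha, hc, smul_eq_mul, smul_eq_mul,
    ← add_mul, hpq, one_mul]

theorem fibc_Vp [NeZero N]
    (hW : ∀ Φ ∈ W, dl t • Φ.map derivative - (pm t A * Φ - Φ * pm t A) ∈ W)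
    {H σ : ℝ} (hb : InBox (pp t) H) (hσ : ∀ i, (t i).re ≠ σ) :
    fibcCar W (Vp (TT t A) H σ) (cpt (-H, -H)) (cpt (-H, H)) := by
  have h1 : fibcCar W (TU t A (cpt (-H, -H)) (cpt (σ, -H))) _ _ :=
    fibc_TU hW fun i => fibc_seg_im (y := -H) rfl rfl (abs_lt.1 (hb i).2).1.ne'
  have h2 : fibcCar W (TU t A (cpt (σ, -H)) (cpt (σ, H))) _ _ :=
    fibc_TU hW fun i => fibc_seg_re (y := σ) rfl rfl (hσ i)
  have h3 : fibcCar W (TU t A (cpt (σ, H)) (cpt (-H, H))) _ _ :=
    fibc_TU hW fun i => fibc_seg_im (y := H) rfl rfl (abs_lt.1 (hb i).2).2.ne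
  exact fibc_mul (fibc_mul h3 h2) h1

theorem fibc_vt [NeZero N]
    (hW : ∀ Φ ∈ W, dl t • Φ.map derivative - (pm t A * Φ - Φ * pm t A) ∈ W)
    {H : ℝ} (hb : InBox (pp t) H) (i : Fin n) :
    fibcCar W (vt (TT t A) (pp t) H i) (cpt (-H, -H)) (cpt (-H, -H)) := by
  unfold vt
  split_ifs with h
  · obtain ⟨h1, h2, h3⟩ := h.choose_spec
    refine fibc_mul (fibc_inv (fibc_Vp hW hb fun j e => ?_)) (fibc_Vp hW hb fun j e => ?_)
    · by_cases hj : j = i
      · subst hj
        exact h1.ne' e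
      · exact h3 j hj ⟨e.ge, e.le.trans (h1.trans h2).le⟩
    · by_cases hj : j = i
      · subst hj
        exact h2.ne e
      · exact h3 j hj ⟨(h1.trans h2).le.trans e.ge, e.le⟩
  · exact fibc_one _

/-- Say that a unit `u` carries `a` to `c` if `z ∈ fib W a ↔ u * z * u⁻¹ ∈ fib W c` for all `z`.
This is closed under products and inverses and holds for `TU t A a c` along a segment without
singular points (`fib_T` in both directions, `T_tri`, `T_self`). Use `exists_validAt`, `vt_eq` and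
the three segments in `Vp`; then closure induction. -/
theorem fib_vt [NeZero N]
    (hW : ∀ Φ ∈ W, dl t • Φ.map derivative - (pm t A * Φ - Φ * pm t A) ∈ W)
    (hre : Function.Injective fun i => (t i).re) {H : ℝ} (hb : InBox (pp t) H) :
    ∀ γ ∈ Subgroup.closure (Set.range (vt (TT t A) (pp t) H)), ∀ z ∈ fib W (cpt (-H, -H)),
      γ.val * z * (γ⁻¹).val ∈ fib W (cpt (-H, -H)) := by
  intro γ hγ
  have key : fibcCar W γ (cpt (-H, -H)) (cpt (-H, -H)) := by
    induction hγ using Subgroup.closure_induction with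
    | mem x hx =>
      obtain ⟨i, rfl⟩ := hx
      exact fibc_vt hW hb i
    | one => exact fibc_one _
    | mul x y _ _ hx hy => exact fibc_mul hx hy
    | inv x _ hx => exact fibc_inv hx
  exact fun z hz => (key z).1 hz

end Pool.Agent.GR.GC
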