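import Pool.Agent.Lib.MP_aa40d3_nt.GC.IrrB

/-! Irreducibility and invariant algebras. -/

open Matrix

namespace Pool.Agent.GR.GC

variable {G : Type} [Group G] {d m r : ℕ} {σ : G →* Mt m} {S : Finset (Fin d)}

/-- The elements that commute with a subalgebra. -/
def irr_N (σ : G →* Mt m) (B : Subalgebra ℂ (Mt m)) : Subgroup G := ⨅ y ∈ B, stabR σ y

theorem irr_mem {B : Subalgebra ℂ (Mt m)} {x : G} :
    x ∈ irr_N σ B ↔ ∀ y ∈ B, σ x * y = y * σ x := by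
  simp only [irr_N, Subgroup.mem_iInf, mem_stabR]

theorem irr_conj {B : Subalgebra ℂ (Mt m)} (hB : InvR σ B) {w : G} (hw : w ∈ irr_N σ B) (x : G)
    {y : Mt m} (hy : y ∈ B) :
    σ (w * x * w⁻¹) * y * σ (w * x * w⁻¹)⁻¹ = σ x * y * σ x⁻¹ := by
  have h1 := irr_mem.1 hw _ (hB x y hy)
  have h2 := irr_mem.1 ((irr_N σ B).inv_mem hw) y hy
  have h3 : σ w⁻¹ * σ (w * x * w⁻¹)⁻¹ = σ x⁻¹ * σ w⁻¹ := by
    rw [← map_mul, ← map_mul]
    congr 1
    group
  calc σ (w * x * w⁻¹) * y * σ (w * x * w⁻¹)⁻¹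
      = σ w * σ x * (σ w⁻¹ * y) * σ (w * x * w⁻¹)⁻¹ := by
        rw [map_mul, map_mul, Matrix.mul_assoc (σ w * σ x)]
    _ = σ w * (σ x * y * σ x⁻¹) * σ w⁻¹ := by
        rw [h2]
        simp only [Matrix.mul_assoc, h3]
    _ = σ x * y * σ x⁻¹ := by rw [h1, Matrix.mul_assoc, rep_mul_inv, Matrix.mul_one]

theorem irr_normal {B : Subalgebra ℂ (Mt m)} (hB : InvR σ B) : (irr_N σ B).Normal := by
  refine ⟨fun x hx γ => irr_mem.2 fun y hy => ?_⟩
  have h1 := irr_mem.1 hx _ (hB γ⁻¹ y hy)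
  rw [inv_inv] at h1
  calc σ (γ * x * γ⁻¹) * y = σ γ * (σ x * (σ γ⁻¹ * y * σ γ)) * σ γ⁻¹ := by
        simp only [map_mul, Matrix.mul_assoc, rep_mul_inv, Matrix.mul_one]
    _ = y * σ (γ * x * γ⁻¹) := by
        rw [h1]
        simp only [map_mul, ← Matrix.mul_assoc, rep_mul_inv, Matrix.one_mul]

theorem irr_ext (b : BR σ d) {y y' : Mt m}
    (h : ∀ a c, b.e a * y * b.e c = b.e a * y' * b.e c) : y = y' := by
  have h1 : ∀ u : Mt m, u = ∑ c, ∑ a, b.e a * u * b.e c := fun u => by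
    simp only [← Finset.sum_mul, ← Finset.mul_sum, b.sum, Matrix.one_mul, Matrix.mul_one]
  rw [h1 y, h1 y']
  simp only [h]

/-- `N = {x | σ x commutes with B}` is a normal subgroup. `BS.swap_mem` puts all exchanges into `N`
(their sheets lie in `S` by `hs`). For `x` of the second type and `y ∈ B` put
`c = σ x * y * σ x⁻¹ - y`. For `w ∈ N` and `x' = w * x * w⁻¹` also `c = σ x' * y * σ x'⁻¹ - y`; with
`w` from `BS.move_punc` we get `e i * c * e j = 0` for `i, j ∈ S`, and the `e i` have sum one. -/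
theorem BR.nc (b : BR σ d) {X : Set G} (hX : Subgroup.closure X = ⊤) (hr : 1 ≤ r)
    (hok : ∀ x ∈ X, b.bs.Ok r x) (hS : r + 2 ≤ S.card) (he : ∀ j, j ∉ S → b.e j = 0)
    (hs : b.bs.Sup ⊤ S) (hc : b.bs.Conn S) {B : Subalgebra ℂ (Mt m)} (hB : InvR σ B) {g : G}
    {i j : Fin d} (hg : b.bs.Swap g i j) (h : ∀ y ∈ B, σ g * y = y * σ g) (x : G) :
    ∀ y ∈ B, σ x * y = y * σ x := by
  have := irr_normal hB
  have hin : ∀ {z : G} {a c : Fin d}, b.bs.Swap z a c → a ∈ S := fun {z a c} hz => by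
    by_contra ha
    exact hz.not_mem (hs z (Subgroup.mem_top z) a ha)
  have hsw : ∀ {z : G} {a c : Fin d}, b.bs.Swap z a c → z ∈ irr_N σ B := fun hz =>
    BS.swap_mem (irr_N σ B) (by omega) hc (hin hg) (hin hg.symm) hg (irr_mem.2 h) (hin hz)
      (hin hz.symm) hz
  refine irr_mem.1 ((Subgroup.closure_le (irr_N σ B)).2 (fun z hz => ?_)
    (hX ▸ Subgroup.mem_top x))
  rcases hok z hz with ⟨a, c, hz'⟩ | hz'
  · exact hsw hz'
  refine irr_mem.2 fun y hy => ?_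
  have h1 : σ z * y * σ z⁻¹ = y := by
    refine irr_ext b fun a c => ?_
    by_cases ha : a ∈ S
    swap
    · simp only [he a ha, Matrix.zero_mul]
    by_cases hc' : c ∈ S
    swap
    · rw [he c hc', Matrix.mul_zero, Matrix.mul_zero]
    obtain ⟨w, hw, h2, h3⟩ := BS.move_punc (irr_N σ B) hS
      (fun a ha c hc' hac => (hc a ha c hc' hac).imp fun _ h4 => ⟨hsw h4, h4⟩) hz' ha hc'
    have h4 : b.e a * σ (w * z * w⁻¹) = b.e a := by
      have h5 := b.act (w * z * w⁻¹) a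
      rw [h2.1, h2.2] at h5
      exact h5.symm
    have h6 : σ (w * z * w⁻¹)⁻¹ * b.e c = b.e c := ((b.K c).inv_mem h3).2
    rw [← irr_conj hB hw z hy, ← Matrix.mul_assoc, ← Matrix.mul_assoc, h4, Matrix.mul_assoc, h6]
  conv_rhs => rw [← h1, Matrix.mul_assoc, rep_inv_mul, Matrix.mul_one]

end Pool.Agent.GR.GC
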