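import Pool.Agent.Lib.MP_aa40d3_nt.GC.LocB

/-! The sheets of a commutative invariant algebra. -/

open Matrix

namespace Pool.Agent.GR.GC

variable {G : Type} [Group G] {d m r : ℕ} {σ : G →* Mt m}

/-- No proper subspace is invariant under the group and the idempotents. -/
def BR.IrrE (b : BR σ d) : Prop :=
  ∀ U : Submodule ℂ (Fin m → ℂ), (∀ γ, ∀ v ∈ U, σ γ *ᵥ v ∈ U) → (∀ i, ∀ v ∈ U, b.e i *ᵥ v ∈ U) →
    U = ⊥ ∨ U = ⊤

/-- The vectors killed by all `e j` with `j` outside the orbit of `i` form an invariant space. -/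
theorem BR.trans (b : BR σ d) (hI : b.IrrE) (h0 : ∀ i, b.e i ≠ 0) :
    b.bs.Trans ⊤ Finset.univ := by
  intro i _ j _
  by_contra hn
  let U : Submodule ℂ (Fin m → ℂ) :=
    { carrier := {v | ∀ l, (¬ ∃ x, b.π x i = l) → b.e l *ᵥ v = 0}
      add_mem' := fun {v w} hv hw l hl => by rw [mulVec_add, hv l hl, hw l hl, add_zero]
      zero_mem' := fun l _ => mulVec_zero _
      smul_mem' := fun c v hv l hl => by rw [mulVec_smul, hv l hl, smul_zero] }
  have hU : ∀ γ, ∀ v ∈ U, σ γ *ᵥ v ∈ U := fun γ v hv l hl => by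
    have h := b.act γ (b.π γ⁻¹ l)
    have h1 : b.π γ (b.π γ⁻¹ l) = l := by
      rw [← Equiv.Perm.mul_apply, ← map_mul, mul_inv_cancel, map_one, Equiv.Perm.one_apply]
    rw [h1] at h
    rw [mulVec_mulVec, ← h, ← mulVec_mulVec, hv, mulVec_zero]
    rintro ⟨x, hx⟩
    exact hl ⟨γ * x, by rw [map_mul, Equiv.Perm.mul_apply, hx, h1]⟩
  rcases hI U hU (fun u v hv l hl => by
    by_cases h : l = u
    · rw [mulVec_mulVec, ← h, b.idem, hv l hl]
    · rw [mulVec_mulVec, b.orth l u h, zero_mulVec]) with h | h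
  · refine h0 i (ext_iff_mulVec.2 fun v => ?_)
    have h1 : b.e i *ᵥ v ∈ U := fun l hl => by
      rw [mulVec_mulVec, b.orth l i, zero_mulVec]
      rintro rfl
      exact hl ⟨1, by rw [map_one, Equiv.Perm.one_apply]⟩
    rw [h, Submodule.mem_bot] at h1
    rw [h1, zero_mulVec]
  · refine h0 j (ext_iff_mulVec.2 fun v => ?_)
    have h1 : v ∈ U := h ▸ Submodule.mem_top
    rw [zero_mulVec]
    exact h1 j fun ⟨x, hx⟩ => hn ⟨x, Subgroup.mem_top x, hx⟩

/-- The `v` with `e i *ᵥ σ γ *ᵥ v ∈ U` for all `γ` form an invariant space that contains `U`. -/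
theorem BR.irr1 (b : BR σ d) (hI : b.IrrE) (i : Fin d) : b.Irr1 ⊤ i := by
  intro U h1 h2
  let V : Submodule ℂ (Fin m → ℂ) :=
    { carrier := {v | ∀ γ, b.e i *ᵥ σ γ *ᵥ v ∈ U}
      add_mem' := fun {v w} hv hw γ => by
        rw [mulVec_add, mulVec_add]
        exact U.add_mem (hv γ) (hw γ)
      zero_mem' := fun γ => by
        rw [mulVec_zero, mulVec_zero]
        exact U.zero_mem
      smul_mem' := fun c v hv γ => by
        rw [mulVec_smul, mulVec_smul]
        exact U.smul_mem c (hv γ) }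
  have hV : ∀ γ, ∀ v ∈ V, σ γ *ᵥ v ∈ V := fun γ v hv δ => by
    have h := hv (δ * γ)
    rwa [map_mul, ← mulVec_mulVec] at h
  have hle : U ≤ V := fun v hv γ => by
    by_cases h : b.π γ i = i
    · have h3 := h2 γ (Subgroup.mem_top γ) h v hv
      rwa [h1 _ h3]
    · rw [← h1 v hv, mulVec_mulVec, mulVec_mulVec, Matrix.mul_assoc, b.act, ← Matrix.mul_assoc,
        b.orth _ _ (Ne.symm h), Matrix.zero_mul, zero_mulVec]
      exact U.zero_mem
  rcases hI V hV (fun u v hv γ => by
    rw [mulVec_mulVec v, b.act, ← mulVec_mulVec, mulVec_mulVec _ (b.e i)]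
    by_cases h : i = b.π γ u
    · rw [← h, b.idem]
      exact hv γ
    · rw [b.orth _ _ h, zero_mulVec]
      exact U.zero_mem) with h | h
  · exact Or.inl (le_bot_iff.1 (h ▸ hle))
  · refine Or.inr fun v => ?_
    have h3 : v ∈ V := h ▸ Submodule.mem_top
    have h4 := h3 1
    rwa [map_one, one_mulVec] at h4

theorem loc_trace {A : Mt m} (h : A * A = A) : A.trace = (A.rank : ℂ) := by
  have h1 : IsIdempotentElem (toLin' A) := by
    rw [IsIdempotentElem, Module.End.mul_eq_comp, ← toLin'_mul, h]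
  rw [← trace_toLin'_eq, (LinearMap.IsIdempotentElem.isProj_range _ h1).trace]
  rfl

/-- All `e i` are conjugate; the rank of an idempotent is its trace, and the traces have sum `m`
(or: the ranges form a direct sum decomposition). -/
theorem BR.rank_eq (b : BR σ d) (ht : b.bs.Trans ⊤ Finset.univ) (hm : m = r * d) (i : Fin d) :
    (b.e i).rank = r := by
  have h1 : ∀ j, (b.e j).trace = (b.e i).trace := fun j => by
    obtain ⟨x, -, hx⟩ := ht i (Finset.mem_univ _) j (Finset.mem_univ _)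
    have hx' : b.π x i = j := hx
    have h : b.e j = σ x * b.e i * σ x⁻¹ := by
      rw [b.act, hx', Matrix.mul_assoc, rep_mul_inv, Matrix.mul_one]
    rw [h, trace_mul_comm, ← Matrix.mul_assoc, rep_inv_mul, Matrix.one_mul]
  have h2 := congrArg trace b.sum
  rw [trace_sum, Finset.sum_congr rfl fun j _ => h1 j, loc_trace (b.idem i), trace_one,
    Finset.sum_const, Finset.card_univ, Fintype.card_fin, Fintype.card_fin, nsmul_eq_mul] at h2
  have h3 : d * (b.e i).rank = m := by exact_mod_cast h2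
  exact Nat.eq_of_mul_eq_mul_left i.pos (by rw [h3, hm, mul_comm])

end Pool.Agent.GR.GC
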