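import Pool.Agent.Lib.MP_aa40d3_nt.GC.RedB

/-! Removing sheets. -/

namespace Pool.Agent.GR.GC

variable {G : Type} [Group G] {d r : ℕ} {b : BS G d} {i j : Fin d} {S : Finset (Fin d)}

theorem red_gather (b : BS G d) (j : Fin d) (l : List G) :
    ∃ A B, Hur l (A ++ B) ∧ (∀ a ∈ A, a ∈ b.K j) ∧ (∀ c ∈ B, c ∉ b.K j) ∧
      ∀ x ∈ l, x ∈ b.K j → x ∈ A := by
  refine gather_left (P := fun x => x ∈ b.K j) (Q := fun x => x ∉ b.K j) ?_ l fun x _ => em _
  intro a c ha hc h
  apply hc
  have e : c = a * (a⁻¹ * c * a) * a⁻¹ := by group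
  rw [e]
  exact (b.K j).mul_mem ((b.K j).mul_mem ha h) ((b.K j).inv_mem ha)

theorem red_aux (hr : 1 ≤ r) (hS : r + 2 ≤ S.card) (hj : j ∈ S) {l : List G}
    (hok : ∀ x ∈ l, b.Ok r x) (ht : b.Trans (gen l) S) (hp : l.prod ∈ b.K j) (n : ℕ) :
    ∀ A B : List G, B.length < n → Hur l (A ++ B) → (∀ a ∈ A, a ∈ b.K j) → (∀ c ∈ B, c ∉ b.K j) →
      ∃ A x i, Hur l (A ++ [x, x]) ∧ b.Swap x j i ∧ ∀ a ∈ A, a ∈ b.K j := by
  induction n with
  | zero => intro A B h; exact absurd h (Nat.not_lt_zero _)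
  | succ n ih =>
    intro A B hn h hA hB
    have hok' : ∀ x ∈ A ++ B, b.Ok r x := h.all (fun γ x hx => hx.conj γ) hok
    have ht' : b.Trans (gen (A ++ B)) S := by rw [h.gen]; exact ht
    have hp' : (A ++ B).prod ∈ b.K j := by rw [h.prod]; exact hp
    rcases red_step hr hS hj hok' ht' hp' hA hB with ⟨A', x, i, h1, h2, h3⟩ |
      ⟨A', B', h1, h2, h3, x, hx, hxj⟩
    · exact ⟨A', x, i, h.trans h1, h2, h3⟩
    · obtain ⟨C, D, h4, h5, h6, h7⟩ := red_gather b j B'
      have hC : 0 < C.length := List.length_pos_of_mem (h7 x hx hxj)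
      have hl := h4.length
      rw [List.length_append] at hl
      refine ih (A' ++ C) D (by omega) ?_ ?_ h6
      · rw [List.append_assoc]
        exact (h.trans h1).trans (h4.app_left A')
      · intro a ha
        rcases List.mem_append.1 ha with ha | ha
        · exact h2 a ha
        · exact h5 a ha

/-- `gather_left` with `P = (· ∈ K j)`, then strong induction on the length of `B`. -/
theorem red_one (hr : 1 ≤ r) (hS : r + 2 ≤ S.card) (hj : j ∈ S) {l : List G}
    (hok : ∀ x ∈ l, b.Ok r x) (ht : b.Trans (gen l) S) (hp : l.prod ∈ b.K j) :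
    ∃ A x i, Hur l (A ++ [x, x]) ∧ b.Swap x j i ∧ ∀ a ∈ A, a ∈ b.K j := by
  obtain ⟨A, B, h1, h2, h3, -⟩ := red_gather b j l
  exact red_aux hr hS hj hok ht hp (B.length + 1) A B (Nat.lt_succ_self _) h1 h2 h3

/-- Induction on `c`: take `j ∈ S` outside `S₀`, `red_one`, `BS.wreath`, and go on with `A` and
`S.erase j`; the product of `A` is the product of `l`. -/
theorem reduce (hr : 1 ≤ r) {S₀ : Finset (Fin d)} (h0 : S₀.card ≤ r + 1) (c : ℕ) :
    ∀ (S : Finset (Fin d)) (l : List G), S.card = r + 2 + c → (∀ x ∈ l, b.Ok r x) →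
      b.Sup (gen l) S → b.Trans (gen l) S → (∀ j, j ∉ S₀ → l.prod ∈ b.K j) →
      ∃ S' ⊆ S, S'.card = r + 2 ∧ ∃ A B, Hur l (A ++ B) ∧ b.Sup (gen A) S' ∧
        b.Agree (gen l) (gen A) S' ∧ b.cnt l ≤ b.cnt A + 2 * c := by
  induction c with
  | zero =>
    intro S l hS _ hs _ _
    refine ⟨S, Finset.Subset.refl S, hS, l, [], ?_, hs, ?_, by omega⟩
    · rw [List.append_nil]; exact Hur.refl l
    · intro y hy i _ _
      exact ⟨y, hy, by rw [inv_mul_cancel]; exact (b.K i).one_mem⟩
  | succ c ih =>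
    intro S l hS hok hs ht hp
    obtain ⟨j, hj, hj0⟩ : ∃ j ∈ S, j ∉ S₀ := Finset.exists_mem_notMem_of_card_lt_card (by omega)
    obtain ⟨A, x, i, h1, h2, h3⟩ := red_one hr (by omega) hj hok ht (hp j hj0)
    have hg := h1.gen
    have hw : b.Agree (gen l) (gen A) (Finset.univ.erase j) := by
      rw [← hg]; exact BS.wreath h3 h2
    have hsub : S.erase j ⊆ Finset.univ.erase j :=
      Finset.erase_subset_erase j (Finset.subset_univ S)
    have hokA : ∀ a ∈ A, b.Ok r a := fun a ha =>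
      h1.all (fun γ x hx => hx.conj γ) hok a (List.mem_append_left _ ha)
    have hle : gen A ≤ gen l := by
      rw [← hg]; exact gen_le.2 fun a ha => mem_gen (List.mem_append_left _ ha)
    have hsA : b.Sup (gen A) (S.erase j) := by
      intro y hy k hk
      by_cases e : k = j
      · rw [e]; exact gen_le.2 h3 hy
      · exact hs y (hle hy) k fun h => hk (Finset.mem_erase.2 ⟨e, h⟩)
    have htA : b.Trans (gen A) (S.erase j) :=
      (hw.mono hsub).trans_of ht (Finset.erase_subset j S)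
    have hpA : A.prod = l.prod := by
      rw [← h1.prod, List.prod_append, List.prod_cons, List.prod_singleton, h2.2.2.1, mul_one]
    have hc : (S.erase j).card = r + 2 + c := by
      rw [Finset.card_erase_of_mem hj]; omega
    obtain ⟨S', hS', hcard, C, D, h4, h5, h6, h7⟩ :=
      ih (S.erase j) A hc hokA hsA htA (by rw [hpA]; exact hp)
    refine ⟨S', hS'.trans (Finset.erase_subset j S), hcard, C, D ++ [x, x], ?_, h5,
      hw.trans h6 (hS'.trans hsub), ?_⟩
    · rw [← List.append_assoc]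
      exact h1.trans (h4.app_right [x, x])
    · have h8 : b.cnt (A ++ [x, x]) ≤ b.cnt A + 2 := by
        unfold BS.cnt
        rw [List.countP_append]
        exact Nat.add_le_add_left List.countP_le_length _
      rw [h1.cnt b] at h8
      omega

end Pool.Agent.GR.GC
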