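import Pool.Agent.Lib.MP_aa40d3_nt.GC.ResA

/-! Restriction to some of the sheets. -/

open Matrix

namespace Pool.Agent.GR.GC

variable {G : Type} [Group G] {d m : ℕ} {σ : G →* Mt m} {S : Finset (Fin d)}

/-- `E = ∑ i ∈ S, e i = P * Q` commutes with `σ y` for `y ∈ H`, and `σ y * (1 - E) = 1 - E`. Put
`σ' y = Q * σ y * P` and `e' i = Q * e i * P`; note `E * P = P`, `Q * E = Q`, and
`P * e' i * Q = e i` for `i ∈ S`. For `Irr1` map `U` by `P`. -/
theorem BR.restrict (b : BR σ d) (H : Subgroup G) (hs : b.bs.Sup H S) :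
    ∃ (m' : ℕ) (σ' : H →* Mt m') (b' : BR σ' d), m' ≤ ∑ i ∈ S, (b.e i).rank ∧
      (∀ y, b'.π y = b.π y.val) ∧ (∀ y i, y ∈ b'.K i ↔ y.val ∈ b.K i) ∧
      (∀ i, i ∉ S → b'.e i = 0) ∧ (∀ i ∈ S, b.e i ≠ 0 → m' ≠ 0) ∧
      ∀ i ∈ S, b.Irr1 H i → b'.Irr1 ⊤ i := by
  set E : Mt m := ∑ i ∈ S, b.e i with hE
  have eE : ∀ i, b.e i * E = if i ∈ S then b.e i else 0 := fun i => by
    rw [hE, Finset.mul_sum]
    split_ifs with h
    · rw [Finset.sum_eq_single i (fun j _ hj => b.orth i j hj.symm) fun h' => absurd h h', b.idem]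
    · exact Finset.sum_eq_zero fun j hj => b.orth i j fun e => h (e ▸ hj)
  have Ee : ∀ i, E * b.e i = if i ∈ S then b.e i else 0 := fun i => by
    rw [hE, Finset.sum_mul]
    split_ifs with h
    · rw [Finset.sum_eq_single i (fun j _ hj => b.orth j i hj) fun h' => absurd h h', b.idem]
    · exact Finset.sum_eq_zero fun j hj => b.orth j i fun e => h (e ▸ hj)
  have ce : ∀ i, E * b.e i = b.e i * E := fun i => by rw [eE, Ee]
  have EE : E * E = E := by
    conv_lhs => rw [hE, Finset.sum_mul]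
    exact Finset.sum_congr rfl fun i hi => by rw [eE, if_pos hi]
  have hc : 1 - E = ∑ i ∈ Sᶜ, b.e i := by
    rw [← b.sum, ← Finset.sum_add_sum_compl S, add_sub_cancel_left]
  have h1 : ∀ y : H, σ y * (1 - E) = 1 - E := fun y => by
    rw [hc, Finset.mul_sum]
    exact Finset.sum_congr rfl fun l hl => (hs y y.2 l (Finset.mem_compl.1 hl)).2
  have h2 : ∀ y : H, (1 - E) * σ y = 1 - E := fun y => by
    rw [hc, Finset.sum_mul]
    refine Finset.sum_congr rfl fun l hl => ?_
    have h := hs y y.2 l (Finset.mem_compl.1 hl)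
    have h' := b.act y l
    rw [h.1, h.2] at h'
    exact h'.symm
  have cs : ∀ y : H, E * σ y = σ y * E := fun y => by
    have h := (h1 y).trans (h2 y).symm
    rw [mul_sub, sub_mul, mul_one, one_mul] at h
    exact (sub_right_injective h).symm
  obtain ⟨m', P, Q, hQP, hPQ, hm⟩ : ∃ (m' : ℕ) (P : Matrix (Fin m) (Fin m') ℂ)
      (Q : Matrix (Fin m') (Fin m) ℂ), Q * P = 1 ∧ P * Q = E ∧ m' ≤ ∑ i ∈ S, (b.e i).rank := by
    obtain ⟨P, Q, h, h'⟩ := idem_fac EE
    exact ⟨_, P, Q, h, h', rank_sum_le _ _⟩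
  have hne : ∀ i ∈ S, b.e i ≠ 0 → m' ≠ 0 := by
    rintro i hi h rfl
    apply h
    have h0 : P * Q = 0 := by
      ext a c
      simp [Matrix.mul_apply]
    rw [← if_pos (c := i ∈ S) (t := b.e i) (e := 0) hi, ← eE, ← hPQ, h0, mul_zero]
  have EP : E * P = P := by rw [← hPQ, Matrix.mul_assoc, hQP, Matrix.mul_one]
  have key : ∀ x y : Mt m, E * y = y * E → Q * x * P * (Q * y * P) = Q * (x * y) * P := by
    intro x y h
    calc Q * x * P * (Q * y * P) = Q * x * (P * Q * y * P) := by simp only [Matrix.mul_assoc]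
      _ = Q * (x * y) * P := by rw [hPQ, h]; simp only [Matrix.mul_assoc, EP]
  have back : ∀ x : Mt m, P * (Q * x * P) * Q = E * x * E := fun x => by
    simp only [← hPQ, Matrix.mul_assoc]
  have back' : ∀ x : Mt m, E * x = x * E → P * (Q * x * P) = x * P := fun x h => by
    rw [← Matrix.mul_assoc, ← Matrix.mul_assoc, hPQ, h, Matrix.mul_assoc, EP]
  let σ' : H →* Mt m' :=
    { toFun := fun y => Q * σ y * P
      map_one' := by rw [OneMemClass.coe_one, map_one, Matrix.mul_one, hQP]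
      map_mul' := fun x y => by rw [Subgroup.coe_mul, map_mul, key _ _ (cs y)] }
  let b' : BR σ' d :=
    { e := fun i => Q * b.e i * P
      π := b.π.comp H.subtype
      orth := fun i j h => by rw [key _ _ (ce j), b.orth i j h, Matrix.mul_zero, Matrix.zero_mul]
      sum := by rw [← Matrix.sum_mul, ← Matrix.mul_sum, b.sum, Matrix.mul_one, hQP]
      act := fun x i => by
        change Q * σ x * P * (Q * b.e i * P) = Q * b.e (b.π x i) * P * (Q * σ x * P)
        rw [key _ _ (ce i), key _ _ (cs x), b.act]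
      inj := fun x y h => by
        have h' : Q * σ x * P = Q * σ y * P := h
        have h3 := back (σ x)
        rw [h', back, cs, cs, Matrix.mul_assoc, Matrix.mul_assoc, EE] at h3
        have h4 := (h1 x).trans (h1 y).symm
        rw [mul_sub, mul_sub, mul_one, mul_one, h3] at h4
        exact Subtype.ext (b.inj (sub_left_injective h4)) }
  have hz : ∀ i, i ∉ S → b'.e i = 0 := fun i hi => by
    change Q * b.e i * P = 0
    rw [← EP, Matrix.mul_assoc, ← Matrix.mul_assoc (b.e i), eE, if_neg hi, Matrix.zero_mul,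
      Matrix.mul_zero]
  refine ⟨m', σ', b', hm, fun _ => rfl, fun y i => ?_, hz, hne, fun i hi h U hU hU' => ?_⟩
  · change b.π y i = i ∧ Q * σ y * P * (Q * b.e i * P) = Q * b.e i * P ↔ _
    rw [key _ _ (ce i), BR.mem_K]
    refine and_congr_right fun _ => ⟨fun h => ?_, fun h => by rw [h]⟩
    by_cases hi : i ∈ S
    · have h3 := back (σ y * b.e i)
      rw [h, back, ← Matrix.mul_assoc, cs, Matrix.mul_assoc (σ y), Matrix.mul_assoc (σ y), Ee,
        if_pos hi, eE, if_pos hi] at h3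
      exact h3.symm
    · exact (hs y y.2 i hi).2
  · rcases h (U.map P.mulVecLin) (by
        rintro _ ⟨v, hv, rfl⟩
        rw [mulVecLin_apply, mulVec_mulVec, ← back' _ (ce i), ← mulVec_mulVec]
        exact congrArg (P *ᵥ ·) (hU v hv)) (by
        rintro y hy hyi _ ⟨v, hv, rfl⟩
        refine ⟨_, hU' ⟨y, hy⟩ trivial hyi v hv, ?_⟩
        rw [mulVecLin_apply, mulVecLin_apply, mulVec_mulVec, mulVec_mulVec]
        exact congrArg (· *ᵥ v) (back' _ (cs ⟨y, hy⟩))) with h | h
    · refine Or.inl ((Submodule.eq_bot_iff _).2 fun v hv => ?_)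
      have h3 : P *ᵥ v = 0 := (Submodule.eq_bot_iff _).1 h _ ⟨v, hv, rfl⟩
      rw [← one_mulVec v, ← hQP, ← mulVec_mulVec, h3, mulVec_zero]
    · refine Or.inr fun w => ?_
      obtain ⟨u, hu, e⟩ := h (P *ᵥ w)
      change (Q * b.e i * P) *ᵥ w ∈ U
      rw [← mulVec_mulVec, ← mulVec_mulVec, ← e, mulVecLin_apply, mulVec_mulVec, hQP, one_mulVec]
      exact hu

/-- `σ y` and `σ h` agree on the vectors of the sheet `i` if `h⁻¹ * y ∈ K i`. -/
theorem BR.Irr1.agree {b : BR σ d} {H H' : Subgroup G} {i : Fin d} (h : b.Irr1 H i) (hi : i ∈ S)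
    (ha : b.bs.Agree H H' S) : b.Irr1 H' i := by
  intro U hU hU'
  refine h U hU fun y hy hyi v hv => ?_
  have hyi' : b.bs.π y i = i := hyi
  obtain ⟨g, hg, h1, h2⟩ := ha y hy i hi (by rw [hyi']; exact hi)
  have h3 : b.π g i = i := by
    rw [map_mul, Equiv.Perm.mul_apply, hyi, map_inv, Equiv.Perm.inv_eq_iff_eq] at h1
    exact h1.symm
  have h4 : σ y *ᵥ v = σ g *ᵥ v := by
    conv_lhs => rw [← hU v hv, ← mul_inv_cancel_left g y, map_mul, mulVec_mulVec,
      Matrix.mul_assoc, h2, ← mulVec_mulVec, hU v hv]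
  rw [h4]
  exact hU' g hg h3 v hv

end Pool.Agent.GR.GC
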