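import Pool.Agent.Lib.MP_aa40d3_nt.GC.TypA

/-! The two types of elements. -/

open Matrix

namespace Pool.Agent.GR.GC

variable {G : Type} [Group G] {d m r : ℕ} {σ : G →* Mt m}

/-- For `l` with `x ∉ K l` choose a nonzero vector in the range of `(σ x - 1) * e l`; it lies in the
sheet `l`. These vectors are linearly independent members of the range of `σ x - 1`. -/
theorem BR.punc (b : BR σ d) {x : G} (hx : (σ x - 1).rank ≤ r) (h : b.π x = 1) :
    b.bs.Punc r x := by
  classical
  have hπ : ∀ l, b.π x l = l := fun l => by rw [h]; rfl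
  have hc : ∀ l, b.e l * (σ x - 1) = (σ x - 1) * b.e l := fun l => by
    rw [Matrix.mul_sub, Matrix.sub_mul, b.act, hπ, Matrix.mul_one, Matrix.one_mul]
  have hw : ∀ l : {l // x ∉ b.K l}, ∃ w, ((σ x - 1) * b.e l) *ᵥ w ≠ 0 := fun l => by
    by_contra h0
    refine l.2 ⟨hπ l, ?_⟩
    have h1 : (σ x - 1) * b.e l = 0 := Matrix.ext_iff_mulVec.2 fun w => by
      rw [Matrix.zero_mulVec]
      exact not_not.1 fun h2 => h0 ⟨w, h2⟩
    rwa [Matrix.sub_mul, Matrix.one_mul, sub_eq_zero] at h1
  choose w hw using hw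
  have hli : LinearIndependent ℂ fun l : {l // x ∉ b.K l} =>
      (⟨((σ x - 1) * b.e l) *ᵥ w l, b.e l *ᵥ w l,
        (Matrix.mulVecLin_apply _ _).trans (Matrix.mulVec_mulVec _ _ _)⟩ :
        LinearMap.range (σ x - 1).mulVecLin) := by
    refine LinearIndependent.of_comp (LinearMap.range (σ x - 1).mulVecLin).subtype
      (Fintype.linearIndependent_iff.2 fun g hg j => ?_)
    have h1 := congrArg (fun v => b.e j *ᵥ v) hg
    simp only [Function.comp, Submodule.subtype_apply, Matrix.mulVec_sum, Matrix.mulVec_smul,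
      Matrix.mulVec_mulVec, Matrix.mulVec_zero, ← Matrix.mul_assoc, hc] at h1
    rw [Finset.sum_eq_single j, Matrix.mul_assoc, b.idem] at h1
    · exact (smul_eq_zero.1 h1).resolve_right (hw j)
    · intro i _ hi
      rw [Matrix.mul_assoc, b.orth j i fun e => hi (Subtype.ext e.symm), Matrix.mul_zero,
        Matrix.zero_mulVec, smul_zero]
    · exact fun h2 => absurd (Finset.mem_univ j) h2
  refine ⟨h, Finset.univ.filter fun l => x ∉ b.K l, ?_, fun l hl => ?_⟩
  · rw [← Fintype.card_subtype]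
    exact hli.fintype_card_le_finrank.trans hx
  · exact not_not.1 fun h2 => hl (Finset.mem_filter.2 ⟨Finset.mem_univ l, h2⟩)

theorem BR.ok (b : BR σ d) (hr : 1 ≤ r) (hk : ∀ i, (b.e i).rank = r) {x : G}
    (hx : (σ x - 1).rank ≤ r) : b.bs.Ok r x := by
  by_cases h : b.π x = 1
  · exact Or.inr (b.punc hx h)
  · obtain ⟨i, hi⟩ := not_forall.1 fun e => h (Equiv.ext e)
    exact Or.inl ⟨i, _, b.swap hr hk hx (fun e => hi e.symm) rfl⟩

end Pool.Agent.GR.GC
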