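import Pool.Agent.Lib.MP_aa40d3_nt.GC.Abs
import Pool.Agent.Lib.MP_aa40d3_nt.GC.Red
import Pool.Agent.Lib.MP_aa40d3_nt.GC.Irr
import Pool.Agent.Lib.MP_aa40d3_nt.GC.Res
import Pool.Agent.Lib.MP_aa40d3_nt.GC.Loc
import Pool.Agent.Lib.MP_aa40d3_nt.GC.Typ
import Pool.Agent.Lib.MP_aa40d3_nt.MR.Link

/-! The monodromy group of a covering is finite. -/

open Matrix

namespace Pool.Agent.GR.GC

theorem Hur.map {G G' : Type} [Group G] [Group G'] (φ : G →* G') {l l' : List G} (h : Hur l l') :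
    Hur (l.map φ) (l'.map φ) := by
  induction h with
  | refl => exact Hur.refl _
  | left _ ih => simpa using Hur.left (by simpa using ih)
  | right _ ih => simpa using Hur.right (by simpa using ih)

theorem FinL.of_map {G G' : Type} [Group G] [Group G'] {φ : G →* G'} (hφ : Function.Injective φ)
    {l : List G} (h : FinL (l.map φ)) : FinL l := fun A B h' => by
  have := h (A.map φ) (B.map φ) (by simpa using h'.map φ)
  rwa [← map_list_prod, hφ.isOfFinOrder_iff] at this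

theorem finite_small (r : ℕ) (hr : 1 ≤ r) : ∃ k : ℕ, ∀ (d m : ℕ) (G : Type) [Group G]
    (σ : G →* Mt m) (b : BR σ d) (S : Finset (Fin d)) (l : List G), m ≠ 0 → m ≤ (r + 2) * r →
    S.card = r + 2 → gen l = ⊤ → (∀ x ∈ l, b.bs.Ok r x) → b.bs.Sup ⊤ S → b.bs.Trans ⊤ S →
    (∀ j, j ∉ S → b.e j = 0) → (∀ i ∈ S, b.Irr1 ⊤ i) → FinL l → k ≤ b.bs.cnt l → Finite G := by
  obtain ⟨k, hk⟩ := finite_list ((r + 2) * r)
  refine ⟨k, fun d m G _ σ b S l hm hD hS hg hok hs ht he hi hf hc => ?_⟩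
  have : NeZero m := ⟨hm⟩
  have hcn := BS.conn hg hok ht
  by_cases h : ∃ x, b.π x = 1 ∧ (∃ c ∈ S, x ∈ b.K c) ∧ x ≠ 1
  · have hI : IrrR σ := b.irr he hcn hi fun i h1 v h2 h3 => b.fixed hs hcn hi h h1 h2 h3
    refine hk m hm hD G l σ _ hg b.inj hI hf hc fun Z h1 ⟨z, hz, h2⟩ y hy hP => ?_
    by_contra h3
    push Not at h3
    rcases hok y hy with ⟨i, j, h4⟩ | h4
    · exact h2 (schur hI fun x => b.nc hg hr hok hS.ge he hs hcn h1 h4 h3 x z hz)
    · exact of_decide_eq_true hP h4.1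
  · push Not at h
    exact BS.fin_triv hg hr hok hS.ge hs hcn h

theorem finite_big (r : ℕ) (hr : 1 ≤ r) : ∃ k : ℕ, ∀ (d m : ℕ) (G : Type) [Group G]
    (σ : G →* Mt m) (b : BR σ d) (l : List G), r + 2 ≤ d → gen l = ⊤ → b.IrrE →
    (∀ i, (b.e i).rank = r) → (∀ x ∈ l, (σ x - 1).rank ≤ r) → (σ l.prod - 1).rank ≤ r → FinL l →
    2 * d + k ≤ b.bs.cnt l → Finite G := by
  obtain ⟨k, hk⟩ := finite_small r hr
  refine ⟨k, fun d m G _ σ b l hd hg hI hrk hl hp hf hc => ?_⟩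
  have h0 : ∀ i, b.e i ≠ 0 := fun i e => by
    have := hrk i
    rw [e, Matrix.rank_zero] at this
    omega
  have hok : ∀ x ∈ l, b.bs.Ok r x := fun x hx => b.ok hr hrk (hl x hx)
  have ht := b.trans hI h0
  obtain ⟨S₀, h1, h2⟩ := (b.ok hr hrk hp).supp hr
  obtain ⟨c, rfl⟩ := Nat.exists_eq_add_of_le hd
  obtain ⟨S, -, hS, A, B, h3, h4, h5, h6⟩ := reduce hr h1 c Finset.univ l (by simp) hok
    (fun x _ j hj => absurd (Finset.mem_univ j) hj) (hg ▸ ht) h2
  rw [hg] at h5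
  obtain ⟨i, hi⟩ : S.Nonempty := Finset.card_pos.1 (by omega)
  suffices Finite (gen A) from BS.finite_of_agree ht hi h5
  obtain ⟨m', σ', b', k1, k2, k3, k4, k5, k6⟩ := b.restrict (gen A) h4
  let l' : List (gen A) := A.pmap Subtype.mk fun _ => mem_gen
  have hl' : l'.map (gen A).subtype = A := by
    simp only [l', List.map_pmap, Subgroup.coe_subtype, List.pmap_eq_map, List.map_id']
  have hm : ∀ x : gen A, x ∈ l' ↔ x.val ∈ A := fun x =>
    (List.mem_map_of_injective (gen A).subtype_injective).symm.trans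
      (iff_of_eq (congrArg (fun L => x.val ∈ L) hl'))
  have hπ : ∀ y, b'.bs.π y = b.bs.π y.val := k2
  have hK : ∀ y i, y ∈ b'.bs.K i ↔ y.val ∈ b.bs.K i := k3
  refine hk _ m' (gen A) σ' b' S l' (k5 i hi (h0 i)) (k1.trans ?_) hS ?_ (fun x hx => ?_)
    (fun x _ j hj => (hK x j).2 (h4 x x.2 j hj)) (fun u hu v hv => ?_) k4
    (fun u hu => k6 u hu ((b.irr1 hI u).agree hu h5))
    (FinL.of_map (gen A).subtype_injective (hl'.symm ▸ (hf.hur h3).left)) ?_
  · simp only [hrk, Finset.sum_const, hS, smul_eq_mul, le_refl]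
  · apply Subgroup.map_injective (gen A).subtype_injective
    rw [← MonoidHom.range_eq_map, Subgroup.range_subtype]
    refine (MonoidHom.map_closure _ _).trans (congrArg Subgroup.closure ?_)
    ext x
    exact ⟨fun ⟨y, hy, e⟩ => e ▸ (hm y).1 hy, fun hx => ⟨⟨x, mem_gen hx⟩, (hm _).2 hx, rfl⟩⟩
  · rcases h3.all (P := b.bs.Ok r) (fun γ x h => BS.Ok.conj h γ) hok x (List.mem_append_left _ ((hm x).1 hx)) with
      ⟨u, v, e1, e2, e3, e4⟩ | ⟨e1, T, e2, e3⟩
    · exact Or.inl ⟨u, v, e1, (hπ x).trans e2, Subtype.ext e3, fun w a1 a2 =>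
        (hK x w).2 (e4 w a1 a2)⟩
    · exact Or.inr ⟨(hπ x).trans e1, T, e2, fun w a1 => (hK x w).2 (e3 w a1)⟩
  · obtain ⟨x, hx, e⟩ := h5.trans_of ht (Finset.subset_univ S) u hu v hv
    exact ⟨⟨x, hx⟩, Subgroup.mem_top _, by rw [hπ]; exact e⟩
  · have : b'.bs.cnt l' = b.bs.cnt A := by
      conv_rhs => rw [← hl', BS.cnt, List.countP_map]
      exact List.countP_congr fun x _ => by simp [hπ]
    omega

theorem group_finiteC (r : ℕ) (hr : 1 ≤ r) : ∃ k : ℕ, ∀ (d n : ℕ) (g : Fin n → GLr (r * d))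
    (ε : Fin n → Fin (r * d) → ℂ) (ρ : Fin n → ℝ), r + 2 ≤ d → Function.Injective ρ →
    LoopsM Finset.univ ρ g ε → (∀ a, ((g a).val - 1).rank ≤ r) →
    (∀ L, LowerL ρ L → (∀ a, a ∈ L) → IsOfFinOrder (L.map g).prod →
      (((L.map g).prod).val - 1).rank ≤ r) →
    ∀ Z : Subalgebra ℂ (Mt (r * d)),
      (∀ U : Submodule ℂ (Fin (r * d) → ℂ), (∀ a, ∀ v ∈ U, (g a).val *ᵥ v ∈ U) →
        (∀ z ∈ Z, ∀ v ∈ U, z *ᵥ v ∈ U) → U = ⊥ ∨ U = ⊤) →
      (∀ γ ∈ Subgroup.closure (Set.range g), ∀ x ∈ Z, γ.val * x * (γ⁻¹).val ∈ Z) → CommA Z →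
      Module.finrank ℂ Z = d → ∀ M : Finset (Fin n), 2 * d + k ≤ M.card →
      (∀ a ∈ M, ∃ x ∈ Z, (g a).val * x ≠ x * (g a).val) →
      Finite (Subgroup.closure (Set.range g)) := by
  classical
  obtain ⟨k, hk⟩ := finite_big r hr
  refine ⟨k, fun d n g ε ρ hd hρ ho hrk hinf Z hI hZ hc hfr M hM hMa => ?_⟩
  obtain ⟨L0, h1, h2⟩ := exists_lowerL hρ Finset.univ fun _ _ _ _ => Finset.mem_univ _
  have h0 : L0.Nodup := h1.1.imp fun hab e => hab.ne (congrArg _ e)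
  have hall : ∀ a, a ∈ L0 := fun a => List.mem_toFinset.1 (h2 ▸ Finset.mem_univ a)
  have hS := ho.loopsS h1
  set Γ := Subgroup.closure (Set.range g) with hΓ
  let g' : Fin n → Γ := fun a => ⟨g a, Subgroup.subset_closure ⟨a, rfl⟩⟩
  have hg : Subgroup.closure (Set.range g') = ⊤ := by
    apply Subgroup.map_injective Γ.subtype_injective
    rw [MonoidHom.map_closure, ← Set.range_comp, ← MonoidHom.range_eq_map, Subgroup.range_subtype]
    rfl
  have hI' : IrrZ (incl Γ) Z := fun U hU => hI U fun a => hU (g' a)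
  have hl : ∀ x, IsLoop Finset.univ L0 g' x → IsOfFinOrder x := fun x hx => by
    obtain ⟨l, R, h, k1, k2, k3⟩ := hx.map Γ.subtype
    have k4 := (hS l R h k1 k2).1
    rw [← k3] at k4
    exact (incl_inj Γ).isOfFinOrder_iff.1 k4
  have hZ' : InvR (incl Γ) Z := fun γ => hZ γ γ.2
  obtain ⟨e, e0, e1, e2, e3, e4⟩ := exists_idem hI' hZ' hc hfr
  obtain ⟨b, rfl⟩ := exists_BR (incl_inj Γ) hZ' e0 e1 e2 e3 e4
  have hE : b.IrrE := fun U k1 k2 => hI' U k1 fun z hz v hv => by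
    obtain ⟨c, rfl⟩ := e4 z hz
    rw [sum_mulVec]
    exact U.sum_mem fun i _ => by rw [smul_mulVec]; exact U.smul_mem _ (k2 i v hv)
  have hf := finL_of_fin h0 hl
  have hp : ((L0.map g').prod).val = (L0.map g).prod := by
    rw [← Γ.coe_subtype, map_list_prod, List.map_map]
    rfl
  refine hk d _ Γ (incl Γ) b (L0.map g') hd ?_ hE (b.rank_eq (b.trans hE e0) rfl)
    (fun x hx => ?_) ?_ hf (hM.trans ?_)
  · rw [← hg, gen]
    congr 1
    ext x
    simp [hall]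
  · obtain ⟨a, -, rfl⟩ := List.mem_map.1 hx
    exact hrk a
  · rw [incl_apply, hp]
    refine hinf L0 h1 hall ?_
    rw [← hp]
    exact Γ.subtype.isOfFinOrder (hf _ [] (by simpa using Hur.refl _))
  · rw [BS.cnt, List.countP_map, List.countP_eq_length_filter,
      ← List.toFinset_card_of_nodup (h0.filter _)]
    refine Finset.card_le_card fun a ha => ?_
    obtain ⟨x, hx, h3⟩ := hMa a ha
    refine List.mem_toFinset.2 (List.mem_filter.2 ⟨hall a, decide_eq_true fun h4 => h3 ?_⟩)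
    obtain ⟨c, rfl⟩ := e4 x hx
    rw [Finset.mul_sum, Finset.sum_mul]
    refine Finset.sum_congr rfl fun i _ => ?_
    have h5 := b.act (g' a) i
    rw [show b.π (g' a) = 1 from h4] at h5
    rw [Matrix.mul_smul, Matrix.smul_mul]
    exact congrArg _ h5

end Pool.Agent.GR.GC
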