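import Pool.Agent.Lib.MP_aa40d3_nt.GC.Bs

/-! Systems of sheets: normal subgroups and the trivial case. -/

namespace Pool.Agent.GR.GC.BS

variable {G : Type} [Group G] {d r : ℕ} {b : BS G d} {S : Finset (Fin d)}

theorem bta_one {N : Subgroup G} (hN : ∀ a ∈ S, ∀ c ∈ S, a ≠ c → ∃ z ∈ N, b.Swap z a c)
    {a c : Fin d} (ha : a ∈ S) (hc : c ∈ S) : ∃ w ∈ N, b.π w = Equiv.swap a c := by
  by_cases h : a = c
  · exact ⟨1, one_mem _, by rw [map_one, h, Equiv.swap_self]; rfl⟩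
  · obtain ⟨z, hz, h1⟩ := hN a ha c hc h
    exact ⟨z, hz, h1.2.1⟩

theorem bta_two {N : Subgroup G} (hN : ∀ a ∈ S, ∀ c ∈ S, a ≠ c → ∃ z ∈ N, b.Swap z a c)
    {m m' i j : Fin d} (hm : m ∈ S) (hm' : m' ∈ S) (hmm : m ≠ m') (hi : i ∈ S) (hj : j ∈ S)
    (hij : i ≠ j) : ∃ w ∈ N, b.π w m = i ∧ b.π w m' = j := by
  obtain ⟨w, hw, h1⟩ := bta_one hN hm hi
  have h2 : Equiv.swap m i m' ∈ S := by
    rw [Equiv.swap_apply_def]
    split_ifs <;> assumption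
  have h3 : i ≠ Equiv.swap m i m' := fun h =>
    hmm ((Equiv.swap m i).injective ((Equiv.swap_apply_left m i).trans h))
  obtain ⟨w', hw', h4⟩ := bta_one hN h2 hj
  refine ⟨w' * w, mul_mem hw' hw, ?_, ?_⟩
  · rw [map_mul, Equiv.Perm.mul_apply, h1, h4, Equiv.swap_apply_left,
      Equiv.swap_apply_of_ne_of_ne h3 hij]
  · rw [map_mul, Equiv.Perm.mul_apply, h1, h4, Equiv.swap_apply_left]

/-- First: for `a ≠ c` in `S` some conjugate of `g` has type `(a, c)` (conjugate by at most two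
exchanges from `hc`, `Swap.conj`). Then take `l ∈ S` different from `a` and `c`, `w ∈ N` of type
`(a, l)`, and `braid`: `z = w * (z * w * z⁻¹) * w⁻¹`. -/
theorem swap_mem (N : Subgroup G) [N.Normal] (hS : 3 ≤ S.card) (hc : b.Conn S) {g : G}
    {i j : Fin d} (hi : i ∈ S) (hj : j ∈ S) (hg : b.Swap g i j) (hN : g ∈ N) {z : G} {a c : Fin d}
    (ha : a ∈ S) (hc' : c ∈ S) (hz : b.Swap z a c) : z ∈ N := by
  obtain ⟨l, hl⟩ : (S \ {a, c}).Nonempty := by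
    have h1 := Finset.le_card_sdiff {a, c} S
    have h2 : ({a, c} : Finset (Fin d)).card ≤ 2 := Finset.card_le_two
    exact Finset.card_pos.1 (by omega)
  simp only [Finset.mem_sdiff, Finset.mem_insert, Finset.mem_singleton, not_or] at hl
  obtain ⟨γ, -, h1, h2⟩ := bta_two (N := ⊤)
    (fun a ha c hc' h => (hc a ha c hc' h).imp fun z hz => ⟨Subgroup.mem_top z, hz⟩)
    hi hj hg.1 ha hl.1 (Ne.symm hl.2.1)
  have h3 := hg.conj γ
  rw [h1, h2] at h3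
  have h4 : γ * g * γ⁻¹ ∈ N := Subgroup.Normal.conj_mem inferInstance g hN γ
  generalize γ * g * γ⁻¹ = w at h3 h4
  have h5 : z * w * z⁻¹ ∈ N := Subgroup.Normal.conj_mem inferInstance w h4 z
  rw [hz.inv, braid hz h3 (Ne.symm hl.2.2)] at h5
  exact (N.mul_mem_cancel_left h4).1 ((N.mul_mem_cancel_right h4).1 h5)

/-- There are two sheets `m₁ ≠ m₂` in `S` on which `x` is trivial. Move `m₁` to `i` and then, if
`j ≠ i`, the image of `m₂` to `j`, by exchanges or by `1`. -/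
theorem move_punc (N : Subgroup G) (hS : r + 2 ≤ S.card)
    (hN : ∀ a ∈ S, ∀ c ∈ S, a ≠ c → ∃ z ∈ N, b.Swap z a c) {x : G} (hx : b.Punc r x) {i j : Fin d}
    (hi : i ∈ S) (hj : j ∈ S) : ∃ w ∈ N, w * x * w⁻¹ ∈ b.K i ∧ w * x * w⁻¹ ∈ b.K j := by
  obtain ⟨-, T, hT, hK⟩ := hx
  have h1 := Finset.le_card_sdiff T S
  obtain ⟨m, hm, m', hm', hmm⟩ := Finset.one_lt_card.1 (show 1 < (S \ T).card by omega)
  rw [Finset.mem_sdiff] at hm hm'
  by_cases hij : i = j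
  · obtain ⟨w, hw, h2⟩ := bta_one hN hm.1 hi
    have h3 := b.conj w m x (hK m hm.2)
    rw [h2, Equiv.swap_apply_left] at h3
    exact ⟨w, hw, h3, hij ▸ h3⟩
  · obtain ⟨w, hw, h2, h3⟩ := bta_two hN hm.1 hm'.1 hmm hi hj hij
    exact ⟨w, hw, h2 ▸ b.conj w m x (hK m hm.2), h3 ▸ b.conj w m' x (hK m' hm'.2)⟩

end Pool.Agent.GR.GC.BS
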