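import Pool.Agent.Lib.MP_aa40d3_nt.MG.CaseA
import Pool.Agent.Lib.MP_aa40d3_nt.MG.CaseB
import Pool.Agent.Lib.MP_aa40d3_nt.GC.Link

/-! The group theorem for ramified tuples, for lists. -/

open Matrix

namespace Pool.Agent.GR.GC

theorem finite_abs (r : ℕ) [NeZero r] : ∃ k : ℕ, ∀ (n : ℕ) (Mov : Finset (Fin n))
    (L0 : List (Fin n)) (G : Type) [Group G] (g : Fin n → G) (σ : G →* Mt r), L0.Nodup →
    (∀ a, a ∈ L0) → Subgroup.closure (Set.range g) = ⊤ → Function.Injective σ → IrrR σ →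
    (∀ a, IsOfFinOrder (g a)) → (∀ x, IsLoop Mov L0 g x → IsOfFinOrder x) →
    (∀ Z : Subalgebra ℂ (Mt r), InvR σ Z → (∃ x ∈ Z, ¬ Scl x) →
      ∃ M ⊆ Mov, k ≤ M.card ∧ ∀ a ∈ M, ∃ x ∈ Z, σ (g a) * x ≠ x * σ (g a)) → Finite G := by
  classical
  obtain ⟨k₁, hA⟩ := caseA r
  obtain ⟨k₂, hB⟩ := caseB r
  refine ⟨max k₁ k₂, fun n Mov L0 G _ g σ h0 hall hg hi hI hfo hl hZ => ?_⟩
  have hd : ∀ x, IsOfFinOrder (σ x).det := fun x => by
    have hx : x ∈ Subgroup.closure (Set.range g) := hg ▸ Subgroup.mem_top x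
    induction hx using Subgroup.closure_induction with
    | mem y hy =>
      obtain ⟨a, rfl⟩ := hy
      exact (detMonoidHom.comp σ).isOfFinOrder (hfo a)
    | one => rw [map_one, det_one]; exact IsOfFinOrder.one
    | mul y z _ _ hy hz => rw [map_mul, det_mul]; exact hy.mul hz
    | inv y _ hy =>
      obtain ⟨m, hm, e⟩ := isOfFinOrder_iff_pow_eq_one.1 hy
      refine isOfFinOrder_iff_pow_eq_one.2 ⟨m, hm, ?_⟩
      have h3 := congrArg (fun w => w.det ^ m) (rep_mul_inv σ y)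
      simpa only [det_mul, mul_pow, e, one_mul, det_one, one_pow] using h3
  obtain ⟨H, hH1, hH2, hH3⟩ := exists_coreR σ
  obtain ⟨B, hBm⟩ := spR_alg σ H
  have hBi : InvR σ B := fun γ x hx => (hBm _).2 (spR_inv H γ ((hBm x).1 hx))
  by_cases hc : CommA B
  · refine hA n Mov L0 G g σ h0 hall hg hi hI hd hl (fun Z h3 h4 => ?_) H B hH1
      hH2 hBi hc fun γ hγ => (hBm _).2 (Submodule.subset_span ⟨γ, hγ, rfl⟩)
    obtain ⟨M, k1, k2, k3⟩ := hZ Z h3 h4
    exact ⟨M, k1, (le_max_left _ _).trans k2, k3⟩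
  · exfalso
    obtain ⟨A, a1, a2, a3, a4⟩ := exists_minA B hBi hc
    obtain ⟨s, hs, ⟨b⟩⟩ := exists_big_block hI a2 a3
    obtain ⟨M, k1, k2, k3⟩ := hZ A a2 (by
      by_contra h3
      push Not at h3
      refine a3 fun x hx y _ => ?_
      obtain ⟨c, rfl⟩ := h3 x hx
      rw [Matrix.smul_mul, Matrix.mul_smul, Matrix.one_mul, Matrix.mul_one])
    obtain ⟨H', k4, k5⟩ := hB n M L0 G g σ h0 hall hg (fun x hx => hl x (hx.mono k1)) A s b
      hs a2 a4 (fun A' k6 k7 x hx y hy => by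
        obtain ⟨H'', k8, k9⟩ := comm_index hI k6 k7
        exact spR_comm (fun γ hγ => k9 γ hγ y hy) (hH3 H'' k8 ((hBm x).1 (a1 hx))))
      ((le_max_right _ _).trans k2) k3
    have h3 := b.eq_one fun y z =>
      spR_comm (fun γ hγ => k5 γ hγ z) (hH3 H' k4 ((hBm _).1 (a1 (b.mem y))))
    omega

/-- The same for lists, uniformly for bounded rank. -/
theorem finite_list (D : ℕ) : ∃ k : ℕ, ∀ m, m ≠ 0 → m ≤ D → ∀ (G : Type) [Group G] (l : List G)
    (σ : G →* Mt m) (P : G → Bool), gen l = ⊤ → Function.Injective σ → IrrR σ → FinL l →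
    k ≤ l.countP P → (∀ Z : Subalgebra ℂ (Mt m), InvR σ Z → (∃ x ∈ Z, ¬ Scl x) →
      ∀ y ∈ l, P y → ∃ x ∈ Z, σ y * x ≠ x * σ y) → Finite G := by
  classical
  choose f hf using fun m => finite_abs (m + 1)
  refine ⟨(Finset.range D).sup f, fun m hm hD G _ l σ P hg hi hI hfin hk hZ => ?_⟩
  obtain ⟨m, rfl⟩ := Nat.exists_eq_succ_of_ne_zero hm
  have hl : (List.finRange l.length).map l.get = l := List.map_get_finRange l
  refine hf m l.length Finset.univ (List.finRange _) G l.get σ (List.nodup_finRange _)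
    List.mem_finRange ?_ hi hI (fun a => hfin.mem (List.get_mem l a))
    (fin_of_finL (List.nodup_finRange _) (hl.symm ▸ hfin)) fun Z h1 h2 =>
      ⟨Finset.univ.filter fun a => P (l.get a), Finset.subset_univ _, ?_, fun a ha =>
        hZ Z h1 h2 _ (List.get_mem l a) (Finset.mem_filter.1 ha).2⟩
  · rw [← hg, gen]
    congr 1
    ext x
    exact List.mem_iff_get.symm
  · refine (Finset.le_sup (f := f) (Finset.mem_range.2 hD)).trans (hk.trans ?_)
    conv_lhs => rw [← hl, List.countP_map, List.countP_eq_length_filter,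
      ← List.toFinset_card_of_nodup ((List.nodup_finRange _).filter _)]
    refine Finset.card_le_card fun a ha => ?_
    simpa using ha

end Pool.Agent.GR.GC
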