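import Pool.Agent.Lib.MP_aa40d3_nt.GC.BsB

/-! Systems of sheets. -/

namespace Pool.Agent.GR.GC.BS

variable {G : Type} [Group G] {d r : ℕ} {b : BS G d} {x y z : G} {i j l : Fin d}
  {S : Finset (Fin d)}

/-- `K i` has finite index: the cosets of `K i` are represented by the `x j * h`, where `x j` moves
`i` to `j` and `h ∈ H`. All `K j` are conjugate to `K i`, their intersection is trivial. -/
theorem finite_of_agree {H : Subgroup G} [Finite H] (ht : b.Trans ⊤ Finset.univ) (hi : i ∈ S)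
    (h : b.Agree ⊤ H S) : Finite G := by
  choose γ hγ using fun c => ht i (Finset.mem_univ _) c (Finset.mem_univ _)
  have : Finite (G ⧸ b.K i) := by
    refine Finite.of_surjective (fun q : Fin d × H => ((γ q.1 * q.2 : G) : G ⧸ b.K i)) fun q => ?_
    obtain ⟨y, rfl⟩ := QuotientGroup.mk_surjective q
    obtain ⟨g, hg, h1⟩ := h ((γ (b.π y i))⁻¹ * y) trivial i hi (by
      rw [map_mul, map_inv, Equiv.Perm.mul_apply, ← (hγ (b.π y i)).2, (hγ (b.π y i)).2,
        Equiv.Perm.inv_eq_iff_eq.2 (hγ (b.π y i)).2.symm]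
      exact hi)
    refine ⟨(b.π y i, ⟨g, hg⟩), QuotientGroup.eq.2 ?_⟩
    rwa [mul_inv_rev, mul_assoc]
  refine Finite.of_injective (fun y c => ((y * γ c : G) : G ⧸ b.K i)) fun y y' e => ?_
  refine inv_mul_eq_one.1 (b.sep _ fun c => ?_)
  have h1 := b.conj (γ c) i _ (QuotientGroup.eq.1 (congrFun e c))
  rw [(hγ c).2] at h1
  simpa [mul_assoc] using h1

/-- The relation `c = c' ∨ ∃ z, Swap z c c'` is an equivalence relation (`Swap.conj`); the `x` with
`c ~ π x c` for all `c` form a subgroup that contains the generators. -/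
theorem conn {X : Set G} (hX : Subgroup.closure X = ⊤) (hok : ∀ x ∈ X, b.Ok r x)
    (ht : b.Trans ⊤ S) : b.Conn S := by
  have hs : ∀ {c c' : Fin d}, (c = c' ∨ ∃ z, b.Swap z c c') → c' = c ∨ ∃ z, b.Swap z c' c :=
    fun h => h.imp Eq.symm fun ⟨z, hz⟩ => ⟨z, hz.symm⟩
  have htr : ∀ {c c' c'' : Fin d}, (c = c' ∨ ∃ z, b.Swap z c c') →
      (c' = c'' ∨ ∃ z, b.Swap z c' c'') → c = c'' ∨ ∃ z, b.Swap z c c'' := by
    rintro c c' c'' (rfl | ⟨z, hz⟩) h'
    · exact h'
    rcases h' with rfl | ⟨w, hw⟩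
    · exact Or.inr ⟨z, hz⟩
    refine (eq_or_ne c c'').imp_right fun hc => ⟨w * z * w⁻¹, ?_⟩
    have h1 := hz.conj w
    rwa [hw.apply, hw.2.1, Equiv.swap_apply_of_ne_of_ne hz.1 hc] at h1
  have key : ∀ x : G, ∀ c, c = b.π x c ∨ ∃ z, b.Swap z c (b.π x c) := fun x => by
    have hx : x ∈ Subgroup.closure X := hX ▸ trivial
    induction hx using Subgroup.closure_induction with
    | mem x hx =>
      intro c
      rcases hok x hx with ⟨i, j, h⟩ | h
      · by_cases h1 : c = i
        · rw [h1, h.apply]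
          exact Or.inr ⟨x, h⟩
        by_cases h2 : c = j
        · rw [h2, h.symm.apply]
          exact Or.inr ⟨x, h.symm⟩
        · rw [h.2.1, Equiv.swap_apply_of_ne_of_ne h1 h2]
          exact Or.inl rfl
      · rw [h.1]
        exact Or.inl rfl
    | one => exact fun c => Or.inl (by rw [map_one]; rfl)
    | mul x y _ _ hx hy =>
      intro c
      rw [map_mul, Equiv.Perm.mul_apply]
      exact htr (hy c) (hx _)
    | inv x _ hx =>
      intro c
      have h1 := hx (b.π x⁻¹ c)
      rw [← Equiv.Perm.mul_apply, ← map_mul, mul_inv_cancel, map_one, Equiv.Perm.one_apply] at h1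
      exact hs h1
  intro i hi j hj hij
  obtain ⟨x, -, rfl⟩ := ht i hi j hj
  exact (key x i).resolve_left hij

end Pool.Agent.GR.GC.BS
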