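import Pool.Agent.Lib.MP_aa40d3_nt.GC.Defs

/-! Systems of sheets. -/

namespace Pool.Agent.GR.GC.BS

variable {G : Type} [Group G] {d r : ℕ} {b : BS G d} {x y z : G} {i j l : Fin d}
  {S : Finset (Fin d)}

theorem conj_iff (γ : G) : γ * x * γ⁻¹ ∈ b.K (b.π γ i) ↔ x ∈ b.K i := by
  refine ⟨fun h => ?_, b.conj γ i x⟩
  have h1 := b.conj γ⁻¹ _ _ h
  rwa [map_inv, Equiv.Perm.coe_inv, Equiv.symm_apply_apply,
    show γ⁻¹ * (γ * x * γ⁻¹) * γ⁻¹⁻¹ = x by group] at h1

theorem Swap.symm (h : b.Swap x i j) : b.Swap x j i := by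
  exact ⟨h.1.symm, h.2.1.trans (Equiv.swap_comm i j), h.2.2.1, fun c h1 h2 => h.2.2.2 c h2 h1⟩

theorem Swap.inv (h : b.Swap x i j) : x⁻¹ = x := inv_eq_of_mul_eq_one_right h.2.2.1

theorem Swap.apply (h : b.Swap x i j) : b.π x i = j := by
  rw [h.2.1, Equiv.swap_apply_left]

theorem Swap.not_mem (h : b.Swap x i j) : x ∉ b.K i := fun e =>
  h.1 ((b.fix i x e).symm.trans h.apply)

theorem Swap.conj (h : b.Swap x i j) (γ : G) : b.Swap (γ * x * γ⁻¹) (b.π γ i) (b.π γ j) := by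
  refine ⟨fun e => h.1 ((b.π γ).injective e), ?_, ?_, fun c h1 h2 => ?_⟩
  · rw [map_mul, map_mul, map_inv, h.2.1, Equiv.swap_apply_apply]
  · rw [show γ * x * γ⁻¹ * (γ * x * γ⁻¹) = γ * (x * x) * γ⁻¹ by group, h.2.2.1, mul_one,
      mul_inv_cancel]
  · obtain ⟨c, rfl⟩ := (b.π γ).surjective c
    exact b.conj γ c x (h.2.2.2 c (fun e => h1 (by rw [e])) fun e => h2 (by rw [e]))

theorem Punc.conj (h : b.Punc r x) (γ : G) : b.Punc r (γ * x * γ⁻¹) := by
  obtain ⟨h1, T, hT, h2⟩ := h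
  refine ⟨by rw [map_mul, map_mul, h1, mul_one, map_inv, mul_inv_cancel], T.image (b.π γ),
    Finset.card_image_le.trans hT, fun c hc => ?_⟩
  obtain ⟨c, rfl⟩ := (b.π γ).surjective c
  exact b.conj γ c x (h2 c fun e => hc (Finset.mem_image_of_mem _ e))

theorem Ok.conj (h : b.Ok r x) (γ : G) : b.Ok r (γ * x * γ⁻¹) := by
  rcases h with ⟨i, j, h⟩ | h
  · exact Or.inl ⟨_, _, h.conj γ⟩
  · exact Or.inr (h.conj γ)

theorem Ok.invol (h : b.Ok r x) (c : Fin d) : b.π x (b.π x c) = c := by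
  rcases h with ⟨i, j, h⟩ | h
  · rw [h.2.1, Equiv.swap_apply_self]
  · rw [h.1]
    rfl

/-- An element of one of the two types that is not trivial on `j` and moves a sheet. -/
theorem Ok.swap (h : b.Ok r x) (h1 : b.π x ≠ 1) (hj : x ∉ b.K j) : ∃ i, b.Swap x j i := by
  rcases h with ⟨i, k, h⟩ | h
  · by_cases e : j = i
    · exact ⟨k, e ▸ h⟩
    by_cases e' : j = k
    · exact ⟨i, e' ▸ h.symm⟩
    exact absurd (h.2.2.2 j e e') hj
  · exact absurd h.1 h1

theorem Ok.supp (hr : 1 ≤ r) (h : b.Ok r x) :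
    ∃ T : Finset (Fin d), T.card ≤ r + 1 ∧ ∀ l, l ∉ T → x ∈ b.K l := by
  rcases h with ⟨i, j, h⟩ | ⟨-, T, hT, h⟩
  · refine ⟨{i, j}, Finset.card_le_two.trans (by omega), fun c hc => ?_⟩
    rw [Finset.mem_insert, Finset.mem_singleton, not_or] at hc
    exact h.2.2.2 c hc.1 hc.2
  · exact ⟨T, hT.trans r.le_succ, h⟩

theorem Ok.free (hr : 1 ≤ r) (h : b.Ok r x) (hS : r + 2 ≤ S.card) : ∃ i ∈ S, x ∈ b.K i := by
  obtain ⟨T, hT, h1⟩ := h.supp hr
  obtain ⟨c, hc, hc'⟩ := Finset.exists_mem_notMem_of_card_lt_card (s := T) (t := S) (by omega)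
  exact ⟨c, hc, h1 c hc'⟩

/-- `y * x` is the inverse of `x * y`, and `x * y` is its conjugate by `x`; use `sep`. -/
theorem Swap.eq (hx : b.Swap x j i) (hy : b.Swap y j i) (h : x * y ∈ b.K j) : y = x := by
  have h1 : x * y = 1 := b.sep _ fun c => by
    by_cases e : c = j
    · exact e ▸ h
    by_cases e' : c = i
    · have h2 := b.conj x j _ ((b.K j).inv_mem h)
      rw [hx.apply, mul_inv_rev, hy.inv, hx.inv, mul_assoc, mul_assoc, hx.2.2.1, mul_one] at h2
      exact e' ▸ h2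
    exact (b.K c).mul_mem (hx.2.2.2 c e e') (hy.2.2.2 c e e')
  exact (eq_inv_of_mul_eq_one_right h1).trans hx.inv

/-- Show `(y * z * y)⁻¹ * (z * y * z) ∈ K c` for all `c` (cases `c = i, j, l`, other), `sep`. -/
theorem braid (hy : b.Swap y i j) (hz : b.Swap z i l) (hjl : j ≠ l) : y * z * y = z * y * z := by
  have yl : y ∈ b.K l := hy.2.2.2 l hz.1.symm hjl.symm
  have zj : z ∈ b.K j := hz.2.2.2 j hy.1.symm hjl
  have u : y * z * y ∈ b.K i := by
    have := b.conj y j z zj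
    rwa [hy.symm.apply, hy.inv] at this
  have v : z * y * z ∈ b.K i := by
    have := b.conj z l y yl
    rwa [hz.symm.apply, hz.inv] at this
  have e : (y * z * y)⁻¹ * (z * y * z) = y * z * y * (z * y * z) := by
    rw [mul_inv_rev, mul_inv_rev, hy.inv, hz.inv, ← mul_assoc y z y]
  refine inv_mul_eq_one.1 (b.sep _ fun c => ?_)
  rw [e]
  by_cases e1 : c = i
  · exact e1 ▸ (b.K i).mul_mem u v
  by_cases e2 : c = j
  · have := b.conj y i _ v
    rw [hy.apply, hy.inv] at this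
    rw [e2, show y * z * y * (z * y * z) = y * (z * y * z) * y * z by simp only [mul_assoc]]
    exact (b.K j).mul_mem this zj
  by_cases e3 : c = l
  · have := b.conj z i _ u
    rw [hz.apply, hz.inv] at this
    rw [e3, show y * z * y * (z * y * z) = y * (z * (y * z * y) * z) by simp only [mul_assoc]]
    exact (b.K l).mul_mem yl this
  have a1 := hy.2.2.2 c e1 e2
  have a2 := hz.2.2.2 c e1 e3
  exact (b.K c).mul_mem ((b.K c).mul_mem ((b.K c).mul_mem a1 a2) a1)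
    ((b.K c).mul_mem ((b.K c).mul_mem a2 a1) a2)

end Pool.Agent.GR.GC.BS
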