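import Pool.Agent.Lib.MP_aa40d3_nt.GC.BsA

/-! Systems of sheets. -/

namespace Pool.Agent.GR.GC.BS

variable {G : Type} [Group G] {d r : ℕ} {b : BS G d} {x y z : G} {i j l : Fin d}
  {S : Finset (Fin d)}

theorem bsb_apply (h : x⁻¹ * y ∈ b.K i) : b.π x i = b.π y i := by
  have h1 : y = x * (x⁻¹ * y) := (mul_inv_cancel_left x y).symm
  rw [h1, map_mul, Equiv.Perm.mul_apply, b.fix i _ h]

/-- With `u c = if c = j then x else 1` show for all `y` in the group generated by `H` and `x`:
for all `c` there is `h ∈ H` with `(u (π y c) * h * u c)⁻¹ * y ∈ K c`. This holds for the members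
of `H` and for `x`, and it is closed under products
(`(a' * a)⁻¹ * (y' * y) = (a⁻¹ * y) * (y⁻¹ * (a'⁻¹ * y') * y)`, `u c * u c = 1`); the generating set
is closed under inverses (`Subgroup.closure_induction''`, or `closure_toSubmonoid`). -/
theorem wreath {A : List G} (hA : ∀ a ∈ A, a ∈ b.K j) (hx : b.Swap x j i) :
    b.Agree (gen (A ++ [x, x])) (gen A) (Finset.univ.erase j) := by
  obtain ⟨u, hu, hu'⟩ : ∃ u : Fin d → G, u j = x ∧ ∀ c, c ≠ j → u c = 1 :=
    ⟨fun c => if c = j then x else 1, if_pos rfl, fun c hc => if_neg hc⟩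
  have hxx : x * x = 1 := hx.2.2.1
  have huu : ∀ c, u c * u c = 1 := by
    intro c
    by_cases hc : c = j
    · rw [hc, hu, hxx]
    · rw [hu' c hc, mul_one]
  have hH : ∀ a ∈ gen A, ∀ c, ∃ h ∈ gen A, (u (b.π a c) * h * u c)⁻¹ * a ∈ b.K c := by
    intro a ha c
    have haj : a ∈ b.K j := gen_le.2 hA ha
    by_cases hc : c = j
    · refine ⟨1, one_mem _, ?_⟩
      rw [hc, b.fix j a haj, mul_one, huu, inv_one, one_mul]
      exact haj
    · have h1 : b.π a c ≠ j := fun h => hc ((b.π a).injective (h.trans (b.fix j a haj).symm))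
      refine ⟨a, ha, ?_⟩
      rw [hu' c hc, hu' _ h1, one_mul, mul_one, inv_mul_cancel]
      exact one_mem _
  have hX : ∀ c, ∃ h ∈ gen A, (u (b.π x c) * h * u c)⁻¹ * x ∈ b.K c := by
    intro c
    refine ⟨1, one_mem _, ?_⟩
    by_cases hc : c = j
    · rw [hc, hx.apply, hu' i hx.1.symm, hu, one_mul, one_mul, inv_mul_cancel]
      exact one_mem _
    · by_cases hc' : c = i
      · rw [hc', hx.2.1, Equiv.swap_apply_right, hu' i hx.1.symm, hu, mul_one, mul_one,
          inv_mul_cancel]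
        exact one_mem _
      · rw [hx.2.1, Equiv.swap_apply_of_ne_of_ne hc hc', mul_one, huu, inv_one, one_mul]
        exact hx.2.2.2 c hc hc'
  have key : ∀ y ∈ gen (A ++ [x, x]), ∀ c,
      ∃ h ∈ gen A, (u (b.π y c) * h * u c)⁻¹ * y ∈ b.K c := by
    intro y hy
    induction hy using Subgroup.closure_induction'' with
    | mem a ha =>
      rcases List.mem_append.1 ha with h | h
      · exact hH a (mem_gen h)
      · obtain rfl : a = x := by simpa using h
        exact hX
    | inv_mem a ha =>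
      rcases List.mem_append.1 ha with h | h
      · exact hH _ (inv_mem (mem_gen h))
      · obtain rfl : a = x := by simpa using h
        rw [hx.inv]
        exact hX
    | one => exact hH 1 (one_mem _)
    | mul y' y _ _ ih' ih =>
      intro c
      obtain ⟨h, hh, h1⟩ := ih c
      obtain ⟨h', hh', h1'⟩ := ih' (b.π y c)
      refine ⟨h' * h, mul_mem hh' hh, ?_⟩
      have h2 := b.conj y⁻¹ _ _ h1'
      rw [map_inv, Equiv.Perm.coe_inv, Equiv.symm_apply_apply, inv_inv] at h2
      have h3 : u (b.π (y' * y) c) * (h' * h) * u c =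
          u (b.π y' (b.π y c)) * h' * u (b.π y c) * (u (b.π y c) * h * u c) := by
        rw [map_mul, Equiv.Perm.mul_apply]
        simp only [mul_assoc]
        rw [← mul_assoc (u (b.π y c)), huu, one_mul]
      have h4 := mul_mem h1 h2
      rw [h3]
      generalize u (b.π y' (b.π y c)) * h' * u (b.π y c) = a' at h4 ⊢
      generalize u (b.π y c) * h * u c = a at h4 ⊢
      have h5 : (a' * a)⁻¹ * (y' * y) = a⁻¹ * y * (y⁻¹ * (a'⁻¹ * y') * y) := by group
      rwa [h5]
  intro y hy c hc hc'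
  obtain ⟨h, hh, h1⟩ := key y hy c
  rw [hu' c (Finset.ne_of_mem_erase hc), hu' _ (Finset.ne_of_mem_erase hc'), one_mul,
    mul_one] at h1
  exact ⟨h, hh, h1⟩

theorem Agree.trans {H H' H'' : Subgroup G} {S' : Finset (Fin d)} (h : b.Agree H H' S)
    (h' : b.Agree H' H'' S') (hS : S' ⊆ S) : b.Agree H H'' S' := by
  intro y hy i hi h1
  obtain ⟨a, ha, h2⟩ := h y hy i (hS hi) (hS h1)
  obtain ⟨a', ha', h3⟩ := h' a ha i hi (by rwa [bsb_apply h2])
  refine ⟨a', ha', ?_⟩
  have h4 := mul_mem h3 h2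
  rwa [mul_assoc, mul_inv_cancel_left] at h4

theorem Agree.mono {H H' : Subgroup G} {S' : Finset (Fin d)} (h : b.Agree H H' S) (hS : S' ⊆ S) :
    b.Agree H H' S' := fun y hy i hi h1 => h y hy i (hS hi) (hS h1)

theorem Agree.trans_of {H H' : Subgroup G} {S' : Finset (Fin d)} (h : b.Agree H H' S')
    (ht : b.Trans H S) (hS : S' ⊆ S) : b.Trans H' S' := by
  intro i hi j hj
  obtain ⟨y, hy, h1⟩ := ht i (hS hi) j (hS hj)
  obtain ⟨a, ha, h2⟩ := h y hy i hi (by rwa [h1])
  exact ⟨a, ha, (bsb_apply h2).trans h1⟩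

end Pool.Agent.GR.GC.BS
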