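import Pool.Agent.Lib.MP_aa40d3_nt.GC.BtA

/-! Systems of sheets: normal subgroups and the trivial case. -/

namespace Pool.Agent.GR.GC.BS

variable {G : Type} [Group G] {d r : ℕ} {b : BS G d} {S : Finset (Fin d)}

theorem bt_step (hu : ∀ x y i j, b.Swap x i j → b.Swap y i j → x * y = 1) {x t : G}
    {i j a c : Fin d} (hx : b.Swap x i j) (ht : (a = c ∧ t = 1) ∨ b.Swap t a c) :
    ∃ t', ((a = b.π x c ∧ t' = 1) ∨ b.Swap t' a (b.π x c)) ∧ t'⁻¹ * x * t ∈ b.K a := by
  by_cases hc : c ≠ i ∧ c ≠ j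
  · have h1 := hx.2.2.2 c hc.1 hc.2
    rw [b.fix c x h1]
    refine ⟨t, ht, ?_⟩
    rcases ht with ⟨rfl, rfl⟩ | ht
    · simpa using h1
    · have h2 := b.conj t c x h1
      rw [ht.symm.apply, ht.inv] at h2
      rwa [ht.inv]
  · obtain ⟨e, he⟩ : ∃ e, b.Swap x c e := by
      by_cases h1 : c = i
      · exact ⟨j, h1 ▸ hx⟩
      · have h2 : c = j := by tauto
        exact ⟨i, h2 ▸ hx.symm⟩
    rw [he.apply]
    rcases ht with ⟨rfl, rfl⟩ | ht
    · exact ⟨x, Or.inr he, by simp⟩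
    by_cases h1 : a = e
    · subst h1
      exact ⟨1, Or.inl ⟨rfl, rfl⟩, by simp [hu x t c a he ht.symm]⟩
    · have h2 := he.2.2.2 a ht.1 h1
      have h3 := ht.conj x
      rw [b.fix a x h2, he.apply] at h3
      exact ⟨_, Or.inr h3, by simpa [mul_assoc] using h2⟩

/-- Generators of the second type are trivial, and exchanges of the same type are equal (their
product keeps all sheets and is trivial on a third sheet of `S`; both sheets of an exchange lie in
`S` by `hs`). Choose `τ a c` of type `(a, c)` for `a ≠ c` in `S`, `τ a a = 1`. By induction on `y`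
(left multiplication by generators): `π y a ∈ S` and `(τ a (π y a))⁻¹ * y ∈ K a` for `a ∈ S`; the
step is `(τ a (π x c))⁻¹ * x * τ a c ∈ K a` for an exchange `x`. So `π` is injective. -/
theorem fin_triv {X : Set G} (hX : Subgroup.closure X = ⊤) (hr : 1 ≤ r) (hok : ∀ x ∈ X, b.Ok r x)
    (hS : r + 2 ≤ S.card) (hs : b.Sup ⊤ S) (hc : b.Conn S)
    (h : ∀ x, b.π x = 1 → (∃ c ∈ S, x ∈ b.K c) → x = 1) : Finite G := by
  have hu : ∀ x y i j, b.Swap x i j → b.Swap y i j → x * y = 1 := by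
    intro x y i j hx hy
    obtain ⟨l, hl, hl'⟩ := Finset.exists_mem_notMem_of_card_lt_card
      (s := {i, j}) (t := S) (Finset.card_le_two.trans_lt (by omega))
    rw [Finset.mem_insert, Finset.mem_singleton, not_or] at hl'
    exact h _ (by rw [map_mul, hx.2.1, hy.2.1, Equiv.swap_mul_self])
      ⟨l, hl, mul_mem (hx.2.2.2 l hl'.1 hl'.2) (hy.2.2.2 l hl'.1 hl'.2)⟩
  obtain ⟨a, ha⟩ := Finset.card_pos.1 (show 0 < S.card by omega)
  have hg : ∀ x ∈ X, x = 1 ∨ ∃ i j, b.Swap x i j := by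
    intro x hx
    rcases hok x hx with h1 | ⟨h1, T, h2, h3⟩
    · exact Or.inr h1
    · obtain ⟨l, hl, hl'⟩ := Finset.exists_mem_notMem_of_card_lt_card (s := T) (t := S) (by omega)
      exact Or.inl (h x h1 ⟨l, hl, h3 l hl'⟩)
  have key : ∀ y ∈ Subgroup.closure X,
      ∃ t, ((a = b.π y a ∧ t = 1) ∨ b.Swap t a (b.π y a)) ∧ t⁻¹ * y ∈ b.K a := by
    have st : ∀ x y, (x = 1 ∨ ∃ i j, b.Swap x i j) →
        (∃ t, ((a = b.π y a ∧ t = 1) ∨ b.Swap t a (b.π y a)) ∧ t⁻¹ * y ∈ b.K a) →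
        ∃ t, ((a = b.π (x * y) a ∧ t = 1) ∨ b.Swap t a (b.π (x * y) a)) ∧
          t⁻¹ * (x * y) ∈ b.K a := by
      rintro x y (rfl | ⟨i, j, hx⟩) hy
      · rwa [one_mul]
      · obtain ⟨t, h1, h2⟩ := hy
        obtain ⟨t', h3, h4⟩ := bt_step hu hx h1
        refine ⟨t', by rwa [map_mul], ?_⟩
        simpa [mul_assoc] using mul_mem h4 h2
    intro y hy
    induction hy using Subgroup.closure_induction_left with
    | one => exact ⟨1, Or.inl ⟨by simp, rfl⟩, by simp⟩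
    | mul_left x hx y _ ih => exact st x y (hg x hx) ih
    | inv_mul_cancel x hx y _ ih =>
      refine st x⁻¹ y ?_ ih
      rcases hg x hx with rfl | ⟨i, j, h1⟩
      · exact Or.inl inv_one
      · exact Or.inr ⟨i, j, by rwa [h1.inv]⟩
  refine Finite.of_injective b.π ((injective_iff_map_eq_one _).2 fun y hy => h y hy ⟨a, ha, ?_⟩)
  obtain ⟨t, h1, h2⟩ := key y (hX ▸ Subgroup.mem_top y)
  rw [hy, Equiv.Perm.one_apply] at h1
  rcases h1 with ⟨-, rfl⟩ | h1
  · simpa using h2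
  · exact absurd rfl h1.1

end Pool.Agent.GR.GC.BS
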