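import Pool.Agent.Lib.MP_aa40d3_nt.GR2.Mono2
import Pool.Agent.Lib.MP_aa40d3_nt.GC.Row
import Pool.Agent.Lib.MP_aa40d3_nt.MR.PrimT

/-! Irreducibility together with an algebra passes to the monodromy. -/

open Polynomial Matrix Set Filter Topology
open scoped Matrix.Norms.Operator

namespace Pool.Agent.GR.GC

variable {n r : ℕ} [NeZero r]

theorem IrrW.mono {t : Fin n → ℂ} {A : Fin n → Mat r}
    {W : Subalgebra ℂ[X] (Matrix (Fin r) (Fin r) ℂ[X])} (hi : IrrW t A W)
    {g : Fin n → (Mat r)ˣ} {D : ℕ} (hD : 0 < D)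
    (hζ : ∀ a, (g a).val ^ D = 1) {U : Set ℂ} (hU : IsOpen U) {x₀ : ℂ} (hx₀ : x₀ ∈ U) {Y : ℂ → Mat r}
    (hY0 : Y x₀ = 1) (hY : ∀ x ∈ U, (∀ i, x ≠ t i) ∧ (Y x).det ≠ 0 ∧
      HasDerivAt Y (sys t A x * Y x) x) (he : ExtProp t g U Y) {Z : Subalgebra ℂ (Mat r)}
    (hW : ∀ Φ ∈ W, Φ ∈ primW U Y (Subalgebra.toSubmodule Z)) (V : Submodule ℂ (Fin r → ℂ))
    (hV : ∀ a, ∀ v ∈ V, (g a).val *ᵥ v ∈ V) (hZ : ∀ z ∈ Z, ∀ v ∈ V, z *ᵥ v ∈ V) :
    V = ⊥ ∨ V = ⊤ := by
  by_contra hcon
  rw [not_or] at hcon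
  obtain ⟨Q, hQ1, hQ2⟩ := mono_proj V
  have hQ : Q * Q = Q := by
    refine Matrix.ext_iff_mulVec.2 fun v => ?_
    rw [← mulVec_mulVec, hQ2 _ (hQ1 v)]
  have hQ0 : Q ≠ 0 := fun h => hcon.1 ((Submodule.eq_bot_iff V).2 fun v hv => by
    rw [← hQ2 v hv, h, zero_mulVec])
  have hQo : Q ≠ 1 := fun h => hcon.2 (Submodule.eq_top_iff'.2 fun v => by
    have := hQ1 v
    rwa [h, one_mulVec] at this)
  have hg : ∀ a, Q * (g a).val * Q = (g a).val * Q := fun a => by
    refine Matrix.ext_iff_mulVec.2 fun v => ?_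
    rw [← mulVec_mulVec, ← mulVec_mulVec, ← mulVec_mulVec, hQ2 _ (hV a _ (hQ1 v))]
  have hd : ∀ a, (Q * (g a).val * Q + (1 - Q)).det ^ D = 1 := fun a =>
    mono_deth2 hQ (hg a) (hζ a)
  obtain ⟨m, q, hq⟩ := mono_unif (ι := Option (Fin r × Fin r)) (U := U) (dl t)
    (fun i x => match i with
      | none => monoD Q D (Y x)
      | some p => monoP Q D (Y x) p.1 p.2) (by
      intro i
      cases i with
      | none => exact he _ (mono_D_mem Q D) fun M a => mono_D_inv hQ (hg a) (hd a) M.val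
      | some p =>
        refine he _ (mono_P_mem Q D p.1 p.2) fun M a => ?_
        exact congrFun (congrFun (mono_P_inv hD hQ (hg a) (hd a) M.val) p.1) p.2)
  have hq0 : ∀ x ∈ U, (dl t).eval x ^ m * monoD Q D (Y x) = (q none).eval x := hq none
  have hq1 : ∀ a b, ∀ x ∈ U, (dl t).eval x ^ m * monoP Q D (Y x) a b = (q (some (a, b))).eval x :=
    fun a b => hq (some (a, b))
  have hst := mono_stable (t := t) (A := A) hU (Z := fun x => Y x * Q) (by
    intro x hx
    refine ⟨(hY x hx).1, fun a b => ?_⟩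
    have h1 := hasDerivAt_mat.1 (hY x hx).2.2
    have h2 : HasDerivAt (fun y => ∑ c, Y y a c * Q c b)
        (∑ c, (sys t A x * Y x) a c * Q c b) x :=
      HasDerivAt.fun_sum fun c _ => (h1 a c).mul_const _
    have e : ∑ c, sys t A x a c * (Y x * Q) c b = ∑ c, (sys t A x * Y x) a c * Q c b := by
      rw [← Matrix.mul_apply, ← Matrix.mul_apply, Matrix.mul_assoc]
    rw [e]
    exact h2)
  have hrow : ∀ a, (fun b => (if a = b then q none else 0) - q (some (a, b))) ∈
      monoW U fun x => Y x * Q := by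
    intro a x hx b
    have h1 := congrFun (congrFun (mono_PD hD hQ (Y x)) a) b
    rw [Matrix.mul_apply, Matrix.smul_apply, smul_eq_mul] at h1
    have h2 : ∑ c, ((if a = c then q none else 0) - q (some (a, c))).eval x * (Y x * Q) c b =
        (dl t).eval x ^ m * (monoD Q D (Y x) * (Y x * Q) a b -
          ∑ c, monoP Q D (Y x) a c * (Y x * Q) c b) := by
      simp only [eval_sub, sub_mul, Finset.sum_sub_distrib, mul_sub, Finset.mul_sum, ← mul_assoc,
        hq0 x hx, hq1 _ _ x hx]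
      congr 1
      rw [Finset.sum_eq_single a (fun c _ hc => by simp [hc.symm]) (by simp), if_pos rfl]
    show ∑ c, ((if a = c then q none else 0) - q (some (a, c))).eval x * (Y x * Q) c b = 0
    rw [h2, h1, sub_self, mul_zero]
  rcases hi _ hst (fun l hl Φ hΦ x hx b => by
    obtain ⟨z, hz, e⟩ := hW Φ hΦ x hx
    have e1 : z * Q = Q * (z * Q) := by
      refine Matrix.ext_iff_mulVec.2 fun v => ?_
      rw [← mulVec_mulVec, ← mulVec_mulVec, ← mulVec_mulVec, hQ2 _ (hZ z hz _ (hQ1 v))]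
    have e2 : (fun a => (l a).eval x) ᵥ* (Y x * Q) = 0 := funext (hl x hx)
    have e3 : (fun a => ((l ᵥ* Φ) a).eval x) = (fun a => (l a).eval x) ᵥ* Φ.map (eval x) := by
      funext a
      simp only [vecMul, dotProduct, eval_finsetSum, eval_mul, Matrix.map_apply]
    have e4 : (fun a => ((l ᵥ* Φ) a).eval x) ᵥ* (Y x * Q) = 0 := by
      rw [e3, vecMul_vecMul, ← Matrix.mul_assoc, e, Matrix.mul_assoc, e1, ← Matrix.mul_assoc,
        ← vecMul_vecMul, e2, zero_vecMul]
    exact congrFun e4 b) with h | h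
  · apply hQo
    ext a b
    have h1 := hrow a
    rw [h, Submodule.mem_bot] at h1
    have h2 := congrArg (eval x₀) (congrFun h1 b)
    have hδ := pow_ne_zero m (mono_dl_ne t (hY x₀ hx₀).1)
    have e1 : monoD Q D (Y x₀) = 1 := by simp [monoD, hY0]
    have e2 : monoP Q D (Y x₀) = Q := by simp [monoP, hY0]
    have h3 := hq0 x₀ hx₀
    have h4 := hq1 a b x₀ hx₀
    rw [e1] at h3
    rw [e2] at h4
    apply mul_left_cancel₀ hδ
    rw [h4, Matrix.one_apply]
    by_cases hab : a = b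
    · simp only [hab, if_true, eval_sub, Pi.zero_apply, eval_zero] at h2 ⊢
      rw [h3]
      exact (sub_eq_zero.1 h2).symm
    · simp only [hab, if_false, zero_sub, eval_neg, Pi.zero_apply, eval_zero, neg_eq_zero] at h2 ⊢
      rw [h2, mul_zero]
  · choose c hc0 hc using fun a => h (Pi.single a 1)
    have hp : ∏ a, c a ≠ 0 := Finset.prod_ne_zero_iff.2 fun a _ => hc0 a
    have hinf : U.Infinite := infinite_of_mem_nhds x₀ (hU.mem_nhds hx₀)
    obtain ⟨x, hx, hxr⟩ := hinf.exists_notMem_finset (∏ a, c a).roots.toFinset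
    rw [Multiset.mem_toFinset, mem_roots hp, IsRoot.def, eval_prod, Finset.prod_eq_zero_iff] at hxr
    push Not at hxr
    have hz : Y x * Q = 0 := by
      ext a b
      have h1 := hc a x hx b
      rw [Finset.sum_eq_single a (fun d _ hd => by simp [hd]) (by simp)] at h1
      simp only [Pi.smul_apply, Pi.single_eq_same, smul_eq_mul, mul_one] at h1
      exact (mul_eq_zero.1 h1).resolve_left (hxr a (Finset.mem_univ a))
    apply hQ0
    have hu : IsUnit (Y x) := (Matrix.isUnit_iff_isUnit_det _).2 (hY x hx).2.1.isUnit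
    exact hu.mul_right_eq_zero.1 hz

end Pool.Agent.GR.GC
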