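import Pool.Agent.Lib.MP_aa40d3_nt.MG.Defs

/-! Coverings: definitions for the group theoretic part. -/

open Matrix

namespace Pool.Agent.GR.GC

variable {G : Type} [Group G] {d m : ℕ}

/-- Moves on lists, in both directions. -/
inductive Hur : List G → List G → Prop
  | refl (l : List G) : Hur l l
  | left {l A B : List G} {x y : G} : Hur l (A ++ x :: y :: B) →
      Hur l (A ++ y :: (y⁻¹ * x * y) :: B)
  | right {l A B : List G} {x y : G} : Hur l (A ++ x :: y :: B) →
      Hur l (A ++ (x * y * x⁻¹) :: x :: B)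

/-- The group generated by a list. -/
def gen (l : List G) : Subgroup G := Subgroup.closure {x | x ∈ l}

/-- All initial products of equivalent lists have finite order. -/
def FinL (l : List G) : Prop := ∀ A B, Hur l (A ++ B) → IsOfFinOrder A.prod

/-- A system of `d` sheets: `π` permutes them and `K i` acts trivially on the sheet `i`. -/
structure BS (G : Type) [Group G] (d : ℕ) where
  π : G →* Equiv.Perm (Fin d)
  K : Fin d → Subgroup G
  fix : ∀ i, ∀ x ∈ K i, π x i = i
  conj : ∀ γ i, ∀ x ∈ K i, γ * x * γ⁻¹ ∈ K (π γ i)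
  sep : ∀ x, (∀ i, x ∈ K i) → x = 1

namespace BS

variable (b : BS G d)

/-- An involution that exchanges two sheets and is trivial on the others. -/
def Swap (x : G) (i j : Fin d) : Prop :=
  i ≠ j ∧ b.π x = Equiv.swap i j ∧ x * x = 1 ∧ ∀ l, l ≠ i → l ≠ j → x ∈ b.K l

/-- An element that keeps all sheets and is trivial on all but `r` of them. -/
def Punc (r : ℕ) (x : G) : Prop :=
  b.π x = 1 ∧ ∃ T : Finset (Fin d), T.card ≤ r ∧ ∀ l, l ∉ T → x ∈ b.K l

/-- One of the two types. -/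
def Ok (r : ℕ) (x : G) : Prop := (∃ i j, b.Swap x i j) ∨ b.Punc r x

/-- `H` is trivial outside `S`. -/
def Sup (H : Subgroup G) (S : Finset (Fin d)) : Prop := ∀ x ∈ H, ∀ l, l ∉ S → x ∈ b.K l

/-- `H` is transitive on `S`. -/
def Trans (H : Subgroup G) (S : Finset (Fin d)) : Prop :=
  ∀ i ∈ S, ∀ j ∈ S, ∃ x ∈ H, b.π x i = j

/-- Between sheets of `S` the members of `H` act as members of `H'`. -/
def Agree (H H' : Subgroup G) (S : Finset (Fin d)) : Prop :=
  ∀ y ∈ H, ∀ i ∈ S, b.π y i ∈ S → ∃ h ∈ H', h⁻¹ * y ∈ b.K i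

/-- All types of exchanges occur. -/
def Conn (S : Finset (Fin d)) : Prop := ∀ i ∈ S, ∀ j ∈ S, i ≠ j → ∃ z, b.Swap z i j

/-- The number of members that move some sheet. -/
def cnt (l : List G) : ℕ := l.countP fun x => b.π x ≠ 1

end BS

/-- Orthogonal idempotents permuted by a faithful representation. -/
structure BR (σ : G →* Mt m) (d : ℕ) where
  e : Fin d → Mt m
  π : G →* Equiv.Perm (Fin d)
  orth : ∀ i j, i ≠ j → e i * e j = 0
  sum : ∑ i, e i = 1
  act : ∀ x i, σ x * e i = e (π x i) * σ x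
  inj : Function.Injective σ

namespace BR

variable {σ : G →* Mt m} (b : BR σ d)

theorem idem (i : Fin d) : b.e i * b.e i = b.e i := by
  conv_rhs => rw [← Matrix.mul_one (b.e i), ← b.sum, Finset.mul_sum]
  exact (Finset.sum_eq_single i (fun j _ hj => b.orth i j hj.symm)
    fun h => absurd (Finset.mem_univ i) h).symm

/-- The elements that act trivially on a sheet. -/
def K (i : Fin d) : Subgroup G where
  carrier := {x | b.π x i = i ∧ σ x * b.e i = b.e i}
  one_mem' := ⟨by rw [map_one]; rfl, by rw [map_one, Matrix.one_mul]⟩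
  mul_mem' := fun {x y} hx hy => ⟨by rw [map_mul, Equiv.Perm.mul_apply, hy.1, hx.1],
    by rw [map_mul, Matrix.mul_assoc, hy.2, hx.2]⟩
  inv_mem' := fun {x} hx => ⟨by rw [map_inv, Equiv.Perm.inv_eq_iff_eq, hx.1], by
    conv_lhs => rw [← hx.2, ← Matrix.mul_assoc, rep_inv_mul, Matrix.one_mul]⟩

theorem mem_K {x : G} {i : Fin d} : x ∈ b.K i ↔ b.π x i = i ∧ σ x * b.e i = b.e i := Iff.rfl

/-- The system of sheets. -/
def bs : BS G d where
  π := b.π
  K := b.K
  fix := fun _ _ hx => hx.1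
  conj := fun γ i x hx => ⟨by simp [hx.1], by
    have h := b.act γ⁻¹ (b.π γ i)
    rw [map_inv b.π, Equiv.Perm.coe_inv, Equiv.symm_apply_apply] at h
    rw [map_mul, map_mul, Matrix.mul_assoc, h, Matrix.mul_assoc, ← Matrix.mul_assoc (σ x), hx.2,
      ← Matrix.mul_assoc, b.act, Matrix.mul_assoc, rep_mul_inv, Matrix.mul_one]⟩
  sep := fun x hx => b.inj (by
    rw [map_one, ← Matrix.mul_one (σ x), ← b.sum, Finset.mul_sum]
    exact Finset.sum_congr rfl fun i _ => (hx i).2)

/-- The stabiliser of `i` in `H` is irreducible on the sheet `i`. -/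
def Irr1 (H : Subgroup G) (i : Fin d) : Prop :=
  ∀ U : Submodule ℂ (Fin m → ℂ), (∀ v ∈ U, b.e i *ᵥ v = v) →
    (∀ y ∈ H, b.π y i = i → ∀ v ∈ U, σ y *ᵥ v ∈ U) → U = ⊥ ∨ ∀ v, b.e i *ᵥ v ∈ U

end BR

theorem mem_gen {l : List G} {x : G} (h : x ∈ l) : x ∈ gen l := Subgroup.subset_closure h

theorem gen_le {l : List G} {H : Subgroup G} : gen l ≤ H ↔ ∀ x ∈ l, x ∈ H :=
  Subgroup.closure_le H

end Pool.Agent.GR.GC
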