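import Pool.Agent.Lib.MP_aa40d3_nt.MP.FacT

/-! The fibres of a stable algebra. -/

open Polynomial Matrix Set Filter Topology
open scoped Matrix.Norms.Operator

namespace Pool.Agent.GR.GC

variable {n N : ℕ} {t : Fin n → ℂ} {A : Fin n → Mat N}
  {W : Subalgebra ℂ[X] (Matrix (Fin N) (Fin N) ℂ[X])}

/-- The values at `x`. -/
def fib (W : Subalgebra ℂ[X] (Matrix (Fin N) (Fin N) ℂ[X])) (x : ℂ) : Subalgebra ℂ (Mat N) where
  carrier := {z | ∃ Φ ∈ W, Φ.map (eval x) = z}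
  mul_mem' := by
    rintro _ _ ⟨Φ, h, rfl⟩ ⟨Ψ, h', rfl⟩
    exact ⟨Φ * Ψ, W.mul_mem h h', Matrix.map_mul (f := evalRingHom x)⟩
  add_mem' := by
    rintro _ _ ⟨Φ, h, rfl⟩ ⟨Ψ, h', rfl⟩
    exact ⟨Φ + Ψ, W.add_mem h h', Matrix.map_add _ (fun _ _ => eval_add) _ _⟩
  algebraMap_mem' := fun c => ⟨algebraMap ℂ[X] _ (C c), W.algebraMap_mem _, by
    ext a b
    by_cases h : a = b <;> simp [Matrix.algebraMap_matrix_apply, h]⟩

theorem mem_fib {x : ℂ} {z : Mat N} : z ∈ fib W x ↔ ∃ Φ ∈ W, Φ.map (eval x) = z := Iff.rfl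

/-- By induction on `k`, every `u ∈ F` has `k ≤ analyticOrderAt u a`
(`AnalyticAt.analyticOrderAt_deriv_add_one`, `analyticOrderAt_mul`, `analyticOrderAt_congr`);
`analyticOrderAt_eq_top`. -/
theorem fib_zero {F : Set (ℂ → ℂ)} {a : ℂ} {δ : ℂ → ℂ} (hδ : AnalyticAt ℂ δ a) (h0 : δ a ≠ 0)
    (h : ∀ u ∈ F, AnalyticAt ℂ u a ∧ u a = 0 ∧ ∃ u' ∈ F, ∀ᶠ x in 𝓝 a, u' x = δ x * deriv u x) :
    ∀ u ∈ F, ∀ᶠ x in 𝓝 a, u x = 0 := by
  have key : ∀ k : ℕ, ∀ u ∈ F, (k : ℕ∞) ≤ analyticOrderAt u a := by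
    intro k
    induction k with
    | zero => intro u _; simp
    | succ k ih =>
      intro u hu
      obtain ⟨h1, h2, u', hu', h3⟩ := h u hu
      have h4 : analyticOrderAt (deriv u) a + 1 = analyticOrderAt u a := by
        simpa [h2] using h1.analyticOrderAt_deriv_add_one
      have h5 : analyticOrderAt u' a = analyticOrderAt (δ * deriv u) a :=
        analyticOrderAt_congr h3
      rw [analyticOrderAt_mul hδ h1.deriv, hδ.analyticOrderAt_eq_zero.2 h0, zero_add] at h5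
      rw [← h4, ← h5, Nat.cast_succ]
      exact add_le_add (ih u' hu') le_rfl
  intro u hu
  exact analyticOrderAt_eq_top.1 (ENat.eq_top_iff_forall_ge.2 fun k => key k u hu)

end Pool.Agent.GR.GC
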