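import Pool.Agent.Lib.MP_aa40d3_nt.GC.FibA

/-! The fibres of a stable algebra. -/

open Polynomial Matrix Set Filter Topology
open scoped Matrix.Norms.Operator

namespace Pool.Agent.GR.GC

variable {n N : ℕ} {t : Fin n → ℂ} {A : Fin n → Mat N}
  {W : Subalgebra ℂ[X] (Matrix (Fin N) (Fin N) ℂ[X])}

/-- A convex open neighbourhood of a segment without singular points. -/
theorem fibb_nhd {a c : ℂ} (h : ∀ i, t i ∉ segment ℝ a c) :
    ∃ V : Set ℂ, IsOpen V ∧ Convex ℝ V ∧ a ∈ V ∧ c ∈ V ∧ ∀ i, t i ∉ V := by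
  have hK : IsCompact (segment ℝ a c) := by
    rw [segment_eq_image']
    exact isCompact_Icc.image (by fun_prop)
  have hO : IsOpen (Set.range t)ᶜ := (Set.finite_range t).isClosed.isOpen_compl
  have hs : segment ℝ a c ⊆ (Set.range t)ᶜ := by
    rintro x hx ⟨i, rfl⟩
    exact h i hx
  obtain ⟨δ, hδ, hsub⟩ := hK.exists_thickening_subset_open hO hs
  refine ⟨Metric.thickening δ (segment ℝ a c), Metric.isOpen_thickening,
    (convex_segment a c).thickening δ,
    Metric.self_subset_thickening hδ _ (left_mem_segment ℝ a c),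
    Metric.self_subset_thickening hδ _ (right_mem_segment ℝ a c), fun i hi => ?_⟩
  exact hsub hi ⟨i, rfl⟩

/-- The derivative of a conjugated polynomial matrix. -/
theorem fibb_deriv [NeZero N] {U : Set ℂ} (hU : IsOpen U) {Y : ℂ → Mat N}
    (hY : ∀ x ∈ U, (∀ i, x ≠ t i) ∧ IsUnit (Y x) ∧ HasDerivAt Y (sys t A x * Y x) x)
    (Φ : Matrix (Fin N) (Fin N) ℂ[X]) {x : ℂ} (hx : x ∈ U) :
    ∃ z' : Mat N, HasDerivAt (fun y => Ring.inverse (Y y) * (Φ.map (eval y) * Y y)) z' x ∧
      Ring.inverse (Y x) * ((dl t • Φ.map derivative - (pm t A * Φ - Φ * pm t A)).map (eval x) *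
        Y x) = (dl t).eval x • z' := by
  obtain ⟨hne, hu, hd⟩ := hY x hx
  set z : ℂ → Mat N := fun y => Ring.inverse (Y y) * (Φ.map (eval y) * Y y) with hz
  have hze : ∀ y ∈ U, Φ.map (eval y) * Y y = Y y * z y := fun y hy => by
    simp only [hz]
    rw [Ring.mul_inverse_cancel_left _ _ (hY y hy).2.1]
  have h1 := hasDerivAt_polyMat Φ x
  obtain ⟨z', h2⟩ : ∃ z' : Mat N, HasDerivAt z z' x :=
    ⟨_, ((hd.differentiableAt.inverse hu).mul
      (h1.differentiableAt.mul hd.differentiableAt)).hasDerivAt⟩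
  have h6 : HasDerivAt (fun y => (Φ.map (eval y) : Mat N) * Y y)
      (sys t A x * Y x * z x + Y x * z') x := by
    refine (hd.mul h2).congr_of_eventuallyEq ?_
    filter_upwards [hU.mem_nhds hx] with y hy using hze y hy
  have h7 := (h1.mul hd).unique h6
  refine ⟨z', h2, ?_⟩
  have e1 : (pm t A).map (eval x) = (dl t).eval x • sys t A x := by
    ext a b
    exact mono_pm t A hne a b
  have e2 : (dl t • Φ.map derivative - (pm t A * Φ - Φ * pm t A)).map (eval x) =
      (dl t).eval x • (Φ.map derivative).map (eval x) -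
        ((pm t A).map (eval x) * Φ.map (eval x) - Φ.map (eval x) * (pm t A).map (eval x)) := by
    ext a b
    simp [Matrix.mul_apply, eval_finsetSum]
  have e3 : (dl t • Φ.map derivative - (pm t A * Φ - Φ * pm t A)).map (eval x) * Y x =
      Y x * ((dl t).eval x • z') := by
    rw [Matrix.mul_assoc (sys t A x), ← hze x hx] at h7
    rw [e2, e1, smul_mul_assoc, mul_smul_comm, ← smul_sub, ← smul_sub, smul_mul_assoc,
      mul_smul_comm, sub_mul, sub_mul, Matrix.mul_assoc, Matrix.mul_assoc,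
      eq_sub_of_add_eq' h7.symm]
    congr 1
    abel
  rw [e3, Ring.inverse_mul_cancel_left _ _ hu]

/-- Let `V` be a convex open set that contains the segment and no `t i` (a thickening:
`IsCompact.exists_thickening_subset_open`, `Convex.thickening`), `Y = T t A a` on `V`
(`hasDerivAt_T`). If `Ring.inverse (Y c) * z * Y c` is not in `fib W a`, a linear form `f` kills
`fib W a` but not this matrix (`Submodule.exists_dual_map_eq_bot_of_notMem`). The functions
`x ↦ f (Ring.inverse (Y x) * Φ x * Y x)`, `Φ ∈ W`, are analytic on `V`, vanish at `a`, and `dl t`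
times the derivative is the function for `dl t • Φ' - [pm, Φ]` (computation as in `primt_stable`,
`mono_pm`). `fib_zero` and the identity theorem. -/
theorem fib_T [NeZero N]
    (hW : ∀ Φ ∈ W, dl t • Φ.map derivative - (pm t A * Φ - Φ * pm t A) ∈ W) {a c : ℂ}
    (h : ∀ i, t i ∉ segment ℝ a c) :
    ∀ z ∈ fib W c, ∃ z' ∈ fib W a, z * T t A a c = T t A a c * z' := by
  obtain ⟨V, hVo, hVc, haV, hcV, hV⟩ := fibb_nhd h
  have hY : ∀ x ∈ V, (∀ i, x ≠ t i) ∧ IsUnit (T t A a x) ∧
      HasDerivAt (fun y => T t A a y) (sys t A x * T t A a x) x := fun x hx =>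
    ⟨fun i hi => hV i (hi ▸ hx), isUnit_Tr _,
      hasDerivAt_T A fun i hi => hV i (hVc.segment_subset haV hx hi)⟩
  rintro _ ⟨Φ₀, hΦ₀, rfl⟩
  refine ⟨Ring.inverse (T t A a c) * (Φ₀.map (eval c) * T t A a c), ?_,
    (Ring.mul_inverse_cancel_left _ _ (hY c hcV).2.1).symm⟩
  by_contra hn
  have hn' : Ring.inverse (T t A a c) * (Φ₀.map (eval c) * T t A a c) ∉
      Subalgebra.toSubmodule (fib W a) := hn
  obtain ⟨f, hf, hf0⟩ := Submodule.exists_dual_map_eq_bot_of_notMem hn' inferInstance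
  let u : Matrix (Fin N) (Fin N) ℂ[X] → ℂ → ℂ := fun Φ y =>
    f (Ring.inverse (T t A a y) * (Φ.map (eval y) * T t A a y))
  have hder : ∀ Φ, ∀ x ∈ V, ∃ w : ℂ, HasDerivAt (u Φ) w x ∧
      u (dl t • Φ.map derivative - (pm t A * Φ - Φ * pm t A)) x = (dl t).eval x * w := by
    intro Φ x hx
    obtain ⟨z', h1, h2⟩ := fibb_deriv hVo hY Φ hx
    refine ⟨f z', (LinearMap.toContinuousLinearMap f).hasFDerivAt.comp_hasDerivAt x h1, ?_⟩
    simp only [u]
    rw [h2, map_smul, smul_eq_mul]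
  have han : ∀ Φ, AnalyticOnNhd ℂ (u Φ) V := fun Φ =>
    DifferentiableOn.analyticOnNhd (fun x hx => by
      obtain ⟨w, hw, -⟩ := hder Φ x hx
      exact hw.differentiableAt.differentiableWithinAt) hVo
  have hδ : AnalyticAt ℂ (fun x => (dl t).eval x) a :=
    (Polynomial.differentiable (dl t)).analyticAt a
  have hz := fib_zero (F := {v | ∃ Φ ∈ W, v = u Φ}) hδ (mono_dl_ne t (hY a haV).1) (by
    rintro _ ⟨Φ, hΦ, rfl⟩
    refine ⟨han Φ a haV, ?_, _, ⟨_, hW Φ hΦ, rfl⟩, ?_⟩
    · simp only [u]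
      rw [T_self, Ring.inverse_one, one_mul, mul_one, ← Submodule.mem_bot ℂ, ← hf0]
      exact Submodule.mem_map_of_mem (mem_fib.2 ⟨Φ, hΦ, rfl⟩)
    · filter_upwards [hVo.mem_nhds haV] with x hx
      obtain ⟨w, hw, e⟩ := hder Φ x hx
      rw [e, hw.deriv]) (u Φ₀) ⟨Φ₀, hΦ₀, rfl⟩
  exact hf ((han Φ₀).eqOn_zero_of_preconnected_of_eventuallyEq_zero hVc.isPreconnected haV hz hcV)

end Pool.Agent.GR.GC
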