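import Pool.Agent.Lib.MP_aa40d3_nt.GC.HurA

/-! Moves on lists. -/

namespace Pool.Agent.GR.GC

variable {G : Type} [Group G] {l l' l'' : List G}

theorem hur_oneL (T : List G) (b : G) :
    Hur (T ++ [b]) (b :: T.map fun x => b⁻¹ * x * b) := by
  induction T with
  | nil => exact Hur.refl _
  | cons t T ih =>
    have h1 : Hur ([t] ++ (T ++ [b])) ([t] ++ (b :: T.map fun x => b⁻¹ * x * b)) :=
      ih.app_left [t]
    have h2 := Hur.left (A := []) (x := t) (y := b) (B := T.map fun x => b⁻¹ * x * b)
      (by simpa using h1)
    simpa using h2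

theorem hur_oneR (b : G) (T : List G) :
    Hur (b :: T) ((T.map fun x => b * x * b⁻¹) ++ [b]) := by
  induction T with
  | nil => exact Hur.refl _
  | cons t T ih =>
    have h1 : Hur (b :: t :: T) ((b * t * b⁻¹) :: b :: T) :=
      Hur.right (A := []) (x := b) (y := t) (B := T) (Hur.refl _)
    have h2 := ih.app_left [b * t * b⁻¹]
    exact h1.trans (by simpa using h2)

/-- A block jumps to the left and keeps its values. Induction on `B`, and on `T` for one element. -/
theorem hur_blockL (T B : List G) :
    Hur (T ++ B) (B ++ T.map fun x => B.prod⁻¹ * x * B.prod) := by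
  induction B generalizing T with
  | nil => simpa using Hur.refl T
  | cons b B ih =>
    have h1 := (hur_oneL T b).app_right B
    have h2 := (ih (T.map fun x => b⁻¹ * x * b)).app_left [b]
    have h3 : Hur (T ++ b :: B) ([b] ++ ((T.map fun x => b⁻¹ * x * b) ++ B)) := by
      simpa using h1
    have h4 := h3.trans h2
    simpa [List.map_map, Function.comp_def, mul_assoc] using h4

/-- A block jumps to the right and keeps its values. -/
theorem hur_blockR (B T : List G) :
    Hur (B ++ T) ((T.map fun x => B.prod * x * B.prod⁻¹) ++ B) := by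
  induction B generalizing T with
  | nil => simpa using Hur.refl T
  | cons b B ih =>
    have h1 := (ih T).app_left [b]
    have h2 := (hur_oneR b (T.map fun x => B.prod * x * B.prod⁻¹)).app_right B
    have h3 : Hur (b :: B ++ T) (b :: (T.map fun x => B.prod * x * B.prod⁻¹) ++ B) := by
      simpa using h1
    have h4 := h3.trans h2
    simpa [List.map_map, Function.comp_def, mul_assoc] using h4

/-- A member jumps to the front. -/
theorem FinL.mem (hf : FinL l) {x : G} (hx : x ∈ l) : IsOfFinOrder x := by
  obtain ⟨A, B, rfl⟩ := List.append_of_mem hx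
  have h := (hur_oneL A x).app_right B
  have h2 := hf [x] ((A.map fun y => x⁻¹ * y * x) ++ B) (by simpa using h)
  simpa using h2

/-- Induction on `l` (from the right, or `hur_blockL` with one element): the members with `P` jump
to the left and keep their values. -/
theorem gather_left {P Q : G → Prop} (hPQ : ∀ a c, P a → Q c → Q (a⁻¹ * c * a)) (l : List G)
    (hl : ∀ x ∈ l, P x ∨ Q x) : ∃ A B, Hur l (A ++ B) ∧ (∀ a ∈ A, P a) ∧ (∀ c ∈ B, Q c) ∧
      ∀ x ∈ l, P x → x ∈ A := by
  induction l using List.reverseRecOn with
  | nil => exact ⟨[], [], Hur.refl _, by simp, by simp, by simp⟩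
  | append_singleton l x ih =>
    obtain ⟨A, B, h, hA, hB, hm⟩ := ih fun y hy => hl y (by simp [hy])
    have h1 := h.app_right [x]
    by_cases hx : P x
    · have h2 := (hur_oneL B x).app_left A
      refine ⟨A ++ [x], B.map fun y => x⁻¹ * y * x, ?_, ?_, ?_, ?_⟩
      · exact h1.trans (by simpa using h2)
      · intro a ha
        rcases List.mem_append.1 ha with ha | ha
        · exact hA a ha
        · rw [List.mem_singleton.1 ha]; exact hx
      · intro c hc
        obtain ⟨y, hy, rfl⟩ := List.mem_map.1 hc
        exact hPQ x y hx (hB y hy)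
      · intro y hy hP
        rcases List.mem_append.1 hy with hy | hy
        · exact List.mem_append_left _ (hm y hy hP)
        · exact List.mem_append_right _ hy
    · refine ⟨A, B ++ [x], by simpa using h1, hA, ?_, ?_⟩
      · intro c hc
        rcases List.mem_append.1 hc with hc | hc
        · exact hB c hc
        · rw [List.mem_singleton.1 hc]
          exact (hl x (by simp)).resolve_left hx
      · intro y hy hP
        rcases List.mem_append.1 hy with hy | hy
        · exact hm y hy hP
        · rw [List.mem_singleton.1 hy] at hP
          exact absurd hP hx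

/-- The members with `P` jump to the right and keep their values. -/
theorem gather_right {P Q : G → Prop} (hPQ : ∀ a c, P a → Q c → Q (a * c * a⁻¹)) (l : List G)
    (hl : ∀ x ∈ l, P x ∨ Q x) : ∃ A B, Hur l (A ++ B) ∧ (∀ c ∈ A, Q c) ∧ ∀ a ∈ B, P a := by
  induction l with
  | nil => exact ⟨[], [], Hur.refl _, by simp, by simp⟩
  | cons x l ih =>
    obtain ⟨A, B, h, hA, hB⟩ := ih fun y hy => hl y (by simp [hy])
    have h1 := h.app_left [x]
    rcases hl x (by simp) with hx | hx
    · have h2 := (hur_oneR x A).app_right B
      refine ⟨A.map fun y => x * y * x⁻¹, x :: B, ?_, ?_, ?_⟩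
      · have h3 : Hur (x :: l) (x :: A ++ B) := by simpa using h1
        exact h3.trans (by simpa using h2)
      · intro c hc
        obtain ⟨y, hy, rfl⟩ := List.mem_map.1 hc
        exact hPQ x y hx (hA y hy)
      · intro a ha
        rcases List.mem_cons.1 ha with rfl | ha
        · exact hx
        · exact hB a ha
    · refine ⟨x :: A, B, by simpa using h1, ?_, hB⟩
      intro c hc
      rcases List.mem_cons.1 hc with rfl | hc
      · exact hx
      · exact hA c hc

end Pool.Agent.GR.GC
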