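import Pool.Agent.Lib.MP_aa40d3_nt.GC.Defs

/-! Moves on lists. -/

namespace Pool.Agent.GR.GC

variable {G : Type} [Group G] {l l' l'' : List G}

theorem Hur.trans (h : Hur l l') (h' : Hur l' l'') : Hur l l'' := by
  induction h' with
  | refl => exact h
  | left _ ih => exact Hur.left ih
  | right _ ih => exact Hur.right ih

theorem Hur.ctx (h : Hur l l') (A B : List G) : Hur (A ++ l ++ B) (A ++ l' ++ B) := by
  induction h with
  | refl => exact Hur.refl _
  | @left C D x y _ ih =>
    have e1 : A ++ (C ++ x :: y :: D) ++ B = (A ++ C) ++ x :: y :: (D ++ B) := by simp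
    have e2 : A ++ (C ++ y :: (y⁻¹ * x * y) :: D) ++ B
        = (A ++ C) ++ y :: (y⁻¹ * x * y) :: (D ++ B) := by simp
    rw [e1] at ih
    rw [e2]
    exact Hur.left ih
  | @right C D x y _ ih =>
    have e1 : A ++ (C ++ x :: y :: D) ++ B = (A ++ C) ++ x :: y :: (D ++ B) := by simp
    have e2 : A ++ (C ++ (x * y * x⁻¹) :: x :: D) ++ B
        = (A ++ C) ++ (x * y * x⁻¹) :: x :: (D ++ B) := by simp
    rw [e1] at ih
    rw [e2]
    exact Hur.right ih

theorem Hur.app_left (h : Hur l l') (A : List G) : Hur (A ++ l) (A ++ l') := by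
  simpa using h.ctx A []

theorem Hur.app_right (h : Hur l l') (B : List G) : Hur (l ++ B) (l' ++ B) := by
  simpa using h.ctx [] B

theorem Hur.prod (h : Hur l l') : l'.prod = l.prod := by
  induction h with
  | refl => rfl
  | left _ ih => rw [← ih]; simp [mul_assoc]
  | right _ ih => rw [← ih]; simp [mul_assoc]

theorem Hur.length (h : Hur l l') : l'.length = l.length := by
  induction h with
  | refl => rfl
  | left _ ih => rw [← ih]; simp
  | right _ ih => rw [← ih]; simp

theorem hura_gen_le {A B : List G} {x y z w : G}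
    (h : ∀ H : Subgroup G, x ∈ H → y ∈ H → z ∈ H ∧ w ∈ H) :
    GC.gen (A ++ z :: w :: B) ≤ GC.gen (A ++ x :: y :: B) := by
  have h' := h (GC.gen (A ++ x :: y :: B)) (mem_gen (by simp)) (mem_gen (by simp))
  refine gen_le.2 fun t ht => ?_
  simp only [List.mem_append, List.mem_cons] at ht
  rcases ht with ht | rfl | rfl | ht
  · exact mem_gen (by simp [ht])
  · exact h'.1
  · exact h'.2
  · exact mem_gen (by simp [ht])

theorem hura_gen_eq {A B : List G} {x y z w : G}
    (h : ∀ H : Subgroup G, x ∈ H → y ∈ H → z ∈ H ∧ w ∈ H)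
    (h' : ∀ H : Subgroup G, z ∈ H → w ∈ H → x ∈ H ∧ y ∈ H) :
    GC.gen (A ++ z :: w :: B) = GC.gen (A ++ x :: y :: B) :=
  le_antisymm (hura_gen_le h) (hura_gen_le h')

theorem Hur.gen (h : Hur l l') : gen l' = gen l := by
  induction h with
  | refl => rfl
  | @left A B x y _ ih =>
    rw [← ih]
    refine hura_gen_eq (fun H hx hy => ⟨hy, H.mul_mem (H.mul_mem (H.inv_mem hy) hx) hy⟩)
      fun H hy hz => ⟨?_, hy⟩
    simpa [mul_assoc] using H.mul_mem (H.mul_mem hy hz) (H.inv_mem hy)
  | @right A B x y _ ih =>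
    rw [← ih]
    refine hura_gen_eq (fun H hx hy => ⟨H.mul_mem (H.mul_mem hx hy) (H.inv_mem hx), hx⟩)
      fun H hz hx => ⟨hx, ?_⟩
    simpa [mul_assoc] using H.mul_mem (H.mul_mem (H.inv_mem hx) hz) hx

theorem Hur.all (h : Hur l l') {P : G → Prop} (hP : ∀ γ x, P x → P (γ * x * γ⁻¹))
    (hl : ∀ x ∈ l, P x) : ∀ x ∈ l', P x := by
  induction h with
  | refl => exact hl
  | @left A B x y _ ih =>
    intro t ht
    simp only [List.mem_append, List.mem_cons] at ht
    rcases ht with ht | rfl | rfl | ht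
    · exact ih t (by simp [ht])
    · exact ih t (by simp)
    · simpa using hP y⁻¹ x (ih x (by simp))
    · exact ih t (by simp [ht])
  | @right A B x y _ ih =>
    intro t ht
    simp only [List.mem_append, List.mem_cons] at ht
    rcases ht with ht | rfl | rfl | ht
    · exact ih t (by simp [ht])
    · exact hP x y (ih y (by simp))
    · exact ih t (by simp)
    · exact ih t (by simp [ht])

theorem hura_conj {d : ℕ} (b : BS G d) (γ x : G) : b.π (γ * x * γ⁻¹) = 1 ↔ b.π x = 1 := by
  rw [map_mul, map_mul, map_inv, mul_inv_eq_one, mul_eq_left]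

theorem Hur.cnt {d : ℕ} (b : BS G d) (h : Hur l l') : b.cnt l' = b.cnt l := by
  induction h with
  | refl => rfl
  | @left A B x y _ ih =>
    have e : b.π (y⁻¹ * x * y) = 1 ↔ b.π x = 1 := by simpa using hura_conj b y⁻¹ x
    rw [← ih]
    simp only [BS.cnt, List.countP_append, List.countP_cons, ne_eq, e]
    omega
  | @right A B x y _ ih =>
    rw [← ih]
    simp only [BS.cnt, List.countP_append, List.countP_cons, ne_eq, hura_conj]
    omega

theorem FinL.hur (hf : FinL l) (h : Hur l l') : FinL l' := fun A B h' => hf A B (h.trans h')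

theorem FinL.left {A B : List G} (hf : FinL (A ++ B)) : FinL A := fun C D h =>
  hf C (D ++ B) (by simpa using h.app_right B)

end Pool.Agent.GR.GC
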