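import Pool.Agent.Lib.MP_aa40d3_nt.GC.Bt

/-! Irreducibility and invariant algebras. -/

open Matrix

namespace Pool.Agent.GR.GC

variable {G : Type} [Group G] {d m r : ℕ} {σ : G →* Mt m} {S : Finset (Fin d)}

/-- An eigenspace of `y` is invariant (`Module.End.exists_eigenvalue` for `toLin' y`). -/
theorem schur [NeZero m] (hI : IrrR σ) {y : Mt m} (h : ∀ x, σ x * y = y * σ x) : Scl y := by
  obtain ⟨c, hc⟩ := Module.End.exists_eigenvalue (Matrix.toLin' y)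
  have hU := hI (Module.End.eigenspace (Matrix.toLin' y) c) fun γ v hv => by
    rw [Module.End.mem_eigenspace_iff, Matrix.toLin'_apply] at hv ⊢
    rw [mulVec_mulVec, ← h, ← mulVec_mulVec, hv, mulVec_smul]
  refine ⟨c, Matrix.ext_iff_mulVec.2 fun v => ?_⟩
  have hv : v ∈ Module.End.eigenspace (Matrix.toLin' y) c := by
    rw [hU.resolve_left hc]; exact Submodule.mem_top
  rw [Module.End.mem_eigenspace_iff, Matrix.toLin'_apply] at hv
  rw [hv, smul_mulVec, one_mulVec]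

theorem irra_conj (b : BR σ d) (hs : b.bs.Sup ⊤ S) (γ : G) {x : G}
    (hx : b.π x = 1 ∧ ∃ c ∈ S, x ∈ b.K c) :
    b.π (γ * x * γ⁻¹) = 1 ∧ ∃ c ∈ S, γ * x * γ⁻¹ ∈ b.K c := by
  obtain ⟨h1, c, hc, h2⟩ := hx
  refine ⟨by simp [h1], b.π γ c, ?_, b.bs.conj γ c x h2⟩
  by_contra hn
  have h3 : b.π γ (b.π γ c) = b.π γ c := (hs γ (Subgroup.mem_top γ) _ hn).1
  rw [(b.π γ).injective h3] at hn
  exact hn hc

/-- Let `D` be the set of the `x` with `π x = 1` that lie in `K c` for some `c ∈ S`; it is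
invariant under conjugation (`π γ` keeps `S` by `hs`). The vectors of the sheet `i` fixed by `D`
form a space as in `Irr1`. If it is the whole sheet then `D ⊆ K i`, so `D ⊆ K j` for all `j ∈ S`
(conjugate by an exchange), so `D = 1` (`sep`). -/
theorem BR.fixed (b : BR σ d) (hs : b.bs.Sup ⊤ S) (hc : b.bs.Conn S) (hi : ∀ i ∈ S, b.Irr1 ⊤ i)
    (h : ∃ x, b.π x = 1 ∧ (∃ c ∈ S, x ∈ b.K c) ∧ x ≠ 1) {i : Fin d} (hS : i ∈ S) {v : Fin m → ℂ}
    (hv : b.e i *ᵥ v = v) (h0 : v ≠ 0) :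
    ∃ x, b.π x = 1 ∧ (∃ c ∈ S, x ∈ b.K c) ∧ σ x *ᵥ v ≠ v := by
  by_contra hcon
  let U : Submodule ℂ (Fin m → ℂ) :=
    { carrier := {w | b.e i *ᵥ w = w ∧
        ∀ x, (b.π x = 1 ∧ ∃ c ∈ S, x ∈ b.K c) → σ x *ᵥ w = w}
      zero_mem' := ⟨mulVec_zero _, fun _ _ => mulVec_zero _⟩
      add_mem' := fun {u w} hu hw => ⟨by rw [mulVec_add, hu.1, hw.1],
        fun x hx => by rw [mulVec_add, hu.2 x hx, hw.2 x hx]⟩
      smul_mem' := fun c w hw => ⟨by rw [mulVec_smul, hw.1],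
        fun x hx => by rw [mulVec_smul, hw.2 x hx]⟩ }
  have hvU : v ∈ U := ⟨hv, fun x hx => by
    by_contra hn
    exact hcon ⟨x, hx.1, hx.2, hn⟩⟩
  have hU := hi i hS U (fun w hw => hw.1) fun y _ hy w hw => by
    refine ⟨?_, fun x hx => ?_⟩
    · have := b.act y i
      rw [hy] at this
      rw [mulVec_mulVec, ← this, ← mulVec_mulVec, hw.1]
    · have := hw.2 _ (irra_conj b hs y⁻¹ hx)
      conv_rhs => rw [← this]
      rw [mulVec_mulVec, mulVec_mulVec, ← map_mul, ← map_mul]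
      congr 2
      group
  have hall := hU.resolve_left fun hb => h0 (by rw [hb] at hvU; exact hvU)
  have hK : ∀ x, (b.π x = 1 ∧ ∃ c ∈ S, x ∈ b.K c) → x ∈ b.K i := fun x hx =>
    ⟨by rw [hx.1]; rfl, Matrix.ext_iff_mulVec.2 fun w => by
      rw [← mulVec_mulVec]; exact (hall w).2 x hx⟩
  obtain ⟨x, h1, h2, h3⟩ := h
  refine h3 (b.bs.sep x fun j => ?_)
  by_cases hj : j ∈ S
  · by_cases hij : i = j
    · exact hij ▸ hK x ⟨h1, h2⟩
    · obtain ⟨z, hz⟩ := hc i hS j hj hij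
      have h4 := b.bs.conj z i _ (hK _ (irra_conj b hs z⁻¹ ⟨h1, h2⟩))
      rw [hz.apply] at h4
      have h5 : z * (z⁻¹ * x * z⁻¹⁻¹) * z⁻¹ = x := by group
      rwa [h5] at h4
  · exact hs x (Subgroup.mem_top x) j hj

end Pool.Agent.GR.GC
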