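import Pool.Agent.Lib.MP_aa40d3_nt.GC.IrrA

/-! Irreducibility and invariant algebras. -/

open Matrix

namespace Pool.Agent.GR.GC

variable {G : Type} [Group G] {d m r : ℕ} {σ : G →* Mt m} {S : Finset (Fin d)}

theorem irrb_sum (b : BR σ d) (v : Fin m → ℂ) : ∑ i, b.e i *ᵥ v = v := by
  rw [← Matrix.sum_mulVec, b.sum, Matrix.one_mulVec]

theorem irrb_act (b : BR σ d) (x : G) (i : Fin d) (v : Fin m → ℂ) :
    b.e (b.π x i) *ᵥ σ x *ᵥ v = σ x *ᵥ b.e i *ᵥ v := by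
  rw [mulVec_mulVec, mulVec_mulVec, b.act]

theorem irrb_fix (b : BR σ d) {x : G} {i : Fin d} (h : x ∈ b.K i) (v : Fin m → ℂ) :
    σ x *ᵥ b.e i *ᵥ v = b.e i *ᵥ v := by
  rw [mulVec_mulVec, h.2]

theorem irrb_move (b : BR σ d) (hc : b.bs.Conn S) {i j c : Fin d} (hij : j ≠ i) (hj : j ∈ S)
    (hcS : c ∈ S) {x : G} (h1 : b.π x = 1) (hx : x ∈ b.K c) {u : Fin m → ℂ}
    (hu : σ x *ᵥ b.e i *ᵥ u ≠ b.e i *ᵥ u) :
    ∃ y, b.π y = 1 ∧ y ∈ b.K j ∧ σ y *ᵥ b.e i *ᵥ u ≠ b.e i *ᵥ u := by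
  by_cases hcj : c = j
  · exact ⟨x, h1, hcj ▸ hx, hu⟩
  have hci : i ≠ c := fun e => hu (irrb_fix b (e ▸ hx) u)
  obtain ⟨z, hz⟩ := hc c hcS j hj hcj
  have hzi : z⁻¹ ∈ b.K i := (b.K i).inv_mem (hz.2.2.2 i hci hij.symm)
  refine ⟨z * x * z⁻¹, by simp [h1], ?_, fun e => hu ?_⟩
  · have h2 := b.bs.conj z c x hx
    rwa [hz.apply] at h2
  · rw [map_mul, map_mul, ← mulVec_mulVec, ← mulVec_mulVec, irrb_fix b hzi] at e
    have h2 := congrArg (σ z⁻¹ *ᵥ ·) e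
    rwa [mulVec_mulVec, rep_inv_mul, one_mulVec, irrb_fix b hzi] at h2

/-- Let `U ≠ ⊥` be invariant and take `u ≠ 0` in `U` with the least number of `i` such that
`e i *ᵥ u ≠ 0` (these `i` lie in `S`; there is one since the `e i` have sum one). If `i ≠ j` are two
of them take `x` from `hf` for `e i *ᵥ u`; if `x ∉ K j` conjugate it by an exchange of type `(c, j)`,
which acts trivially on the sheet `i`. Then `σ x *ᵥ u - u` is a nonzero member of `U` with smaller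
support (`x` commutes with all `e l`). So `u` lies in one sheet `i`; `Irr1` for the vectors of `U` in
this sheet shows that `U` contains the sheet, and exchanges move it to all sheets of `S`. -/
theorem BR.irr (b : BR σ d) (he : ∀ j, j ∉ S → b.e j = 0) (hc : b.bs.Conn S)
    (hi : ∀ i ∈ S, b.Irr1 ⊤ i)
    (hf : ∀ i ∈ S, ∀ v, b.e i *ᵥ v = v → v ≠ 0 →
      ∃ x, b.π x = 1 ∧ (∃ c ∈ S, x ∈ b.K c) ∧ σ x *ᵥ v ≠ v) : IrrR σ := by
  classical
  intro U hU
  have hS : ∀ i (u : Fin m → ℂ), b.e i *ᵥ u ≠ 0 → i ∈ S := fun i u h => by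
    by_contra hn
    exact h (by rw [he i hn, zero_mulVec])
  have key : ∀ n : ℕ, ∀ u ∈ U, u ≠ 0 → (Finset.univ.filter fun l => b.e l *ᵥ u ≠ 0).card ≤ n →
      ∃ i ∈ S, ∃ w ∈ U, w ≠ 0 ∧ b.e i *ᵥ w = w := by
    intro n
    induction n using Nat.strong_induction_on with
    | _ n ih =>
      intro u hu h0 hn
      obtain ⟨i, hi0⟩ : ∃ i, b.e i *ᵥ u ≠ 0 := by
        by_contra hh
        push Not at hh
        exact h0 (by rw [← irrb_sum b u]; exact Finset.sum_eq_zero fun l _ => hh l)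
      by_cases hj : ∀ j, j ≠ i → b.e j *ᵥ u = 0
      · refine ⟨i, hS i u hi0, u, hu, h0, ?_⟩
        conv_rhs => rw [← irrb_sum b u]
        exact (Finset.sum_eq_single i (fun j _ h => hj j h) fun h =>
          absurd (Finset.mem_univ i) h).symm
      push Not at hj
      obtain ⟨j, hji, hj0⟩ := hj
      obtain ⟨x, h1, ⟨c, hcS, hx⟩, h2⟩ := hf i (hS i u hi0) (b.e i *ᵥ u)
        (by rw [mulVec_mulVec, b.idem]) hi0
      obtain ⟨y, y1, y2, y3⟩ := irrb_move b hc hji (hS j u hj0) hcS h1 hx h2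
      have hl : ∀ l, b.e l *ᵥ (σ y *ᵥ u - u) = σ y *ᵥ b.e l *ᵥ u - b.e l *ᵥ u := fun l => by
        rw [mulVec_sub, ← irrb_act b y l u, y1]
        rfl
      refine ih _ (lt_of_lt_of_le (Finset.card_lt_card ?_) hn) (σ y *ᵥ u - u)
        (U.sub_mem (hU y u hu) hu) (fun e => y3 ?_) le_rfl
      · refine ⟨fun l h => Finset.mem_filter.2 ⟨Finset.mem_univ _, fun e => ?_⟩, fun h => ?_⟩
        · refine (Finset.mem_filter.1 h).2 ?_
          rw [hl, e, mulVec_zero, sub_zero]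
        · refine (Finset.mem_filter.1 (h (Finset.mem_filter.2 ⟨Finset.mem_univ j, hj0⟩))).2 ?_
          rw [hl, irrb_fix b y2, sub_self]
      · rw [← sub_eq_zero, ← hl, e, mulVec_zero]
  refine or_iff_not_imp_left.2 fun hne => ?_
  obtain ⟨u, hu, h0⟩ := (Submodule.ne_bot_iff U).1 hne
  obtain ⟨i, hiS, w, hw, w0, hw1⟩ := key _ u hu h0 le_rfl
  have hall : ∀ v, b.e i *ᵥ v ∈ U := by
    rcases hi i hiS (U ⊓ LinearMap.eqLocus (toLin' (b.e i)) LinearMap.id) (fun v hv => hv.2)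
      (fun y _ hy v hv => ⟨hU y v hv.1, by
        have h2 : b.e i *ᵥ v = v := hv.2
        have h3 := irrb_act b y i v
        rw [hy, h2] at h3
        exact h3⟩) with h | h
    · exact absurd ((Submodule.eq_bot_iff _).1 h w ⟨hw, hw1⟩) w0
    · exact fun v => (h v).1
  refine eq_top_iff.2 fun v _ => ?_
  rw [← irrb_sum b v]
  refine U.sum_mem fun j _ => ?_
  by_cases hjS : j ∈ S
  · by_cases hij : i = j
    · exact hij ▸ hall v
    obtain ⟨z, hz⟩ := hc i hiS j hjS hij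
    have h2 := irrb_act b z i (σ z⁻¹ *ᵥ v)
    have h3 : b.π z i = j := hz.apply
    rw [h3, mulVec_mulVec v, rep_mul_inv, one_mulVec] at h2
    rw [h2]
    exact hU z _ (hall _)
  · rw [he j hjS, zero_mulVec]
    exact U.zero_mem

end Pool.Agent.GR.GC
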