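import Pool.Agent.Lib.MP_aa40d3_nt.GC.Hur

/-! States and moves on lists. -/

namespace Pool.Agent.GR.GC

variable {G : Type} [Group G] {n : ℕ} {L0 : List (Fin n)} {g : Fin n → G}

/-- Induction on the state; a move is `hur_blockL` with a block of one element; the indices of a
state are distinct (`dbl_nodup`), so `mvT` only changes the values on `T`. -/
theorem hur_of_st {Mov : Finset (Fin n)} (h0 : L0.Nodup) {L : List (Fin n)} {h : Fin n → G}
    (hs : St Mov L0 g L h) : Hur (L0.map g) (L.map h) := by
  induction hs with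
  | init => exact Hur.refl _
  | @move L₁ T L₂ i h hs _ ih =>
    have hn := dbl_nodup h0 hs
    have hout : ∀ c, c ∉ T → mvT h i T.toFinset c = h c := fun c hc => if_neg (by simpa using hc)
    have h1 : L₁.map (mvT h i T.toFinset) = L₁.map h := List.map_congr_left fun c hc =>
      hout c fun hT => (List.nodup_append.1 (List.nodup_append.1 hn).1).2.2 c hc c hT rfl
    have h2 : L₂.map (mvT h i T.toFinset) = L₂.map h := List.map_congr_left fun c hc =>
      hout c fun hT => (List.nodup_append.1 hn).2.2 c (List.mem_append_right _ hT) c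
        (List.mem_cons_of_mem _ hc) rfl
    have h3 : mvT h i T.toFinset i = h i := hout i fun hT =>
      (List.nodup_append.1 hn).2.2 i (List.mem_append_right _ hT) i List.mem_cons_self rfl
    have h4 : T.map (mvT h i T.toFinset) = (T.map h).map fun x => (h i)⁻¹ * x * h i := by
      rw [List.map_map]
      exact List.map_congr_left fun c hc => if_pos (by simpa using hc)
    have h5 := (hur_blockL (T.map h) [h i]).ctx (L₁.map h) (L₂.map h)
    refine ih.trans ?_
    simp only [List.map_append, List.map_cons, h1, h2, h3, h4]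
    simpa using h5

theorem fin_of_finL {Mov : Finset (Fin n)} (h0 : L0.Nodup) (hf : FinL (L0.map g)) (x : G)
    (hx : IsLoop Mov L0 g x) : IsOfFinOrder x := by
  obtain ⟨l, R, h, hs, -, rfl⟩ := hx
  exact hf _ (R.map h) (by simpa using hur_of_st h0 hs)

/-- One move to the left (`St.move` with `T = [a]`). -/
theorem st_left (h0 : L0.Nodup) {L₁ L₂ : List (Fin n)} {a c : Fin n} {h : Fin n → G}
    (hs : St Finset.univ L0 g (L₁ ++ a :: c :: L₂) h) :
    ∃ h', St Finset.univ L0 g (L₁ ++ c :: a :: L₂) h' ∧ h' a = (h c)⁻¹ * h a * h c ∧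
      ∀ e, e ≠ a → h' e = h e := by
  have hn := dbl_nodup h0 hs
  refine ⟨mvT h c [a].toFinset, ?_, if_pos (by simp), fun e he => if_neg (by simpa using he)⟩
  simpa using St.move (L₁ := L₁) (T := [a]) (L₂ := L₂) (i := c) (by simpa using hs)
    (Or.inl (Finset.mem_univ _))

end Pool.Agent.GR.GC
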