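import Pool.Agent.Lib.MP_aa40d3_nt.GC.LinkA

/-! States and moves on lists. -/

namespace Pool.Agent.GR.GC

variable {G : Type} [Group G] {n : ℕ} {L0 : List (Fin n)} {g : Fin n → G}

/-- Two moves to the left restore the order and conjugate `h a` and `h c` by the inverse of
`u = h a * h c`, which does not change. `u` is a loop (`St.block` moves `[a, c]` to the front), say
`u ^ (k + 1) = 1`. After `2 k` moves the values are conjugated by `u⁻¹ ^ k = u`; one more move. -/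
theorem st_right (h0 : L0.Nodup) (hf : ∀ x, IsLoop Finset.univ L0 g x → IsOfFinOrder x)
    {L₁ L₂ : List (Fin n)} {a c : Fin n} {h : Fin n → G}
    (hs : St Finset.univ L0 g (L₁ ++ a :: c :: L₂) h) :
    ∃ h', St Finset.univ L0 g (L₁ ++ c :: a :: L₂) h' ∧ h' c = h a * h c * (h a)⁻¹ ∧
      ∀ e, e ≠ c → h' e = h e := by
  have hnd := hs.perm.nodup_iff.2 h0
  have hac : a ≠ c := fun e =>
    (List.nodup_cons.1 (List.nodup_append.1 hnd).2.1).1 (e ▸ List.mem_cons_self)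
  have ha : a ∉ L₁ := fun m => (List.nodup_append.1 hnd).2.2 a m a List.mem_cons_self rfl
  have hc : c ∉ L₁ := fun m =>
    (List.nodup_append.1 hnd).2.2 c m c (List.mem_cons_of_mem _ List.mem_cons_self) rfl
  obtain ⟨u, hu⟩ : ∃ u, u = h a * h c := ⟨_, rfl⟩
  have fin : IsOfFinOrder u := by
    obtain ⟨h', h1, -, h2⟩ := St.block h0 (L₁ := []) (T := L₁) (B := [a, c]) (L₂ := L₂)
      (by simpa using hs) (Or.inl fun b _ => Finset.mem_univ b)
    refine hf u ⟨[a, c], L₁ ++ L₂, h', by simpa using h1, fun b _ => Finset.mem_univ b, ?_⟩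
    simp [hu, h2 a ha, h2 c hc]
  have it : ∀ k : ℕ, ∃ h', St Finset.univ L0 g (L₁ ++ a :: c :: L₂) h' ∧
      h' a = (u ^ k)⁻¹ * h a * u ^ k ∧ h' c = (u ^ k)⁻¹ * h c * u ^ k ∧
        ∀ e, e ≠ a → e ≠ c → h' e = h e := fun k => by
    induction k with
    | zero => exact ⟨h, hs, by simp, by simp, fun _ _ _ => rfl⟩
    | succ k ih =>
      obtain ⟨h₁, s1, a1, c1, e1⟩ := ih
      obtain ⟨h₂, s2, a2, e2⟩ := st_left h0 s1
      obtain ⟨h₃, s3, c3, e3⟩ := st_left h0 s2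
      have m : h₁ a * h₁ c = u := by
        rw [a1, c1]
        calc (u ^ k)⁻¹ * h a * u ^ k * ((u ^ k)⁻¹ * h c * u ^ k)
            = (u ^ k)⁻¹ * (h a * h c) * u ^ k := by group
          _ = u := by rw [← hu]; group
      refine ⟨h₃, s3, ?_, ?_, fun e n1 n2 => by rw [e3 e n2, e2 e n1, e1 e n1 n2]⟩
      · calc h₃ a = (h₁ a * h₁ c)⁻¹ * h₁ a * (h₁ a * h₁ c) := by rw [e3 a hac, a2]; group
          _ = _ := by rw [m, a1]; group
      · calc h₃ c = (h₁ a * h₁ c)⁻¹ * h₁ c * (h₁ a * h₁ c) := by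
              rw [c3, a2, e2 c hac.symm]; group
          _ = _ := by rw [m, c1]; group
  obtain ⟨N, N0, hN⟩ := fin.exists_pow_eq_one
  obtain ⟨k, rfl⟩ := Nat.exists_eq_succ_of_ne_zero N0.ne'
  have hk : u ^ k = u⁻¹ := eq_inv_of_mul_eq_one_left (by rw [← pow_succ]; exact hN)
  obtain ⟨h₁, s1, a1, c1, e1⟩ := it k
  obtain ⟨h₂, s2, a2, e2⟩ := st_left h0 s1
  rw [hk, hu] at a1 c1
  refine ⟨h₂, s2, by rw [e2 c hac.symm, c1]; group, fun e n2 => ?_⟩
  by_cases n1 : e = a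
  · rw [n1, a2, a1, c1]; group
  · rw [e2 e n1, e1 e n1 n2]

end Pool.Agent.GR.GC
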