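import Pool.Agent.Lib.MP_aa40d3_nt.GC.Defs
import Pool.Agent.Lib.MP_aa40d3_nt.MG.Wed

/-! The sheets of a commutative invariant algebra. -/

open Matrix

namespace Pool.Agent.GR.GC

variable {G : Type} [Group G] {d m r : ℕ} {σ : G →* Mt m}

/-- No proper subspace is invariant under the group and the algebra. -/
def IrrZ (σ : G →* Mt m) (Z : Subalgebra ℂ (Mt m)) : Prop :=
  ∀ U : Submodule ℂ (Fin m → ℂ), (∀ γ, ∀ v ∈ U, σ γ *ᵥ v ∈ U) → (∀ z ∈ Z, ∀ v ∈ U, z *ᵥ v ∈ U) →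
    U = ⊥ ∨ U = ⊤

theorem wed_semiZ {A : Subalgebra ℂ (Mt m)} (hI : IrrZ σ A) (hA : InvR σ A) :
    IsSemisimpleRing A := by
  have : IsArtinianRing A := IsArtinianRing.of_finite ℂ A
  refine wed_nil fun x hx hxy => Subtype.ext (toLin'.injective (LinearMap.ext fun v => ?_))
  rw [toLin'_apply, toLin'_apply, ZeroMemClass.coe_zero, zero_mulVec]
  have key : ∀ M : Mt m, (∀ y ∈ Ring.jacobson A, ∀ u, ∃ y' ∈ Ring.jacobson A, ∃ u',
      M *ᵥ y.1 *ᵥ u = y'.1 *ᵥ u') →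
      ∀ w ∈ Submodule.span ℂ {w | ∃ y ∈ Ring.jacobson A, ∃ u, w = y.1 *ᵥ u},
        M *ᵥ w ∈ Submodule.span ℂ {w | ∃ y ∈ Ring.jacobson A, ∃ u, w = y.1 *ᵥ u} := by
    intro M hM w hw
    induction hw using Submodule.span_induction with
    | mem w h =>
      obtain ⟨y, hy, u, rfl⟩ := h
      exact Submodule.subset_span (hM y hy u)
    | zero => rw [mulVec_zero]; exact zero_mem _
    | add a b _ _ ha hb => rw [mulVec_add]; exact add_mem ha hb
    | smul c a _ ha => rw [mulVec_smul]; exact Submodule.smul_mem _ c ha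
  have k1 := fun γ => key (σ γ) fun y hy u => ⟨_, wed_jac hA γ hy, σ γ *ᵥ u, by
    change _ = (σ γ * y.1 * σ γ⁻¹) *ᵥ σ γ *ᵥ u
    rw [mulVec_mulVec, mulVec_mulVec, mul_assoc, wed_inv_mul, mul_one]⟩
  have k2 := fun z (hz : z ∈ A) => key z fun y hy u =>
    ⟨⟨z, hz⟩ * y, Ideal.mul_mem_left _ _ hy, u, by rw [mulVec_mulVec, MulMemClass.coe_mul]⟩
  rcases hI (Submodule.span ℂ {w | ∃ y ∈ Ring.jacobson A, ∃ u, w = y.1 *ᵥ u}) k1 k2 with h | h
  · exact (Submodule.eq_bot_iff _).1 h _ (Submodule.subset_span ⟨x, hx, v, rfl⟩)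
  · have h1 : Submodule.span ℂ {w | ∃ y ∈ Ring.jacobson A, ∃ u, w = y.1 *ᵥ u} ≤
        LinearMap.ker (toLin' x.1) := by
      refine Submodule.span_le.2 ?_
      rintro _ ⟨y, hy, u, rfl⟩
      have h2 : x.1 * y.1 = 0 := congrArg Subtype.val (hxy y hy)
      rw [SetLike.mem_coe, LinearMap.mem_ker, toLin'_apply, mulVec_mulVec, h2, zero_mulVec]
    exact h1 (h ▸ Submodule.mem_top)

theorem loca_one {s : ℕ} (hs : s ≠ 0) (h : ∀ y z : Mt s, y * z = z * y) : s = 1 := by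
  by_contra h1
  obtain ⟨i, j, hij⟩ : ∃ i j : Fin s, j ≠ i :=
    ⟨⟨0, by omega⟩, ⟨1, by omega⟩, fun h => one_ne_zero (congrArg Fin.val h)⟩
  have h2 := h (single i j 1) (single j j 1)
  rw [single_mul_single_same, single_mul_single_of_ne _ _ _ _ hij] at h2
  simpa using congrFun (congrFun h2 i) j

theorem loca_scl {s : ℕ} (hs : s = 1) (x : Mt s) : Scl x := by
  subst hs
  refine ⟨x 0 0, ?_⟩
  ext i j
  rw [Subsingleton.elim i 0, Subsingleton.elim j 0]
  simp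

/-- As in `exists_blocks`: `wed_semi` and
`IsSemisimpleRing.exists_algEquiv_pi_matrix_of_isAlgClosed` give `Z ≃ₐ ∀ i, Mt (s i)`; all `s i` are
one (`Blk.eq_one`, or directly), `e i` is the image of `Pi.single i 1`; count dimensions. -/
theorem exists_idemS {Z : Subalgebra ℂ (Mt m)} [IsSemisimpleRing Z] (hc : CommA Z)
    (hd : Module.finrank ℂ Z = d) : ∃ e : Fin d → Mt m, (∀ i, e i ≠ 0) ∧ (∀ i, e i ∈ Z) ∧
      (∀ i j, i ≠ j → e i * e j = 0) ∧ ∑ i, e i = 1 ∧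
      ∀ y ∈ Z, ∃ c : Fin d → ℂ, y = ∑ i, c i • e i := by
  obtain ⟨n, s, hs, ⟨e⟩⟩ := IsSemisimpleRing.exists_algEquiv_pi_matrix_of_isAlgClosed ℂ Z
  have h1 : ∀ i, s i = 1 := fun i => loca_one (hs i).out fun y z => by
    have h : wedFac e i (y * z) = wedFac e i (z * y) := by
      rw [map_mul, map_mul]
      exact hc _ (e.symm _).2 _ (e.symm _).2
    exact Pi.single_injective i (e.symm.injective (Subtype.ext h))
  obtain rfl : n = d := by
    rw [← hd, e.toLinearEquiv.finrank_eq, Module.finrank_pi_fintype]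
    simp [Module.finrank_matrix, h1]
  have key : ∀ y : Z, ∑ i, wedFac e i (e y i) = y := fun y => by
    have h := congrArg (fun x => Z.val (e.symm x)) (Finset.univ_sum_single (e y))
    rw [map_sum, map_sum, e.symm_apply_apply] at h
    exact h
  refine ⟨fun i => wedFac e i 1, fun i h => ?_, fun i => (e.symm _).2, fun i j hij => ?_,
    by simpa using key 1, fun y hy => ?_⟩
  · have := hs i
    rw [← map_zero (wedFac e i)] at h
    exact one_ne_zero (Pi.single_injective i (e.symm.injective (Subtype.ext h)))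
  · have h := wed_left e i (e.symm (Pi.single j 1))
    rw [e.apply_symm_apply, Pi.single_eq_of_ne hij, map_zero] at h
    exact h.symm
  · choose c hc using fun i => loca_scl (h1 i) (e ⟨y, hy⟩ i)
    exact ⟨c, (key ⟨y, hy⟩).symm.trans (Finset.sum_congr rfl fun i _ => by rw [hc, map_smul])⟩

theorem exists_idem {Z : Subalgebra ℂ (Mt m)} (hI : IrrZ σ Z) (hZ : InvR σ Z) (hc : CommA Z)
    (hd : Module.finrank ℂ Z = d) : ∃ e : Fin d → Mt m, (∀ i, e i ≠ 0) ∧ (∀ i, e i ∈ Z) ∧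
      (∀ i j, i ≠ j → e i * e j = 0) ∧ ∑ i, e i = 1 ∧
      ∀ y ∈ Z, ∃ c : Fin d → ℂ, y = ∑ i, c i • e i :=
  have := wed_semiZ hI hZ
  exists_idemS hc hd

end Pool.Agent.GR.GC
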