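import Pool.Agent.Lib.MP_aa40d3_nt.GC.LocA

/-! The sheets of a commutative invariant algebra. -/

open Matrix

namespace Pool.Agent.GR.GC

variable {G : Type} [Group G] {d m r : ℕ} {σ : G →* Mt m}

/-- `f = σ γ * e i * σ γ⁻¹` is a nonzero idempotent of `Z`, so `f * e j = e j` for some `j`.
Conjugate back: `f' = σ γ⁻¹ * e j * σ γ` satisfies `e i * f' = f'`, so `f' = c • e i`, `c = 1`. The
index `j` is unique; this defines an action on `Fin d` (`MulAction.toPermHom`). -/
theorem exists_BR (hi : Function.Injective σ) {Z : Subalgebra ℂ (Mt m)} (hZ : InvR σ Z)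
    {e : Fin d → Mt m} (h0 : ∀ i, e i ≠ 0) (hm : ∀ i, e i ∈ Z) (ho : ∀ i j, i ≠ j → e i * e j = 0)
    (h1 : ∑ i, e i = 1) (hs : ∀ y ∈ Z, ∃ c : Fin d → ℂ, y = ∑ i, c i • e i) :
    ∃ b : BR σ d, b.e = e := by
  have hid : ∀ i, e i * e i = e i := fun i => by
    conv_rhs => rw [← Matrix.mul_one (e i), ← h1, Finset.mul_sum]
    exact (Finset.sum_eq_single i (fun j _ hj => ho i j hj.symm)
      fun h => absurd (Finset.mem_univ i) h).symm
  have hl : ∀ (c : Fin d → ℂ) j, (∑ i, c i • e i) * e j = c j • e j := fun c j => by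
    rw [Finset.sum_mul, Finset.sum_eq_single j (fun i _ h => by rw [smul_mul_assoc, ho i j h,
      smul_zero]) fun h => absurd (Finset.mem_univ j) h, smul_mul_assoc, hid]
  have hr : ∀ (c : Fin d → ℂ) j, e j * ∑ i, c i • e i = c j • e j := fun c j => by
    rw [Finset.mul_sum, Finset.sum_eq_single j (fun i _ h => by rw [mul_smul_comm, ho j i h.symm,
      smul_zero]) fun h => absurd (Finset.mem_univ j) h, mul_smul_comm, hid]
  have hex : ∀ γ i, ∃ j, σ γ * e i = e j * σ γ := fun γ i => by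
    have huv : σ γ * σ γ⁻¹ = 1 := by rw [← map_mul, mul_inv_cancel, map_one]
    have hvu : σ γ⁻¹ * σ γ = 1 := by rw [← map_mul, inv_mul_cancel, map_one]
    obtain ⟨c, hc⟩ := hs _ (hZ γ _ (hm i))
    obtain ⟨j, hj⟩ : ∃ j, c j ≠ 0 := by
      by_contra! h
      have e1 : σ γ⁻¹ * (σ γ * e i * σ γ⁻¹) * σ γ = e i := by
        rw [← mul_assoc, ← mul_assoc, hvu, one_mul, mul_assoc, hvu, mul_one]
      exact h0 i (by rw [← e1, hc]; simp [h])
    obtain ⟨c', hc'⟩ := hs _ (hZ γ⁻¹ _ (hm j))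
    rw [inv_inv] at hc'
    have e2 : c j • (σ γ⁻¹ * e j * σ γ) = c' i • e i := by
      rw [← hr c' i, ← hc', ← smul_mul_assoc, ← mul_smul_comm, ← hl c j, ← hc]
      simp only [← mul_assoc, hvu, one_mul]
    obtain ⟨a, ha⟩ : ∃ a : ℂ, σ γ⁻¹ * e j * σ γ = a • e i :=
      ⟨(c j)⁻¹ * c' i, by rw [mul_smul, ← e2, inv_smul_smul₀ hj]⟩
    have e3 : e j * σ γ = a • (σ γ * e i) := by
      rw [← mul_smul_comm, ← ha, ← mul_assoc, ← mul_assoc, huv, one_mul]
    have ha0 : a ≠ 0 := by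
      rintro rfl
      exact h0 j (by rw [← mul_one (e j), ← huv, ← mul_assoc, e3, zero_smul, zero_mul])
    have e4 : (a * a) • e i = a • e i := by
      rw [← hid i, ← smul_mul_smul_comm, hid, ← ha]
      simp only [mul_assoc]
      rw [← mul_assoc (σ γ), huv, one_mul, ← mul_assoc (e j), hid]
    have ha1 : a = 1 := mul_left_cancel₀ ha0 ((smul_left_injective ℂ (h0 i) e4).trans
      (mul_one a).symm)
    exact ⟨j, by rw [e3, ha1, one_smul]⟩
  have hun : ∀ γ j j', e j * σ γ = e j' * σ γ → j = j' := fun γ j j' h => by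
    have huv : σ γ * σ γ⁻¹ = 1 := by rw [← map_mul, mul_inv_cancel, map_one]
    have e1 : e j = e j' := by
      rw [← mul_one (e j), ← huv, ← mul_assoc, h, mul_assoc, huv, mul_one]
    by_contra hne
    exact h0 j (by rw [← hid j, ← ho j j' hne, ← e1])
  choose p hp using hex
  let _ : MulAction G (Fin d) :=
    { smul := p
      one_smul := fun i => hun 1 _ _ ((hp 1 i).symm.trans (by rw [map_one, one_mul, mul_one]))
      mul_smul := fun x y i => hun (x * y) _ _ ((hp (x * y) i).symm.trans (by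
        rw [map_mul, mul_assoc, hp, ← mul_assoc, hp, mul_assoc]
        rfl)) }
  exact ⟨⟨e, MulAction.toPermHom G (Fin d), ho, h1, hp, hi⟩, rfl⟩

end Pool.Agent.GR.GC
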