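import Pool.Agent.Lib.MP_aa40d3_nt.GC.Hur
import Pool.Agent.Lib.MP_aa40d3_nt.GC.Bs

/-! Removing sheets. -/

namespace Pool.Agent.GR.GC

variable {G : Type} [Group G] {d r : ℕ} {b : BS G d} {i j : Fin d} {S : Finset (Fin d)}

theorem reda_conj {γ : G} (hγ : b.π γ = 1) {T : List G} (hT : ∀ a ∈ T, a ∈ b.K j) :
    (T.map fun a => γ * a * γ⁻¹).map b.π = T.map b.π ∧
      ∀ a ∈ T.map fun a => γ * a * γ⁻¹, a ∈ b.K j := by
  refine ⟨?_, fun a ha => ?_⟩
  · rw [List.map_map]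
    exact List.map_congr_left fun a _ => by simp [hγ]
  · obtain ⟨a, h, rfl⟩ := List.mem_map.1 ha
    simpa [hγ] using b.conj γ j a (hT a h)

theorem reda_pair {x y : G} (hx : b.Swap x j i) (hy : b.Swap y j i) : b.π [x, y].prod = 1 := by
  simp [hx.2.1, hy.2.1]

/-- Write `A = A₁ ++ z :: A₂`, `D = [x, y]`, `δ = x * y`, `π δ = 1`. `D` jumps to the left over
`z :: A₂` (`hur_blockL`), `z₁ = δ⁻¹ * z * δ` jumps to the left over `D`, the new pair jumps to the
right over the rest (`hur_blockR`). Conjugation by an element with `π = 1` keeps `π` and `K j`. -/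
theorem move_one {A : List G} {x y z : G} (hA : ∀ a ∈ A, a ∈ b.K j) (hz : z ∈ A)
    (hx : b.Swap x j i) (hy : b.Swap y j i) :
    ∃ A' x' y', Hur (A ++ [x, y]) (A' ++ [x', y']) ∧ A'.map b.π = A.map b.π ∧
      (∀ a ∈ A', a ∈ b.K j) ∧ b.Swap x' j ((b.π z)⁻¹ i) ∧ b.Swap y' j ((b.π z)⁻¹ i) := by
  obtain ⟨A₁, A₂, rfl⟩ := List.append_of_mem hz
  obtain ⟨δ, hδ⟩ : ∃ δ, δ = [x, y].prod := ⟨_, rfl⟩
  have hδ1 : b.π δ⁻¹ = 1 := by rw [map_inv, hδ, reda_pair hx hy, inv_one]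
  obtain ⟨h1, h2⟩ := reda_conj hδ1 (T := z :: A₂) fun a ha => hA a (List.mem_append_right _ ha)
  rw [inv_inv, List.map_cons] at h1 h2
  obtain ⟨z₁, hz₁⟩ : ∃ z₁, z₁ = δ⁻¹ * z * δ := ⟨_, rfl⟩
  obtain ⟨A₃, hA₃⟩ : ∃ A₃, A₃ = A₂.map fun a => δ⁻¹ * a * δ := ⟨_, rfl⟩
  rw [← hz₁, ← hA₃] at h1 h2
  rw [List.map_cons, List.map_cons, List.cons.injEq] at h1
  have hs : ∀ {w : G}, b.Swap w j i → b.Swap (z₁⁻¹ * w * z₁) j ((b.π z)⁻¹ i) := fun hw => by
    have h := hw.conj z₁⁻¹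
    rwa [inv_inv, map_inv, h1.1, show (b.π z)⁻¹ j = j from
      Equiv.Perm.inv_eq_iff_eq.2 (b.fix j z (hA z hz)).symm] at h
  obtain ⟨h3, h4⟩ := reda_conj (reda_pair (hs hx) (hs hy)) (T := A₃)
    fun a ha => h2 a (List.mem_cons_of_mem _ ha)
  refine ⟨A₁ ++ z₁ :: A₃.map fun a => [z₁⁻¹ * x * z₁, z₁⁻¹ * y * z₁].prod * a *
    [z₁⁻¹ * x * z₁, z₁⁻¹ * y * z₁].prod⁻¹, _, _, ?_, ?_, ?_, hs hx, hs hy⟩
  · have e1 := (hur_blockL (z :: A₂) [x, y]).app_left A₁
    rw [← hδ, List.map_cons, ← hz₁, ← hA₃] at e1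
    have e2 := (hur_blockL [x, y] [z₁]).ctx A₁ A₃
    have e3 := (hur_blockR [z₁⁻¹ * x * z₁, z₁⁻¹ * y * z₁] A₃).app_left (A₁ ++ [z₁])
    rw [List.prod_singleton] at e2
    simp only [List.append_assoc, List.cons_append, List.nil_append, List.map_cons,
      List.map_nil] at e1 e2 e3 ⊢
    exact (e1.trans e2).trans e3
  · rw [List.map_append, List.map_append, List.map_cons, List.map_cons, h3, h1.1, h1.2]
  · intro a ha
    rcases List.mem_append.1 ha with h | h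
    · exact hA a (List.mem_append_left _ h)
    · rcases List.mem_cons.1 h with rfl | h
      · exact h2 _ List.mem_cons_self
      · exact h4 a h

/-- Induction on the relation; a member of `A.map π = A'.map π` is `π z` with `z ∈ A'`. -/
theorem move_any {A : List G} {x y : G} (hA : ∀ a ∈ A, a ∈ b.K j) (hx : b.Swap x j i)
    (hy : b.Swap y j i) {c : Fin d}
    (hc : Relation.ReflTransGen (fun u v => ∃ q ∈ A.map b.π, q⁻¹ u = v) i c) :
    ∃ A' x' y', Hur (A ++ [x, y]) (A' ++ [x', y']) ∧ A'.map b.π = A.map b.π ∧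
      (∀ a ∈ A', a ∈ b.K j) ∧ b.Swap x' j c ∧ b.Swap y' j c := by
  induction hc with
  | refl => exact ⟨A, x, y, Hur.refl _, rfl, hA, hx, hy⟩
  | tail _ h ih =>
    obtain ⟨A', x', y', h1, h2, h3, h4, h5⟩ := ih
    obtain ⟨q, hq, rfl⟩ := h
    rw [← h2] at hq
    obtain ⟨z, hz, rfl⟩ := List.mem_map.1 hq
    obtain ⟨A'', x'', y'', k1, k2, k3, k4, k5⟩ := move_one h3 hz h4 h5
    exact ⟨A'', x'', y'', h1.trans k1, k2.trans h2, k3, k4, k5⟩

/-- The set `O` of the `c` that are reached from `i`, together with `j`, is mapped into itself by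
`π x` for all members `x` of the list (`Ok.invol`), hence by the group they generate. -/
theorem reach {A B : List G} (hok : ∀ x ∈ A, b.Ok r x) (hA : ∀ a ∈ A, a ∈ b.K j)
    (hB : ∀ x ∈ B, b.π x = Equiv.swap j i ∨ b.π x = 1) {y : G} (hy : y ∈ gen (A ++ B)) {c : Fin d}
    (hc : b.π y j = c) (hj : c ≠ j) :
    Relation.ReflTransGen (fun u v => ∃ q ∈ A.map b.π, q⁻¹ u = v) i c := by
  obtain ⟨O, hO⟩ : ∃ O : Fin d → Prop, ∀ c, O c ↔
      c = j ∨ Relation.ReflTransGen (fun u v => ∃ q ∈ A.map b.π, q⁻¹ u = v) i c :=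
    ⟨_, fun _ => Iff.rfl⟩
  have hinv : ∀ x ∈ A ++ B, (b.π x)⁻¹ = b.π x := fun x hx => by
    rcases List.mem_append.1 hx with h | h
    · exact Equiv.ext fun c => Equiv.Perm.inv_eq_iff_eq.2 ((hok x h).invol c).symm
    · rcases hB x h with e | e <;> simp [e]
  have hg : ∀ x ∈ A ++ B, ∀ c, O c → O (b.π x c) := fun x hx c h => by
    rcases List.mem_append.1 hx with k | k
    · rcases (hO c).1 h with e | e
      · rwa [e, b.fix j x (hA x k), ← e]
      · exact (hO _).2 (Or.inr (e.tail ⟨_, List.mem_map_of_mem k, by rw [hinv x hx]⟩))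
    · rcases hB x k with e | e
      · rw [e, Equiv.swap_apply_def]
        split_ifs
        · exact (hO _).2 (Or.inr Relation.ReflTransGen.refl)
        · exact (hO _).2 (Or.inl rfl)
        · exact h
      · rwa [e]
  have key : ∀ c, O c → O (b.π y c) := by
    clear hc
    induction hy using Subgroup.closure_induction'' with
    | mem x hx => exact hg x hx
    | inv_mem x hx => rw [map_inv, hinv x hx]; exact hg x hx
    | one => intro c h; rwa [map_one]
    | mul x y _ _ h1 h2 => intro c h; rw [map_mul]; exact h1 _ (h2 c h)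
  exact ((hO c).1 (hc ▸ key j ((hO j).2 (Or.inl rfl)))).resolve_left hj

end Pool.Agent.GR.GC
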