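import Pool.Agent.Lib.MP_aa40d3_nt.GC.RedA

/-! Removing sheets. -/

namespace Pool.Agent.GR.GC

variable {G : Type} [Group G] {d r : ℕ} {b : BS G d} {i j : Fin d} {S : Finset (Fin d)}

theorem redb_move {l A C R : List G} {x y : G} (h : Hur l (A ++ (C ++ x :: y :: R)))
    (hA : ∀ a ∈ A, a ∈ b.K j) (hx : b.Swap x j i) (hy : y ∈ b.K i) {n : ℕ}
    (hn : (C ++ x :: y :: R).length = n) :
    ∃ A' B', Hur l (A' ++ B') ∧ (∀ a ∈ A', a ∈ b.K j) ∧ B'.length = n ∧ ∃ x ∈ B', x ∈ b.K j := by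
  rw [← List.append_assoc] at h
  exact ⟨A, C ++ (x * y * x⁻¹) :: x :: R, List.append_assoc .. ▸ h.right, hA, by simpa using hn,
    x * y * x⁻¹, by simp, hx.symm.apply ▸ b.conj x i y hy⟩

/-- One step. `gather_right` gives `B ~ Qs ++ Qp`, where the members are not in `K j`, `π ≠ 1` on
`Qs` (`Ok.swap`) and `π = 1` on `Qp`. Basic move: if `x` has type `(j, i)` and `y ∈ K i` then
`Hur.right` turns `x :: y` into `x * y * x⁻¹ :: x` with `x * y * x⁻¹ ∈ K j`. If `π x j` is not
constant on `Qs`, two neighbours have different types (`List.IsChain`). Otherwise `Qs` has at least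
two members (no member: all members fix `j`, against `ht`; one member: the product moves `j`).
If `Qs ++ Qp = x₁ :: x₂ :: y :: R` take `c ∈ S` with `y ∈ K c` (`Ok.free`), `reach`, `move_any`,
basic move. If `Qs ++ Qp = [x₁, x₂]` then `x₁ * x₂ ∈ K j`, `Swap.eq`. -/
theorem red_step (hr : 1 ≤ r) (hS : r + 2 ≤ S.card) (hj : j ∈ S) {A B : List G}
    (hok : ∀ x ∈ A ++ B, b.Ok r x) (ht : b.Trans (gen (A ++ B)) S) (hp : (A ++ B).prod ∈ b.K j)
    (hA : ∀ a ∈ A, a ∈ b.K j) (hB : ∀ x ∈ B, x ∉ b.K j) :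
    (∃ A' x i, Hur (A ++ B) (A' ++ [x, x]) ∧ b.Swap x j i ∧ ∀ a ∈ A', a ∈ b.K j) ∨
      ∃ A' B', Hur (A ++ B) (A' ++ B') ∧ (∀ a ∈ A', a ∈ b.K j) ∧ B'.length = B.length ∧
        ∃ x ∈ B', x ∈ b.K j := by
  obtain ⟨Qs, Qp, h1, hs, hq⟩ := gather_right (P := fun a => a ∉ b.K j ∧ b.π a = 1)
    (Q := fun a => a ∉ b.K j ∧ b.π a ≠ 1) (fun a c ha hc => ⟨fun h => hc.1
      ((BS.conj_iff a).1 (by rwa [ha.2, Equiv.Perm.one_apply])), by simpa [ha.2] using hc.2⟩) B
    fun x hx => by simpa [hB x hx] using em _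
  have h2 := h1.app_left A
  have hok' := h2.all (fun γ x hx => hx.conj γ) hok
  have hsw : ∀ x ∈ Qs, b.Swap x j (b.π x j) := fun x hx => by
    obtain ⟨i, hi⟩ := (hok' x (by simp [hx])).swap (hs x hx).2 (hs x hx).1
    rwa [hi.apply]
  have hp' : Qs.prod * Qp.prod ∈ b.K j := by
    rw [← h2.prod, List.prod_append, List.prod_append] at hp
    exact (mul_mem_cancel_left (list_prod_mem hA)).1 hp
  rw [← h2.gen] at ht
  by_cases hc : Qs.IsChain fun x y => b.π x j = b.π y j
  swap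
  · rw [List.isChain_iff_forall_rel_of_append_cons_cons] at hc
    push Not at hc
    obtain ⟨x, y, C, R, rfl, hne⟩ := hc
    have hx := hsw x (by simp)
    exact .inr (redb_move (C := C) (R := R ++ Qp) (by simpa using h2) hA hx
      ((hsw y (by simp)).2.2.2 _ hx.1.symm hne) (by simpa using h1.length))
  have : Trans (fun x y => b.π x j = b.π y j) (fun x y => b.π x j = b.π y j)
    fun x y => b.π x j = b.π y j := ⟨Eq.trans⟩
  rcases Qs with _ | ⟨x₁, _ | ⟨x₂, Q⟩⟩
  · obtain ⟨c, hc, hcj⟩ := Finset.exists_mem_ne (by omega : 1 < S.card) j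
    obtain ⟨y, hy, rfl⟩ := ht j hj c hc
    refine absurd (gen_le (H := (MulAction.stabilizer _ j).comap b.π).2 (fun x hx => ?_) hy) hcj
    change b.π x j = j
    rcases List.mem_append.1 hx with hx | hx
    · exact b.fix j x (hA x hx)
    · rw [(hq x hx).2, Equiv.Perm.one_apply]
  · have h3 := b.fix j _ hp'
    have h4 : Qp.prod ∈ b.π.ker := list_prod_mem fun x hx => (hq x hx).2
    rw [map_mul, h4, mul_one, List.prod_singleton] at h3
    exact absurd h3.symm (hsw x₁ (by simp)).1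
  have hx₁ := hsw x₁ (by simp)
  have hall : ∀ x ∈ x₁ :: x₂ :: Q, b.Swap x j (b.π x₁ j) := fun x hx => by
    rcases List.mem_cons.1 hx with rfl | hx'
    · exact hx₁
    · rw [(List.pairwise_cons.1 (List.isChain_iff_pairwise.1 hc)).1 x hx']
      exact hsw x hx
  have hx₂ := hall x₂ (by simp)
  have h3 := h1.length
  rw [List.cons_append, List.cons_append] at h2 h3 hok'
  rcases e : Q ++ Qp with _ | ⟨y, R⟩
  · obtain ⟨rfl, rfl⟩ := List.append_eq_nil_iff.1 e
    obtain rfl := hx₁.eq hx₂ (by simpa using hp')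
    exact .inl ⟨A, _, _, h2, hx₁, hA⟩
  · have hy : y ∈ Q ++ Qp := by simp [e]
    obtain ⟨c, hc, hyc⟩ := (hok' y (List.mem_append_right _
      (List.mem_cons_of_mem _ (List.mem_cons_of_mem _ hy)))).free hr hS
    obtain ⟨z, hz, hzc⟩ := ht j hj c hc
    have hcj : c ≠ j := by
      rintro rfl
      rcases List.mem_append.1 hy with hy | hy
      · exact (hs y (by simp [hy])).1 hyc
      · exact (hq y hy).1 hyc
    obtain ⟨A', x', y', h4, -, hA', -, hy'⟩ := move_any hA hx₁ hx₂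
      (reach (fun x hx => hok x (by simp [hx])) hA (fun x hx => (List.mem_append.1 hx).imp
        (fun hx => (hall x hx).2.1) fun hx => (hq x hx).2) hz hzc hcj)
    rw [e] at h2 h3
    exact .inr (redb_move (C := [x']) (R := R)
      (h2.trans (by simpa using h4.app_right (y :: R))) hA' hy' hyc h3)

end Pool.Agent.GR.GC
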