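import Pool.Agent.Lib.MP_aa40d3_nt.GC.Defs

/-! Restriction to some of the sheets. -/

open Matrix

namespace Pool.Agent.GR.GC

variable {G : Type} [Group G] {d m : ℕ} {σ : G →* Mt m} {S : Finset (Fin d)}

/-- A basis of the range of `toLin' E` (`Module.finBasis`). -/
theorem idem_fac {E : Mt m} (hE : E * E = E) : ∃ (P : Matrix (Fin m) (Fin E.rank) ℂ)
    (Q : Matrix (Fin E.rank) (Fin m) ℂ), Q * P = 1 ∧ P * Q = E := by
  let R : Submodule ℂ (Fin m → ℂ) := LinearMap.range E.mulVecLin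
  let φ : R ≃ₗ[ℂ] (Fin E.rank → ℂ) := (Module.finBasis ℂ R).equivFun
  let p : (Fin E.rank → ℂ) →ₗ[ℂ] (Fin m → ℂ) := R.subtype ∘ₗ φ.symm.toLinearMap
  let q : (Fin m → ℂ) →ₗ[ℂ] (Fin E.rank → ℂ) := φ.toLinearMap ∘ₗ E.mulVecLin.rangeRestrict
  refine ⟨LinearMap.toMatrix' p, LinearMap.toMatrix' q, ?_, ?_⟩
  · rw [← LinearMap.toMatrix'_comp, ← LinearMap.toMatrix'_id]
    congr 1
    refine LinearMap.ext fun x => ?_
    have h : E.mulVecLin.rangeRestrict (φ.symm x).1 = φ.symm x := by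
      obtain ⟨y, hy⟩ := (φ.symm x).2
      refine Subtype.ext ?_
      change E *ᵥ (φ.symm x).1 = (φ.symm x).1
      rw [← hy, mulVecLin_apply, mulVec_mulVec, hE]
    change φ (E.mulVecLin.rangeRestrict (φ.symm x).1) = x
    rw [h, φ.apply_symm_apply]
  · rw [← LinearMap.toMatrix'_comp]
    conv_rhs => rw [← LinearMap.toMatrix'_toLin' E]
    congr 1
    refine LinearMap.ext fun x => ?_
    change (φ.symm (φ (E.mulVecLin.rangeRestrict x))).1 = _
    rw [φ.symm_apply_apply]
    rfl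

theorem rank_sum_le (e : Fin d → Mt m) (S : Finset (Fin d)) :
    (∑ i ∈ S, e i).rank ≤ ∑ i ∈ S, (e i).rank := by
  classical
  induction S using Finset.induction_on with
  | empty => simp
  | insert a S ha ih =>
    rw [Finset.sum_insert ha, Finset.sum_insert ha]
    refine le_trans ?_ (Nat.add_le_add_left ih _)
    unfold Matrix.rank
    rw [mulVecLin_add]
    exact (Submodule.finrank_mono (LinearMap.range_add_le _ _)).trans
      (Submodule.finrank_add_le_finrank_add_finrank _ _)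

end Pool.Agent.GR.GC
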