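import Pool.Agent.Lib.MP_aa40d3_nt.MG.Stmt

/-! Direct images along coverings of the line. -/

open Polynomial Matrix

namespace Pool.Agent.GR.GC

variable {n N : ℕ}

/-- The matrix `exp (2 π i B) - 1` has rank at most `r`. -/
def Small (r : ℕ) (B : Matrix (Fin N) (Fin N) ℂ) : Prop :=
  (NormedSpace.exp ((2 * Real.pi * Complex.I : ℂ) • B) - 1).rank ≤ r

/-- There is a commutative algebra of polynomial matrices of rank `d`, stable under the connection
induced on endomorphisms, that is ramified at `b` or more of the singular points. -/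
def Cover (d b : ℕ) (t : Fin n → ℂ) (A : Fin n → Matrix (Fin N) (Fin N) ℂ) : Prop :=
  ∃ W : Subalgebra ℂ[X] (Matrix (Fin N) (Fin N) ℂ[X]),
    (∀ Φ ∈ W, dl t • Φ.map derivative - (pm t A * Φ - Φ * pm t A) ∈ W) ∧
      (∀ Φ ∈ W, ∀ Ψ ∈ W, Φ * Ψ = Ψ * Φ) ∧ Module.finrank ℂ[X] W = d ∧
        ∃ M : Finset (Fin n), b ≤ M.card ∧ ∀ i ∈ M, RamAt t A W i

end Pool.Agent.GR.GC
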