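import Pool.Agent.Lib.MP_aa40d3_nt.MG.RamL
import Pool.Agent.Lib.MP_aa40d3_nt.GC.Stmt

/-! The rank of the local monodromy minus one. -/

open Polynomial Matrix Set Filter Topology
open scoped Matrix.Norms.Operator

namespace Pool.Agent.GR.GC

variable {n N : ℕ}

theorem rka_idem {E : Mat N} (hE : E * E = E) : ((E.rank : ℕ) : ℂ) = E.trace := by
  have h1 : IsIdempotentElem (Matrix.toLin' E) := by
    rw [IsIdempotentElem, Module.End.mul_eq_comp, ← Matrix.toLin'_mul, hE]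
  rw [← Matrix.trace_toLin'_eq, (LinearMap.IsIdempotentElem.isProj_range _ h1).trace]
  rfl

/-- `P = k⁻¹ • ∑ j ∈ range k, g ^ j` satisfies `g * P = P`, so `1 - P` is an idempotent; it has
the same range as `g - 1` (`(1 - P) * (g - 1) = g - 1`, and `g - 1` divides `1 - g ^ j` on the left);
the trace of an idempotent is its rank (`LinearMap.IsProj.trace`). -/
theorem rank_trace {g : Mat N} {k : ℕ} (hk : 0 < k) (hg : g ^ k = 1) :
    (((g - 1).rank : ℕ) : ℂ) = N - (k : ℂ)⁻¹ * ∑ j ∈ Finset.range k, (g ^ j).trace := by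
  have hk' : (k : ℂ) ≠ 0 := Nat.cast_ne_zero.2 hk.ne'
  obtain ⟨S, hS⟩ : ∃ S, S = ∑ j ∈ Finset.range k, g ^ j := ⟨_, rfl⟩
  have h1 : S * (g - 1) = 0 := by rw [hS, geom_sum_mul, hg, sub_self]
  have h2 : ∃ Q, 1 - (k : ℂ)⁻¹ • S = (g - 1) * Q := by
    have h3 : (g - 1) ∣ ∑ j ∈ Finset.range k, (1 - g ^ j) :=
      Finset.dvd_sum fun j _ => ⟨-∑ i ∈ Finset.range j, g ^ i, by
        rw [mul_neg, mul_geom_sum, neg_sub]⟩
    obtain ⟨Q, hQ⟩ := h3
    refine ⟨(k : ℂ)⁻¹ • Q, ?_⟩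
    rw [Matrix.mul_smul, ← hQ, Finset.sum_sub_distrib, ← hS, Finset.sum_const, Finset.card_range,
      smul_sub, ← Nat.cast_smul_eq_nsmul ℂ, smul_smul, inv_mul_cancel₀ hk', one_smul]
  obtain ⟨Q, hQ⟩ := h2
  have h4 : (1 - (k : ℂ)⁻¹ • S) * (g - 1) = g - 1 := by
    rw [sub_mul, Matrix.smul_mul, h1, smul_zero, sub_zero, one_mul]
  have h5 : (1 - (k : ℂ)⁻¹ • S) * (1 - (k : ℂ)⁻¹ • S) = 1 - (k : ℂ)⁻¹ • S := by
    conv_lhs => enter [2]; rw [hQ]
    rw [← mul_assoc, h4, ← hQ]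
  have h6 : (g - 1).rank = (1 - (k : ℂ)⁻¹ • S).rank := by
    refine le_antisymm ?_ ?_
    · conv_lhs => rw [← h4]
      exact rank_mul_le_left _ _
    · rw [hQ]
      exact rank_mul_le_left _ _
  rw [h6, rka_idem h5, trace_sub, trace_smul, trace_one, hS, trace_sum, Fintype.card_fin,
    smul_eq_mul]

/-- `s a ^ k = 1` and the traces of the powers are constant; pass to the limit; `rank_trace`. -/
theorem rank_lim {α : Type} {l : Filter α} [l.NeBot] {g : (Mat N)ˣ} (hg : IsOfFinOrder g)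
    {s : α → Mat N} {e : Mat N} (hs : Tendsto s l (𝓝 e))
    (h : ∀ᶠ a in l, ∃ u : (Mat N)ˣ, s a = u.val * g.val * (u⁻¹).val) :
    (g.val - 1).rank = (e - 1).rank := by
  obtain ⟨k, hk, hgk⟩ := isOfFinOrder_iff_pow_eq_one.1 hg
  have hp : ∀ (u : (Mat N)ˣ) (j : ℕ),
      (u.val * g.val * (u⁻¹).val) ^ j = u.val * g.val ^ j * (u⁻¹).val := fun u j =>
    Units.conj_pow u g.val j
  have hg1 : g.val ^ k = 1 := by rw [← Units.val_pow_eq_pow_val, hgk, Units.val_one]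
  have h1 : e ^ k = 1 := by
    refine tendsto_nhds_unique (hs.pow k) (tendsto_const_nhds.congr' (h.mono ?_))
    rintro a ⟨u, hu⟩
    simp only [hu, hp, hg1, mul_one, Units.mul_inv]
  have h2 : ∀ j : ℕ, (e ^ j).trace = (g.val ^ j).trace := fun j => by
    have h3 : Tendsto (fun a => (s a ^ j).trace) l (𝓝 (e ^ j).trace) :=
      ((continuous_id.matrix_trace).tendsto (e ^ j)).comp (hs.pow j)
    refine tendsto_nhds_unique h3 (tendsto_const_nhds.congr' (h.mono ?_))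
    rintro a ⟨u, hu⟩
    simp only [hu, hp, trace_units_conj]
  refine Nat.cast_injective (R := ℂ) ?_
  simp only [rank_trace hk hg1, rank_trace hk h1, h2]

end Pool.Agent.GR.GC
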