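import Pool.Agent.Lib.MP_aa40d3_nt.GC.Defs

/-! The two types of elements. -/

open Matrix

namespace Pool.Agent.GR.GC

variable {G : Type} [Group G] {d m r : ℕ} {σ : G →* Mt m}

/-- If `N * E` has rank at least that of `N`, then `N` factors through `N * E`. -/
theorem typa_fac (N E : Mt m) (h : N.rank ≤ (N * E).rank) : ∃ Y : Mt m, N = N * E * Y := by
  have h1 : LinearMap.range (N * E).mulVecLin = LinearMap.range N.mulVecLin := by
    refine Submodule.eq_of_le_of_finrank_le ?_ h
    rw [Matrix.mulVecLin_mul]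
    exact LinearMap.range_comp_le_range _ _
  have h2 : ∀ k : Fin m, ∃ v, (N * E) *ᵥ v = N *ᵥ Pi.single k 1 := fun k => by
    have h3 : N *ᵥ Pi.single k 1 ∈ LinearMap.range (N * E).mulVecLin := by
      rw [h1]
      exact ⟨_, rfl⟩
    exact h3
  choose v hv using h2
  refine ⟨Matrix.of fun a k => v k a, ?_⟩
  ext a k
  have h4 := congrFun (hv k) a
  rw [Matrix.mulVec_single_one] at h4
  exact h4.symm

/-- `e i * ((σ x - 1) * e i) = - e i`, so `(σ x - 1) * e i` has rank at least `r`, and its range is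
the range of `σ x - 1` (`Submodule.eq_of_le_of_finrank_le`). So every `σ x *ᵥ w - w` is
`σ x *ᵥ v - v` with `v` in the sheet `i`, and is killed by `e l` for `l ≠ i, j`. For such `l` we get
`e l * σ x = e l`; then `π x l = l` (otherwise `e l * σ x * e l = 0`, but `e l ≠ 0`) and `x ∈ K l`.
So `π x` is the exchange of `i` and `j`. For `w` in the sheet `j` compare components:
`σ x *ᵥ v = - w`, `σ x *ᵥ w = - v`, so `x * x ∈ K j`; conjugate by `x` to get `x * x ∈ K i`. -/
theorem BR.swap (b : BR σ d) (hr : 1 ≤ r) (hk : ∀ i, (b.e i).rank = r) {x : G}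
    (hx : (σ x - 1).rank ≤ r) {i j : Fin d} (hij : i ≠ j) (h : b.π x i = j) : b.bs.Swap x i j := by
  have hi : σ x * b.e i = b.e j * σ x := by rw [b.act, h]
  have h1 : (σ x - 1) * b.e i = b.e j * σ x - b.e i := by rw [Matrix.sub_mul, hi, Matrix.one_mul]
  have h2 : -b.e i * ((σ x - 1) * b.e i) = b.e i := by
    rw [h1, Matrix.neg_mul, Matrix.mul_sub, ← Matrix.mul_assoc, b.orth i j hij, Matrix.zero_mul,
      b.idem, zero_sub, neg_neg]
  obtain ⟨Y, hY⟩ := typa_fac (σ x - 1) (b.e i) (by
    refine hx.trans ((hk i).symm.le.trans ?_)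
    conv_lhs => rw [← h2]
    exact Matrix.rank_mul_le_right _ _)
  have hK : ∀ l, l ≠ i → l ≠ j → x ∈ b.K l := by
    intro l hli hlj
    have h3 : b.e l * σ x = b.e l := by
      have h4 : b.e l * (σ x - 1) = 0 := by
        rw [hY, h1, ← Matrix.mul_assoc, Matrix.mul_sub, ← Matrix.mul_assoc, b.orth l j hlj,
          b.orth l i hli, Matrix.zero_mul, sub_zero, Matrix.zero_mul]
      rwa [Matrix.mul_sub, Matrix.mul_one, sub_eq_zero] at h4
    have h5 : b.π x l = l := by
      by_contra hne
      have h6 : b.e l = 0 := by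
        rw [← b.idem l]
        nth_rewrite 1 [← h3]
        rw [Matrix.mul_assoc, b.act, ← Matrix.mul_assoc, b.orth l _ (Ne.symm hne), Matrix.zero_mul]
      have h7 := hk l
      rw [h6, Matrix.rank_zero] at h7
      omega
    exact ⟨h5, by rw [b.act, h5, h3]⟩
  have hj : b.π x j = i := by
    by_contra hne
    have h3 : b.π x j ≠ j := fun h4 => hij ((b.π x).injective (h.trans h4.symm))
    exact h3 ((b.π x).injective (hK _ hne h3).1)
  have hπ : b.π x = Equiv.swap i j := by
    ext l
    by_cases hli : l = i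
    · rw [hli, h, Equiv.swap_apply_left]
    · by_cases hlj : l = j
      · rw [hlj, hj, Equiv.swap_apply_right]
      · rw [(hK l hli hlj).1, Equiv.swap_apply_of_ne_of_ne hli hlj]
  have hj' : σ x * b.e j = b.e i * σ x := by rw [b.act, hj]
  have h3 : σ x * b.e j - b.e j = σ x * (b.e i * (Y * b.e j)) - b.e i * (Y * b.e j) := by
    have h4 := congrArg (· * b.e j) hY
    simp only [Matrix.mul_assoc] at h4
    simpa only [Matrix.sub_mul, Matrix.one_mul] using h4
  have h4 : σ x * b.e j = -(b.e i * (Y * b.e j)) := by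
    have h5 := congrArg (b.e i * ·) h3
    simp only [Matrix.mul_sub] at h5
    rw [b.orth i j hij, sub_zero, ← Matrix.mul_assoc (b.e i) (σ x), ← hj', Matrix.mul_assoc,
      b.idem, ← Matrix.mul_assoc (σ x), hi, ← Matrix.mul_assoc (b.e i) (b.e j * σ x),
      ← Matrix.mul_assoc (b.e i) (b.e j), b.orth i j hij, Matrix.zero_mul, Matrix.zero_mul,
      ← Matrix.mul_assoc (b.e i) (b.e i), b.idem, zero_sub] at h5
    exact h5
  have h5 : x * x ∈ b.K j := by
    refine ⟨by rw [map_mul, hπ, Equiv.swap_mul_self, Equiv.Perm.one_apply], ?_⟩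
    rw [map_mul, Matrix.mul_assoc]
    rw [h4] at h3 ⊢
    rw [Matrix.mul_neg, neg_eq_iff_eq_neg]
    linear_combination (norm := abel1) -h3
  have h6 : x * x ∈ b.K i := by
    have h7 := b.bs.conj x j _ h5
    rw [show x * (x * x) * x⁻¹ = x * x by group] at h7
    exact hj ▸ h7
  refine ⟨hij, hπ, b.bs.sep _ fun l => ?_, hK⟩
  by_cases hli : l = i
  · exact hli ▸ h6
  · by_cases hlj : l = j
    · exact hlj ▸ h5
    · exact (b.K l).mul_mem (hK l hli hlj) (hK l hli hlj)

end Pool.Agent.GR.GC
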